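import Pool.Agent.Lib.MP_a17b09_nt.OM.Basic

/-!
Statements of the modules of the theorem on `Ω(f(t))` modulo odd numbers. Each `St...` is a
proposition that is proved in a file of its own.
-/

set_option autoImplicit false

open Filter Topology

namespace Pool.Agent.MP_a17b09_nt.OM

/-- the law of a finite-valued function -/
noncomputable def pr (M : Mean) {α : Type} [DecidableEq α] (X : ℤ → α) (a : α) : ℝ :=
  M.E (fun x => if X x = a then 1 else 0)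

/-- the joint law of a finite-valued function and the residue modulo `q` -/
noncomputable def prq (M : Mean) {α : Type} [DecidableEq α] (X : ℤ → α) (q : ℕ) (a : α) (i : ℕ) : ℝ :=
  M.E (fun x => if X x = a ∧ (q : ℤ) ∣ x - (i : ℤ) then 1 else 0)

/-- Shannon entropy -/
noncomputable def Hn (M : Mean) {α : Type} [Fintype α] [DecidableEq α] (X : ℤ → α) : ℝ :=
  ∑ a, Real.negMulLog (pr M X a)

/-- joint entropy of `X` and the residue modulo `q` -/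
noncomputable def Hq (M : Mean) {α : Type} [Fintype α] [DecidableEq α] (X : ℤ → α) (q : ℕ) : ℝ :=
  ∑ a, ∑ i ∈ Finset.range q, Real.negMulLog (prq M X q a i)

/-- mutual information of `X` and the residue modulo `q` -/
noncomputable def Iq (M : Mean) {α : Type} [Fintype α] [DecidableEq α] (X : ℤ → α) (q : ℕ) : ℝ :=
  Hn M X + Real.log q - Hq M X q

/-- the window of length `W` -/
def win {α : Type} (φ : ℤ → α) (W : ℕ) (x : ℤ) : Fin W → α := fun i => φ (x + ((i : ℕ) : ℤ))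

/-- entropy decrement inequality -/
def StED : Prop := ∀ (M : Mean) (A : Type) [Fintype A] [DecidableEq A] (φ : ℤ → A) (W k : ℕ)
  (Q : Finset ℕ), (∀ q ∈ Q, q.Prime) →
  Hn M (win φ (k * W)) ≤ k * Hn M (win φ W) - k * ∑ q ∈ Q, Iq M (win φ W) q +
    ∑ q ∈ Q, Real.log q

/-- small mutual information implies near independence -/
def StPinsker : Prop := ∀ (M : Mean) (A : Type) [Fintype A] [DecidableEq A] (X : ℤ → A) (q : ℕ),
  0 < q → 0 ≤ Iq M X q ∧ ∀ h : A → ℕ → ℝ, (∀ a i, 0 ≤ h a i ∧ h a i ≤ 1) →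
  |∑ a, ∑ i ∈ Finset.range q, (prq M X q a i - pr M X a / q) * h a i| ≤ 2 * √(Iq M X q)

/-- At some scale `2 ^ e`, the pair `(φ x, φ (x + D q))` is nearly independent of the event
`x ≡ r_q mod q`, on average over the primes `q ≡ 1 mod K` in `(2^e, 2^(e+1)]`. -/
def StDecouple : Prop := ∀ (M : Mean) (A : Type) [Fintype A] [DecidableEq A] (φ : ℤ → A) (K : ℕ),
  0 < K → ∀ (D0 : ℕ) (ε : ℝ), 0 < ε → ∀ E0 : ℕ,
    ∃ e : ℕ, E0 ≤ e ∧ ∀ (r : ℕ → ℤ) (D : ℕ → ℕ) (Ψ : ℕ → A → A → ℝ), (∀ q, D q ≤ D0) →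
      (∀ q a b, 0 ≤ Ψ q a b ∧ Ψ q a b ≤ 1) →
      ∑ q ∈ QQ K e, |M.E (fun x => if (q : ℤ) ∣ x - r q then
          (q : ℝ) * Ψ q (φ x) (φ (x + ((D q * q : ℕ) : ℤ))) else 0) -
        M.E (fun x => Ψ q (φ x) (φ (x + ((D q * q : ℕ) : ℤ))))| ≤ ε * ((QQ K e).card : ℝ)

/-- Averages over primes kill the part that is orthogonal to the rational spectrum. -/
def StMinor : Prop := ∀ (H : Type) [NormedAddCommGroup H] [InnerProductSpace ℂ H]
    [CompleteSpace H] (U : H ≃ₗᵢ[ℂ] H) (f : H),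
    (∀ t : ℕ, 0 < t → ∀ v : H, (U ^ t) v = v → inner ℂ v f = 0) →
    ∀ K : ℕ, 0 < K → ∀ n : ℕ, 0 < n →
    Tendsto (fun e : ℕ => (1 / ((QQ K e).card : ℝ)) * ‖∑ q ∈ QQ K e, (U ^ (n * q)) f‖)
      atTop (𝓝 0)

/-- finitary colouring theorem -/
def StCT : Prop := ∀ (m : ℕ), Odd m → ∀ (K0 R d0 : ℕ), 0 < K0 → 0 < R → 0 < d0 →
    ∀ (y0 : ℕ) (c : ZMod m),
    ∃ Y : ℕ, ∀ (χ : ℕ → ZMod m) (r : ℕ → ℕ), ∃ y k : ℕ, y + d0 * k ≤ Y ∧ 0 < k ∧ Squarefree k ∧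
      (∀ p : ℕ, p.Prime → p ∣ k → p ≡ 1 [MOD K0] ∧ y ≡ r p [MOD p]) ∧ y ≡ y0 [MOD R] ∧
      χ y + χ (y + d0 * k) = c + 2 * ((ArithmeticFunction.cardFactors k : ℕ) : ZMod m)

/-- the final theorem -/
def StFinal : Prop := ∀ (a b c : ℤ), 0 < a → ¬ IsSquare (b ^ 2 - 4 * a * c) →
    ∀ (m : ℕ), Odd m → ∀ (ρ : ZMod m) (t0 h : ℕ), 0 < h →
    ∃ C : ℕ, ∀ ε : ℝ, 0 < ε → ε ≤ 1 / 2 → ∃ N₁ : ℕ, ∀ N : ℕ, N₁ ≤ N →
      (N : ℝ) ^ (1 - ε) ≤ (((Finset.Icc 1 N).filter (fun t : ℕ => t ≡ t0 [MOD h] ∧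
        0 < a * (t : ℤ) ^ 2 + b * t + c ∧
        (ArithmeticFunction.cardFactors (a * (t : ℤ) ^ 2 + b * t + c).natAbs : ℝ) ≤ C / ε ∧
        ((ArithmeticFunction.cardFactors (a * (t : ℤ) ^ 2 + b * t + c).natAbs : ℕ) : ZMod m)
          = ρ)).card : ℝ)

end Pool.Agent.MP_a17b09_nt.OM
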