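import Mathlib
import Pool.Agent.Lib.MP_a17b09_nt.OM.Stmts
import Pool.Agent.Lib.QuadThree.MainCount

/-!
The value of the quadratic attached to a prime `n` and a sifted number.
-/

set_option autoImplicit false

namespace Pool.Agent.MP_a17b09_nt.OM

open Finset Pool.Agent.Lib.QuadParity Pool.Agent.Lib.QuadThree

/-- the polynomial `s ^ 2 - Δ` -/
def Gf (Δ s : ℤ) : ℤ := mf 0 (-Δ) s

theorem Gf_eq (Δ s : ℤ) : Gf Δ s = s ^ 2 - Δ := by unfold Gf mf; ring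

/-- the arguments -/
def sA (Q n : ℕ) (u : ℤ) (σ i : ℕ) : ℤ := Q * (u + n * (σ + 1)) + n * i

/-- a natural number all of whose prime factors are `1` modulo `K` is `1` modulo `K` -/
theorem modEq_one_of_primes (K : ℕ) : ∀ k : ℕ, k ≠ 0 → (∀ p : ℕ, p.Prime → p ∣ k → p ≡ 1 [MOD K]) →
    k ≡ 1 [MOD K] := by
  intro k
  induction k using Nat.recOnMul with
  | zero => intro h; exact absurd rfl h
  | one => intro _ _; rfl
  | prime p hp => intro _ h; exact h p hp dvd_rfl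
  | mul x y hx hy =>
    intro hk h
    have hx0 : x ≠ 0 := by rintro rfl; simp at hk
    have hy0 : y ≠ 0 := by rintro rfl; simp at hk
    have h1 := hx hx0 (fun p hp hd => h p hp (hd.mul_right y))
    have h2 := hy hy0 (fun p hp hd => h p hp (hd.mul_left x))
    simpa using h1.mul h2

theorem sqfree_dvd (k : ℕ) (hk : Squarefree k) (g : ℤ)
    (h : ∀ p : ℕ, p.Prime → p ∣ k → (p : ℤ) ∣ g) : (k : ℤ) ∣ g := by
  rw [← Nat.prod_primeFactors_of_squarefree hk, Int.natCast_dvd]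
  apply Finset.prod_primes_dvd
  · intro p hp
    exact (Nat.prime_of_mem_primeFactors hp).prime
  · intro p hp
    exact Int.natCast_dvd.1 (h p (Nat.prime_of_mem_primeFactors hp) (Nat.dvd_of_mem_primeFactors hp))

theorem Gf_dvd_of (Δ m x y : ℤ) (h : m ∣ x - y) : m ∣ Gf Δ x ↔ m ∣ Gf Δ y :=
  mf_dvd_of 0 (-Δ) m x y h

theorem exists_idx (Δ : ℤ) (p n : ℕ) (hp : p.Prime) (hpn : ¬ p ∣ n) (x ρ : ℤ)
    (hρ : (p : ℤ) ∣ Gf Δ ρ) : ∃ i : ℕ, (p : ℤ) ∣ Gf Δ (x + n * i) := by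
  have hpz : Prime (p : ℤ) := Nat.prime_iff_prime_int.1 hp
  have hcop : IsCoprime (n : ℤ) (p : ℤ) := by
    rw [isCoprime_comm]
    apply (hpz.coprime_iff_not_dvd).2
    intro h
    exact hpn (by exact_mod_cast h)
  obtain ⟨v, w, hvw⟩ := hcop
  have hp0 : (p : ℤ) ≠ 0 := hpz.ne_zero
  refine ⟨((v * (ρ - x)) % p).toNat, ?_⟩
  have h4 := Int.emod_nonneg (v * (ρ - x)) hp0
  rw [Int.toNat_of_nonneg h4]
  rw [Gf_dvd_of Δ p _ ρ]
  · exact hρ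
  · have h5 := Int.emod_add_mul_ediv (v * (ρ - x)) p
    have h6 : (v * (ρ - x)) % p = v * (ρ - x) - p * ((v * (ρ - x)) / p) := by linarith
    rw [h6]
    refine ⟨-(w * (ρ - x)) - n * ((v * (ρ - x)) / p), ?_⟩
    linear_combination (ρ - x) * hvw

theorem Om_ne_zero_mul {m n : ℤ} (hm : m ≠ 0) (hn : n ≠ 0) : Om (m * n) = Om m + Om n :=
  Om_mul hm hn

/-- the identity for the number of prime factors -/
theorem pair_Om (Δ s D l : ℤ) (hD : 0 < D) (h1 : 0 < Gf Δ s) (h2 : 0 < Gf Δ (s + D))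
    (hl : Gf Δ s = D * l) :
    0 < l ∧ 0 < Gf Δ (s + l) ∧ l ∣ Gf Δ (s + l) ∧
      Om (Gf Δ (s + l)) + 2 * Om D = Om (Gf Δ s) + Om (Gf Δ (s + D)) := by
  obtain ⟨e1, e2⟩ := mf_pair 0 (-Δ) s D l hl
  have hl0 : 0 < l := by
    rw [hl] at h1
    exact pos_of_mul_pos_right h1 hD.le
  have e1' : Gf Δ (s + D) = D * (l + 2 * s + 0 + D) := e1
  have e2' : Gf Δ (s + l) = l * (l + 2 * s + 0 + D) := e2
  have hE : 0 < l + 2 * s + 0 + D := by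
    rw [e1'] at h2
    exact pos_of_mul_pos_right h2 hD.le
  generalize l + 2 * s + 0 + D = E at *
  refine ⟨hl0, by rw [e2']; positivity, by rw [e2']; exact Dvd.intro _ rfl, ?_⟩
  rw [e1', e2', hl, Om_mul hl0.ne' hE.ne', Om_mul hD.ne' hl0.ne', Om_mul hD.ne' hE.ne']
  ring

/-- the value attached to a prime `n` -/
theorem single (Δ : ℤ) (e0 r' K0 Y Q R y0 : ℕ) (s1 : ℤ) (m : ℕ) (c0 : ZMod m)
    (hCT : ∀ (χ : ℕ → ZMod m) (r : ℕ → ℕ), ∃ y k : ℕ, y + e0 * k ≤ Y ∧ 0 < k ∧ Squarefree k ∧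
      (∀ p : ℕ, p.Prime → p ∣ k → p ≡ 1 [MOD K0] ∧ y ≡ r p [MOD p]) ∧ y ≡ y0 [MOD R] ∧
      χ y + χ (y + e0 * k) = c0 + 2 * ((ArithmeticFunction.cardFactors k : ℕ) : ZMod m))
    (hroot : ∀ p : ℕ, p.Prime → p ≡ 1 [MOD K0] → ∃ ρ : ℤ, (p : ℤ) ∣ Gf Δ ρ)
    (hy0 : (R : ℤ) ∣ y0 - s1) (hR : R = e0 * r') (hRQ : R ∣ Q) (hRK : R ∣ K0)
    (he0 : 0 < e0) (hG1 : Gf Δ s1 = e0)
    (n : ℕ) (hn : n.Prime) (hnQ : n ≡ 1 [MOD Q]) (hnY : Y < n) (hne0 : e0 < n)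
    (u : ℤ) (hu : (n : ℤ) ∣ Gf Δ (Q * u)) (σ : ℕ) (hpos : ∀ i : ℕ, i ≤ Y → 0 < Gf Δ (sA Q n u σ i)) :
    ∃ (i k : ℕ) (l : ℤ), i + e0 * k ≤ Y ∧ 0 < k ∧ 0 < l ∧
      Gf Δ (sA Q n u σ i) = (n * e0 * k) * l ∧
      (r' : ℤ) ∣ sA Q n u σ i + l - (s1 + 1) ∧ 0 < Gf Δ (sA Q n u σ i + l) ∧
      l ∣ Gf Δ (sA Q n u σ i + l) ∧
      ((Om (Gf Δ (sA Q n u σ i + l)) : ℕ) : ZMod m) = c0 - 2 - 2 * ((Om (e0 : ℤ) : ℕ) : ZMod m) ∧
      Om (Gf Δ (sA Q n u σ i + l)) ≤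
        Om (Gf Δ (sA Q n u σ i)) + Om (Gf Δ (sA Q n u σ (i + e0 * k))) := by
  classical
  have hidx : ∀ p : ℕ, ∃ i : ℕ, p.Prime → p ≡ 1 [MOD K0] → p ≠ n →
      (p : ℤ) ∣ Gf Δ (sA Q n u σ i) := by
    intro p
    by_cases h : p.Prime ∧ p ≡ 1 [MOD K0] ∧ p ≠ n
    · obtain ⟨hp, hpK, hpn⟩ := h
      obtain ⟨ρ, hρ⟩ := hroot p hp hpK
      obtain ⟨i, hi⟩ := exists_idx Δ p n hp (fun hd => hpn ((Nat.prime_dvd_prime_iff_eq hp hn).1 hd))
        (Q * (u + n * (σ + 1))) ρ hρ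
      exact ⟨i, fun _ _ _ => hi⟩
    · exact ⟨0, fun h1 h2 h3 => absurd ⟨h1, h2, h3⟩ h⟩
  choose r hr using hidx
  obtain ⟨y, k, hyk, hk0, hksq, hkp, hyy0, hχ⟩ := hCT
    (fun i => ((Om (Gf Δ (sA Q n u σ i)) : ℕ) : ZMod m)) r
  have hkY : k ≤ Y := by
    have : k ≤ e0 * k := Nat.le_mul_of_pos_left k he0
    omega
  obtain ⟨s, hs⟩ : ∃ s, s = sA Q n u σ y := ⟨_, rfl⟩
  have hkG : (k : ℤ) ∣ Gf Δ s := by
    apply sqfree_dvd k hksq
    intro p hp hpk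
    obtain ⟨h1, h2⟩ := hkp p hp hpk
    have hpn : p ≠ n := by
      have := Nat.le_of_dvd hk0 hpk
      omega
    have h3 := hr p hp h1 hpn
    rw [hs]
    refine (Gf_dvd_of Δ p _ _ ?_).2 h3
    have h4 : (p : ℤ) ∣ (y : ℤ) - (r p : ℤ) := by
      have := (Nat.modEq_iff_dvd.1 h2.symm)
      exact this
    have e : sA Q n u σ y - sA Q n u σ (r p) = n * ((y : ℤ) - r p) := by unfold sA; ring
    rw [e]
    exact h4.mul_left _
  have hk1 : k ≡ 1 [MOD K0] := modEq_one_of_primes K0 k hk0.ne' (fun p hp hd => (hkp p hp hd).1)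
  -- divisibility by `n`
  have hnG : (n : ℤ) ∣ Gf Δ s := by
    refine (Gf_dvd_of Δ n _ _ ?_).2 hu
    rw [hs]
    refine ⟨Q * (σ + 1) + y, ?_⟩
    unfold sA; ring
  -- the residue modulo `R`
  have hn1R : (R : ℤ) ∣ (n : ℤ) - 1 := by
    have h1 : (Q : ℤ) ∣ (n : ℤ) - ((1 : ℕ) : ℤ) := Nat.modEq_iff_dvd.1 hnQ.symm
    have h2 : (R : ℤ) ∣ (Q : ℤ) := by exact_mod_cast hRQ
    have h3 := h2.trans h1
    push_cast at h3
    exact h3
  have hk1R : (R : ℤ) ∣ (k : ℤ) - 1 := by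
    have h1 : (K0 : ℤ) ∣ (k : ℤ) - ((1 : ℕ) : ℤ) := Nat.modEq_iff_dvd.1 hk1.symm
    have h2 : (R : ℤ) ∣ (K0 : ℤ) := by exact_mod_cast hRK
    have h3 := h2.trans h1
    push_cast at h3
    exact h3
  have hsR : (R : ℤ) ∣ s - s1 := by
    obtain ⟨q, hq⟩ := hRQ
    have h1 : (R : ℤ) ∣ (y : ℤ) - (y0 : ℤ) := Nat.modEq_iff_dvd.1 hyy0.symm
    have e : s - s1 = R * (q * (u + n * (σ + 1))) + (n - 1) * y + (y - y0) + (y0 - s1) := by
      rw [hs]; unfold sA; rw [hq]; push_cast; ring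
    rw [e]
    exact dvd_add (dvd_add (dvd_add (Dvd.intro _ rfl) (hn1R.mul_right _)) h1) hy0
  obtain ⟨w, hw⟩ : ∃ w : ℤ, Gf Δ s = e0 * (1 + r' * w) := by
    obtain ⟨v, hv⟩ := hsR
    refine ⟨v * (s + s1), ?_⟩
    have h1 : Gf Δ s = Gf Δ s1 + (s - s1) * (s + s1) := by rw [Gf_eq, Gf_eq]; ring
    rw [h1, hG1, hv, hR]; push_cast; ring
  have hr'R : (r' : ℤ) ∣ (R : ℤ) := by rw [hR]; push_cast; exact Dvd.intro_left _ rfl
  have he0R : (e0 : ℤ) ∣ (R : ℤ) := by rw [hR]; push_cast; exact Dvd.intro _ rfl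
  have hne0' : Nat.Coprime n e0 := by
    rw [hn.coprime_iff_not_dvd]
    intro h
    exact absurd (Nat.le_of_dvd he0 h) (by omega)
  have hnk : Nat.Coprime n k := by
    rw [hn.coprime_iff_not_dvd]
    intro h
    exact absurd (Nat.le_of_dvd hk0 h) (by omega)
  have he0k : IsCoprime (e0 : ℤ) (k : ℤ) := by
    obtain ⟨v, hv⟩ := he0R.trans hk1R
    exact ⟨-v, 1, by linear_combination hv⟩
  have hD : ((n : ℤ) * e0 * k) ∣ Gf Δ s := by
    have h1 : IsCoprime (n : ℤ) (e0 : ℤ) := Nat.isCoprime_iff_coprime.2 hne0'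
    have h2 : IsCoprime (n : ℤ) (k : ℤ) := Nat.isCoprime_iff_coprime.2 hnk
    have h3 : (n : ℤ) * e0 ∣ Gf Δ s := h1.mul_dvd hnG (by rw [hw]; exact Dvd.intro _ rfl)
    exact (IsCoprime.mul_left h2 he0k).mul_dvd h3 hkG
  obtain ⟨l, hl⟩ := hD
  have hDpos : (0 : ℤ) < (n : ℤ) * e0 * k := by
    have := hn.pos
    positivity
  have hsD : s + (n : ℤ) * e0 * k = sA Q n u σ (y + e0 * k) := by
    rw [hs]; unfold sA; push_cast; ring
  have hp1 : 0 < Gf Δ s := by rw [hs]; exact hpos y (by omega)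
  have hp2 : 0 < Gf Δ (s + (n : ℤ) * e0 * k) := by rw [hsD]; exact hpos _ hyk
  obtain ⟨hl0, hGl, hlG, hOm⟩ := pair_Om Δ s _ l hDpos hp1 hp2 hl
  refine ⟨y, k, l, hyk, hk0, hl0, ?_, ?_, ?_, ?_, ?_, ?_⟩
  · rw [← hs]; exact hl
  · rw [← hs]
    have h1 : (n : ℤ) * k * l = 1 + r' * w := by
      have h2 : (e0 : ℤ) * (n * k * l) = e0 * (1 + r' * w) := by
        rw [← hw, hl]; ring
      exact mul_left_cancel₀ (by exact_mod_cast he0.ne') h2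
    have h3 : (r' : ℤ) ∣ (n : ℤ) * k - 1 := by
      have e : (n : ℤ) * k - 1 = (n - 1) * k + (k - 1) := by ring
      rw [e]
      exact dvd_add ((hr'R.trans hn1R).mul_right _) (hr'R.trans hk1R)
    have h4 : (r' : ℤ) ∣ l - 1 := by
      have e : l - 1 = r' * w - (n * k - 1) * l := by linear_combination h1
      rw [e]
      exact dvd_sub (Dvd.intro _ rfl) (h3.mul_right _)
    have e : s + l - (s1 + 1) = (s - s1) + (l - 1) := by ring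
    rw [e]
    exact dvd_add (hr'R.trans hsR) h4
  · rw [← hs]; exact hGl
  · rw [← hs]; exact hlG
  · rw [← hs]
    have hOmD : Om ((n : ℤ) * e0 * k) = 1 + Om (e0 : ℤ) + ArithmeticFunction.cardFactors k := by
      have hn0 : (n : ℤ) ≠ 0 := by exact_mod_cast hn.ne_zero
      have he0' : (e0 : ℤ) ≠ 0 := by exact_mod_cast he0.ne'
      have hk0' : (k : ℤ) ≠ 0 := by exact_mod_cast hk0.ne'
      rw [Om_mul (mul_ne_zero hn0 he0') hk0', Om_mul hn0 he0', Om_prime hn]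
      unfold Om
      rw [Int.natAbs_natCast k]
    have h1 : ((Om (Gf Δ (s + l)) : ℕ) : ZMod m) +
        2 * (1 + ((Om (e0 : ℤ) : ℕ) : ZMod m) + ((ArithmeticFunction.cardFactors k : ℕ) : ZMod m)) =
        c0 + 2 * ((ArithmeticFunction.cardFactors k : ℕ) : ZMod m) := by
      rw [← hχ]
      have h2 := congrArg (fun x : ℕ => (x : ZMod m)) hOm
      simp only [hOmD] at h2
      push_cast at h2
      rw [hsD] at h2
      rw [← hs]
      exact h2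
    linear_combination h1
  · rw [← hs, ← hsD]
    omega

end Pool.Agent.MP_a17b09_nt.OM
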