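import Mathlib
import Pool.Agent.Lib.QuadParity.PrimesAp

/-!
Abstract form of the asymptotic count: from a sieve inequality for each set of primes to the lower
bound `N ^ (1 - ε)`.
-/

set_option autoImplicit false

namespace Pool.Agent.MP_a17b09_nt.OM

open Finset Filter Topology Pool.Agent.Lib.QuadParity

theorem asym_abs (D E2 m0 : ℕ) (hm0pos : 0 < m0) (F C1 J : ℝ) (hF1r : 1 ≤ F) (hC1pos : 1 ≤ C1)
    (hJpos : 0 < J) (B0 : ℕ) (Tc : ℕ → ℕ → ℕ)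
    (hmain0 : ∃ N0 : ℕ, ∀ n : ℕ, N0 ≤ n → ∀ K : Finset ℕ,
      (∀ k ∈ K, k.Prime ∧ k ≡ 1 [MOD m0] ∧ 2 ^ (2 ^ n) + B0 < k) →
      ∀ N : ℕ, (∀ k ∈ K, C1 * (k : ℝ) * ((2 : ℝ) ^ ((8 * D + 7) * 2 ^ n)) ^ 2 ≤ (N : ℝ)) →
      ∀ B : ℕ, (∀ m : ℕ, ((2 : ℝ) ^ (2 ^ n)) ^ m ≤ (F * (N : ℝ) ^ 2) ^ 2 → E2 + m ≤ B) →
      (K.card : ℝ) * (2 : ℝ) ^ ((8 * D + 7) * 2 ^ n) ≤
        2 ^ ((2 * D + 1) * n) * ((Tc B N : ℝ) * (J * 2 ^ B))) :
    ∃ C : ℕ, ∀ ε : ℝ, 0 < ε → ε ≤ 1 / 2 → ∃ N1 : ℕ, ∀ N : ℕ, N1 ≤ N →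
      (N : ℝ) ^ (1 - ε) ≤ (Tc ⌊(C : ℝ) / ε⌋₊ N : ℝ) := by
  obtain ⟨L, hL⟩ : ∃ L : ℕ, L = 8 * D + 7 := ⟨_, rfl⟩
  have hL7 : (7 : ℝ) ≤ L := by
    have : 7 ≤ L := by omega
    exact_mod_cast this
  obtain ⟨C, hC⟩ : ∃ C : ℕ, C = E2 + 20 * L := ⟨_, rfl⟩
  refine ⟨C, ?_⟩
  intro ε hε hε1
  obtain ⟨N0, hN0⟩ := hmain0
  obtain ⟨κ, hκ, Y0, hY02, hY0⟩ := primes_ap m0 hm0pos
  obtain ⟨B, hB⟩ : ∃ B : ℕ, B = ⌊(C : ℝ) / ε⌋₊ := ⟨_, rfl⟩
  have hlog2 : 0 < Real.log 2 := Real.log_pos (by norm_num)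
  have hlog2' := Real.log_two_gt_d9
  -- eventual conditions
  have t1 : Tendsto (fun N : ℕ => Real.log (N : ℝ)) atTop atTop :=
    Real.tendsto_log_atTop.comp tendsto_natCast_atTop_atTop
  have t2 : ∀ δ : ℝ, 0 < δ → Tendsto (fun N : ℕ => (N : ℝ) ^ δ) atTop atTop := fun δ hδ =>
    (tendsto_rpow_atTop hδ).comp tendsto_natCast_atTop_atTop
  have e1 := t1.eventually_ge_atTop (2 ^ (N0 + 1) * (2 * L * Real.log 2 / ε))
  have e2 := t1.eventually_ge_atTop (2 * Real.log F)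
  have e3 := (t2 (1 / 2) (by norm_num)).eventually_ge_atTop (C1 * (2 * (Y0 + 2)))
  have e4 := (t2 (1 / 4) (by norm_num)).eventually_ge_atTop ((B0 + 2) * (32 * C1 / κ))
  have e5 : ∀ᶠ N : ℕ in atTop,
      J * 2 ^ B * (4 * C1 / κ) * (Real.log N) ^ (2 * D + 2) ≤ (N : ℝ) ^ (ε / 2) := by
    have h := (isLittleO_log_rpow_rpow_atTop ((2 * D + 2 : ℕ) : ℝ) (show 0 < ε / 2 by linarith))
    have hpos : (0 : ℝ) < 1 / (J * 2 ^ B * (4 * C1 / κ)) := by positivity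
    have h2 := tendsto_natCast_atTop_atTop.eventually (h.def hpos)
    filter_upwards [h2, t1.eventually_ge_atTop 1, eventually_ge_atTop 1] with N hN hN1 hN2
    have hN2' : (1 : ℝ) ≤ N := by exact_mod_cast hN2
    rw [Real.norm_of_nonneg (by positivity), Real.norm_of_nonneg (by positivity)] at hN
    rw [Real.rpow_natCast, div_mul_eq_mul_div, one_mul, le_div_iff₀ (by positivity)] at hN
    linarith
  have e6 := t1.eventually_ge_atTop 1
  obtain ⟨N1, hN1⟩ := Filter.eventually_atTop.1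
    (e1.and (e2.and (e3.and (e4.and (e5.and (e6.and (eventually_ge_atTop 3)))))))
  refine ⟨N1, ?_⟩
  intro N hN
  obtain ⟨g1, g2, g3, g4, g5, g6, g7⟩ := hN1 N hN
  rw [← hB]
  set x : ℝ := (N : ℝ) with hx
  have hx3 : (3 : ℝ) ≤ x := by rw [hx]; exact_mod_cast g7
  have hx0 : 0 < x := by linarith
  set Lx := Real.log x with hLx
  have hLx1 : 1 ≤ Lx := g6
  -- choose n
  obtain ⟨A, hA⟩ : ∃ A : ℝ, A = ε * Lx / (2 * L * Real.log 2) := ⟨_, rfl⟩
  have hLpos : (0 : ℝ) < L := by linarith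
  have hAlow : 2 ^ (N0 + 1) ≤ A := by
    rw [hA, le_div_iff₀ (by positivity)]
    have h1 := mul_le_mul_of_nonneg_left g1 hε.le
    have h2 : ε * (2 ^ (N0 + 1) * (2 * L * Real.log 2 / ε)) =
        2 ^ (N0 + 1) * (2 * L * Real.log 2) := by
      field_simp
    linarith
  have hA1 : 1 ≤ A := le_trans (one_le_pow₀ (by norm_num)) hAlow
  obtain ⟨n, hn1, hn2⟩ := exists_nat_pow_near hA1 (show (1 : ℝ) < 2 by norm_num)
  have hnN0 : N0 ≤ n := by
    have h1 : (2 : ℝ) ^ (N0 + 1) < 2 ^ (n + 1) := lt_of_le_of_lt hAlow hn2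
    have h2 := (pow_lt_pow_iff_right₀ (show (1 : ℝ) < 2 by norm_num)).1 h1
    omega
  have hAL : A * Real.log 2 = ε * Lx / (2 * L) := by
    rw [hA]; field_simp
  have hlogz1 : (2 : ℝ) ^ n * Real.log 2 ≤ ε * Lx / (2 * L) := by
    rw [← hAL]; exact mul_le_mul_of_nonneg_right hn1 hlog2.le
  have hlogz2 : ε * Lx / (2 * L) < 2 * ((2 : ℝ) ^ n * Real.log 2) := by
    rw [← hAL]
    have h1 := mul_lt_mul_of_pos_right hn2 hlog2
    rw [pow_succ] at h1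
    linarith
  have hlogz1' : (2 : ℝ) ^ n * Real.log 2 * (2 * L) ≤ ε * Lx := by
    rwa [le_div_iff₀ (by positivity)] at hlogz1
  have hlogz2' : ε * Lx < 2 * ((2 : ℝ) ^ n * Real.log 2) * (2 * L) := by
    rwa [div_lt_iff₀ (by positivity)] at hlogz2
  obtain ⟨S, hS⟩ : ∃ S : ℝ, S = (2 : ℝ) ^ (L * 2 ^ n) := ⟨_, rfl⟩
  have hSpos : 0 < S := by rw [hS]; positivity
  have hlogS : Real.log S = L * ((2 : ℝ) ^ n * Real.log 2) := by
    rw [hS, Real.log_pow]; push_cast; ring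
  have hS1 : S ≤ x ^ (ε / 2) := by
    rw [← Real.log_le_log_iff hSpos (by positivity), Real.log_rpow hx0, hlogS]
    linarith
  obtain ⟨z, hz⟩ : ∃ z : ℕ, z = 2 ^ (2 ^ n) := ⟨_, rfl⟩
  have hzpos : (0 : ℝ) < z := by rw [hz]; positivity
  have hlogz : Real.log z = (2 : ℝ) ^ n * Real.log 2 := by
    rw [hz]; push_cast; rw [Real.log_pow]; push_cast; ring
  have hz8 : (z : ℝ) ≤ x ^ (1 / 8 : ℝ) := by
    rw [← Real.log_le_log_iff hzpos (by positivity), Real.log_rpow hx0, hlogz]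
    have hu : 0 ≤ (2 : ℝ) ^ n * Real.log 2 := by positivity
    have a1 : (2 : ℝ) ^ n * Real.log 2 * 14 ≤ (2 : ℝ) ^ n * Real.log 2 * (2 * L) :=
      mul_le_mul_of_nonneg_left (by linarith) hu
    have a2 : ε * Lx ≤ 1 / 2 * Lx := mul_le_mul_of_nonneg_right hε1 (by linarith)
    linarith
  -- Y
  have hS2 : S ^ 2 ≤ x ^ (1 / 2 : ℝ) := by
    calc S ^ 2 ≤ (x ^ (ε / 2)) ^ 2 := pow_le_pow_left₀ hSpos.le hS1 2
      _ = x ^ ε := by rw [← Real.rpow_natCast, ← Real.rpow_mul hx0.le]; norm_num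
      _ ≤ x ^ (1 / 2 : ℝ) := Real.rpow_le_rpow_of_exponent_le (by linarith) hε1
  have hxx : x = x ^ (1 / 2 : ℝ) * x ^ (1 / 2 : ℝ) := by
    rw [← Real.rpow_add hx0]; norm_num
  obtain ⟨Yr, hYr⟩ : ∃ Yr : ℝ, Yr = x / (C1 * S ^ 2) := ⟨_, rfl⟩
  have hhalf : 0 < x ^ (1 / 2 : ℝ) := by positivity
  have hYr1 : x ^ (1 / 2 : ℝ) / C1 ≤ Yr := by
    rw [hYr, div_le_div_iff₀ (by linarith) (by positivity)]
    calc x ^ (1 / 2 : ℝ) * (C1 * S ^ 2) ≤ x ^ (1 / 2 : ℝ) * (C1 * x ^ (1 / 2 : ℝ)) := by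
          apply mul_le_mul_of_nonneg_left _ hhalf.le
          exact mul_le_mul_of_nonneg_left hS2 (by linarith)
      _ = (x ^ (1 / 2 : ℝ) * x ^ (1 / 2 : ℝ)) * C1 := by ring
      _ = x * C1 := by rw [← hxx]
  have hYr2 : 2 * ((Y0 : ℝ) + 2) ≤ Yr := by
    refine le_trans ?_ hYr1
    rw [le_div_iff₀ (by linarith)]
    linarith
  obtain ⟨Y, hY⟩ : ∃ Y : ℕ, Y = ⌊Yr⌋₊ := ⟨_, rfl⟩
  have hY1 : (Y : ℝ) ≤ Yr := by rw [hY]; exact Nat.floor_le (by linarith [Nat.cast_nonneg (α := ℝ) Y0])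
  have hY2 : Yr < Y + 1 := by rw [hY]; exact Nat.lt_floor_add_one _
  have hY0r : (0 : ℝ) ≤ Y0 := Nat.cast_nonneg _
  have hY3 : Yr / 2 ≤ Y := by linarith
  have hYY0 : Y0 ≤ Y := by
    have : (Y0 : ℝ) ≤ Y := by linarith
    exact_mod_cast this
  have hYge2 : (2 : ℝ) ≤ Y := by
    have : 2 ≤ Y := by omega
    exact_mod_cast this
  have hYx : (Y : ℝ) ≤ x := by
    refine hY1.trans ?_
    rw [hYr]
    apply div_le_self hx0.le
    have hS1' : 1 ≤ S := by rw [hS]; exact one_le_pow₀ (by norm_num)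
    exact one_le_mul_of_one_le_of_one_le hC1pos (one_le_pow₀ hS1')
  have hlogY : 0 < Real.log Y := Real.log_pos (by linarith)
  have hlogYx : Real.log Y ≤ Lx := Real.log_le_log (by linarith) hYx
  -- the set of primes
  obtain ⟨K, hK⟩ : ∃ K : Finset ℕ, K = (Finset.range (Y + 1)).filter
    (fun p => (p.Prime ∧ p ≡ 1 [MOD m0]) ∧ z + B0 < p) := ⟨_, rfl⟩
  have hKmem : ∀ k ∈ K, k ≤ Y ∧ k.Prime ∧ k ≡ 1 [MOD m0] ∧ z + B0 < k := by
    intro k hk
    rw [hK, Finset.mem_filter, Finset.mem_range] at hk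
    exact ⟨by omega, hk.2.1.1, hk.2.1.2, hk.2.2⟩
  have hKcard1 : (((Finset.range (Y + 1)).filter (fun p => p.Prime ∧ p ≡ 1 [MOD m0])).card : ℝ) ≤
      (K.card : ℝ) + ((z : ℝ) + B0 + 1) := by
    have h1 : (Finset.range (Y + 1)).filter (fun p => p.Prime ∧ p ≡ 1 [MOD m0]) ⊆
        K ∪ Finset.range (z + B0 + 1) := by
      intro p hp
      rw [Finset.mem_filter] at hp
      rw [Finset.mem_union, hK, Finset.mem_filter, Finset.mem_range (n := z + B0 + 1)]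
      by_cases h : z + B0 < p
      · left; exact ⟨hp.1, hp.2, h⟩
      · right; omega
    have h2 := (Finset.card_le_card h1).trans (Finset.card_union_le _ _)
    rw [Finset.card_range] at h2
    exact_mod_cast h2
  have hYlog : x ^ (3 / 8 : ℝ) / (16 * C1) ≤ Y / Real.log Y := by
    have h1 : Lx ≤ x ^ (1 / 8 : ℝ) / (1 / 8) := Real.log_le_rpow_div hx0.le (by norm_num)
    rw [div_le_div_iff₀ (by linarith) hlogY]
    have h2 : x ^ (1 / 2 : ℝ) / C1 / 2 ≤ Y := by linarith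
    have h3 : x ^ (1 / 2 : ℝ) = x ^ (3 / 8 : ℝ) * x ^ (1 / 8 : ℝ) := by
      rw [← Real.rpow_add hx0]; norm_num
    have h4 : x ^ (1 / 2 : ℝ) ≤ 2 * C1 * Y := by
      rw [div_div, div_le_iff₀ (by linarith)] at h2
      linarith
    have h5 : 0 < x ^ (3 / 8 : ℝ) := by positivity
    calc x ^ (3 / 8 : ℝ) * Real.log Y ≤ x ^ (3 / 8 : ℝ) * (x ^ (1 / 8 : ℝ) / (1 / 8)) :=
          mul_le_mul_of_nonneg_left (hlogYx.trans h1) h5.le
      _ = 8 * x ^ (1 / 2 : ℝ) := by rw [h3]; ring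
      _ ≤ 8 * (2 * C1 * Y) := by linarith
      _ = Y * (16 * C1) := by ring
  have hzB : (z : ℝ) + B0 + 1 ≤ κ / 2 * (Y / Real.log Y) := by
    have h1 : 1 ≤ x ^ (1 / 8 : ℝ) := Real.one_le_rpow (by linarith) (by norm_num)
    have h2 : x ^ (3 / 8 : ℝ) = x ^ (1 / 8 : ℝ) * x ^ (1 / 4 : ℝ) := by
      rw [← Real.rpow_add hx0]; norm_num
    have hB0r : (0 : ℝ) ≤ B0 := Nat.cast_nonneg _
    have h3 : (z : ℝ) + B0 + 1 ≤ x ^ (1 / 8 : ℝ) * (B0 + 2) := by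
      have a1 : (B0 : ℝ) ≤ x ^ (1 / 8 : ℝ) * B0 := le_mul_of_one_le_left hB0r h1
      linarith
    refine h3.trans ?_
    have h4 : κ / 2 * (x ^ (3 / 8 : ℝ) / (16 * C1)) ≤ κ / 2 * (Y / Real.log Y) :=
      mul_le_mul_of_nonneg_left hYlog (by linarith)
    refine le_trans ?_ h4
    have h5 : (B0 + 2 : ℝ) ≤ κ / (32 * C1) * x ^ (1 / 4 : ℝ) := by
      have h6 := mul_le_mul_of_nonneg_left g4 (show 0 ≤ κ / (32 * C1) by positivity)
      have h7 : κ / (32 * C1) * ((B0 + 2) * (32 * C1 / κ)) = B0 + 2 := by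
        field_simp
      linarith
    calc x ^ (1 / 8 : ℝ) * (B0 + 2 : ℝ) ≤ x ^ (1 / 8 : ℝ) * (κ / (32 * C1) * x ^ (1 / 4 : ℝ)) :=
          mul_le_mul_of_nonneg_left h5 (by linarith)
      _ = κ / 2 * (x ^ (3 / 8 : ℝ) / (16 * C1)) := by
          rw [h2]; field_simp; ring
  have hKcard : κ / 2 * (Y / Real.log Y) ≤ K.card := by
    have h1 := hY0 Y hYY0
    linarith
  -- apply the count
  have hmain := hN0 n hnN0 K (fun k hk => by
      have h1 := hKmem k hk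
      rw [hz] at h1
      exact h1.2) N (fun k hk => by
      have h1 := (hKmem k hk).1
      have h2 : (k : ℝ) ≤ Y := by exact_mod_cast h1
      have h4 : C1 * S ^ 2 * k ≤ C1 * S ^ 2 * Yr :=
        mul_le_mul_of_nonneg_left (h2.trans hY1) (by positivity)
      have h5 : C1 * S ^ 2 * Yr = x := by
        rw [hYr]; field_simp
      rw [← hL, ← hS]
      linarith) B (by
      intro m hm
      have h1 : ((2 : ℝ) ^ (2 ^ n)) ^ m ≤ (F * x ^ 2) ^ 2 := hm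
      have h2 : (m : ℝ) * ((2 : ℝ) ^ n * Real.log 2) ≤ 2 * (Real.log F + 2 * Lx) := by
        have h3 := Real.log_le_log (by positivity) h1
        rw [Real.log_pow (n := 2), Real.log_mul (by linarith) (by positivity), Real.log_pow,
          Real.log_pow, Real.log_pow] at h3
        push_cast at h3
        linarith
      have h4 : (m : ℝ) ≤ 20 * L / ε := by
        rw [le_div_iff₀ hε]
        have h5 : (m : ℝ) * (ε * Lx) ≤ (2 * (Real.log F + 2 * Lx)) * (4 * L) := by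
          have h6 : (m : ℝ) * (ε * Lx) ≤ (m : ℝ) * (2 * ((2 : ℝ) ^ n * Real.log 2) * (2 * L)) :=
            mul_le_mul_of_nonneg_left hlogz2'.le (Nat.cast_nonneg m)
          have h7 := mul_le_mul_of_nonneg_right h2 (show (0 : ℝ) ≤ 4 * L by positivity)
          linarith
        have h8 : (2 * (Real.log F + 2 * Lx)) * (4 * L) ≤ 20 * L * Lx := by
          have h9 : 2 * (Real.log F + 2 * Lx) ≤ 5 * Lx := by linarith
          have h10 := mul_le_mul_of_nonneg_right h9 (show (0 : ℝ) ≤ 4 * L by positivity)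
          linarith
        have h6 : (m : ℝ) * ε * Lx ≤ 20 * L * Lx := by linarith
        exact le_of_mul_le_mul_right h6 (by linarith)
      rw [hB]
      apply Nat.le_floor
      rw [hC]
      push_cast
      have h7 : (E2 : ℝ) ≤ E2 / ε := by
        rw [le_div_iff₀ hε]
        exact mul_le_of_le_one_right (Nat.cast_nonneg _) (by linarith)
      have h8 : ((E2 : ℝ) + 20 * L) / ε = E2 / ε + 20 * L / ε := by ring
      rw [h8]
      linarith)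
  rw [← hL, ← hS] at hmain
  -- conclusion
  set T := (Tc B N : ℝ) with hT
  have hn5 : (2 : ℝ) ^ ((2 * D + 1) * n) ≤ Lx ^ (2 * D + 1) := by
    have h1 : (2 : ℝ) ^ n ≤ Lx := by
      refine hn1.trans ?_
      rw [hA, div_le_iff₀ (by positivity)]
      have h2 : (1 : ℝ) ≤ 2 * L * Real.log 2 := by
        have a1 : (7 : ℝ) * 0.5 ≤ L * Real.log 2 :=
          mul_le_mul hL7 (by linarith) (by norm_num) hLpos.le
        linarith
      have a2 : ε * Lx ≤ 1 * Lx := mul_le_mul_of_nonneg_right (by linarith) (by linarith)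
      have a3 : Lx * 1 ≤ Lx * (2 * L * Real.log 2) := mul_le_mul_of_nonneg_left h2 (by linarith)
      linarith
    rw [mul_comm, pow_mul]
    exact pow_le_pow_left₀ (by positivity) h1 _
  have hT0 : 0 ≤ T := Nat.cast_nonneg _
  have hTB : 0 ≤ T * (J * 2 ^ B) := mul_nonneg hT0 (by positivity)
  have h1 : κ / 2 * (Y / Real.log Y) * S ≤ Lx ^ (2 * D + 1) * (T * (J * 2 ^ B)) := by
    calc κ / 2 * (Y / Real.log Y) * S ≤ K.card * S := mul_le_mul_of_nonneg_right hKcard hSpos.le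
      _ ≤ 2 ^ ((2 * D + 1) * n) * (T * (J * 2 ^ B)) := hmain
      _ ≤ Lx ^ (2 * D + 1) * (T * (J * 2 ^ B)) := mul_le_mul_of_nonneg_right hn5 hTB
  have h2 : x / (2 * C1 * S) ≤ Y * S := by
    have h3 : Yr / 2 * S ≤ Y * S := mul_le_mul_of_nonneg_right hY3 hSpos.le
    refine le_trans (le_of_eq ?_) h3
    rw [hYr]; field_simp
  have h3 : x / (2 * C1 * S) / Lx ≤ Y / Real.log Y * S := by
    rw [div_mul_eq_mul_div]
    apply div_le_div₀ (by positivity) h2 hlogY hlogYx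
  have h4 : κ / 2 * (x / (2 * C1 * S) / Lx) ≤ Lx ^ (2 * D + 1) * (T * (J * 2 ^ B)) := by
    have hk2 : 0 ≤ κ / 2 := by linarith
    calc κ / 2 * (x / (2 * C1 * S) / Lx) ≤ κ / 2 * (Y / Real.log Y * S) :=
          mul_le_mul_of_nonneg_left h3 hk2
      _ = κ / 2 * (Y / Real.log Y) * S := by ring
      _ ≤ _ := h1
  have h5 : x ≤ (J * 2 ^ B * (4 * C1 / κ) * Lx ^ (2 * D + 2)) * S * T := by
    have h6 : κ / 2 * (x / (2 * C1 * S) / Lx) * (4 * C1 / κ * S * Lx) = x := by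
      field_simp; ring
    have h7 := mul_le_mul_of_nonneg_right h4 (show 0 ≤ 4 * C1 / κ * S * Lx by positivity)
    rw [h6] at h7
    refine h7.trans (le_of_eq ?_)
    have e : Lx ^ (2 * D + 2) = Lx ^ (2 * D + 1) * Lx := by ring
    rw [e]
    ring
  have h6 : x ≤ x ^ (ε / 2) * x ^ (ε / 2) * T := by
    refine h5.trans ?_
    apply mul_le_mul_of_nonneg_right _ hT0
    exact mul_le_mul g5 hS1 hSpos.le (by positivity)
  have h7 : x ^ (ε / 2) * x ^ (ε / 2) = x ^ ε := by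
    rw [← Real.rpow_add hx0]; congr 1; ring
  rw [h7] at h6
  rw [Real.rpow_sub hx0, Real.rpow_one, div_le_iff₀ (by positivity)]
  linarith

end Pool.Agent.MP_a17b09_nt.OM
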