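import Mathlib
import Pool.Agent.Lib.MP_a17b09_nt.OM.FinA
import Pool.Agent.Lib.MP_a17b09_nt.OM.FinB

/-!
The final theorem from the finitary colouring theorem.
-/

set_option autoImplicit false

namespace Pool.Agent.MP_a17b09_nt.OM

open Finset Pool.Agent.Lib.QuadParity Pool.Agent.Lib.QuadThree

/-- the family of conditions to be avoided -/
def badF (Δ : ℤ) (Y Q n : ℕ) (u : ℤ) (p σ : ℕ) : Prop :=
  (p : ℤ) ∣ ∏ i ∈ Finset.range (Y + 1), Gf Δ (sA Q n u σ i)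

theorem per_badF (Δ : ℤ) (Y Q n : ℕ) (u : ℤ) : Per (badF Δ Y Q n u) := by
  intro p s
  unfold badF
  have h : ((s : ℕ) : ℤ) = p * ((s / p : ℕ) : ℤ) + ((s % p : ℕ) : ℤ) := by
    exact_mod_cast (Nat.div_add_mod s p).symm
  have h1 : ∀ i : ℕ, (p : ℤ) ∣ Gf Δ (sA Q n u s i) - Gf Δ (sA Q n u (s % p) i) := by
    intro i
    unfold Gf
    rw [mf_sub]
    apply Dvd.dvd.mul_right
    unfold sA
    rw [h]
    exact ⟨Q * n * ((s / p : ℕ) : ℤ), by push_cast; ring⟩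
  have h2 : ∀ i : ℕ, Gf Δ (sA Q n u s i) ≡ Gf Δ (sA Q n u (s % p) i) [ZMOD p] := by
    intro i
    rw [Int.modEq_iff_dvd]
    have := (dvd_neg (α := ℤ)).2 (h1 i)
    rwa [neg_sub] at this
  have h3 : (∏ i ∈ Finset.range (Y + 1), Gf Δ (sA Q n u s i)) ≡
      (∏ i ∈ Finset.range (Y + 1), Gf Δ (sA Q n u (s % p) i)) [ZMOD p] := by
    generalize Finset.range (Y + 1) = S
    classical
    induction S using Finset.induction with
    | empty => simp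
    | insert a S ha ih =>
      rw [Finset.prod_insert ha, Finset.prod_insert ha]
      exact (h2 a).mul ih
  exact h3.dvd_iff

theorem nb_badF (Δ : ℤ) (Y Q n D : ℕ) (hD : 2 * (Y + 1) ≤ D) (u : ℤ) (p : ℕ) (hp : p.Prime)
    (hpn : ¬ p ∣ n) (hpQ : ¬ p ∣ Q) : nb (badF Δ Y Q n u) p ≤ D := by
  classical
  have hpz : Prime (p : ℤ) := Nat.prime_iff_prime_int.1 hp
  have hA : ¬ (p : ℤ) ∣ (Q : ℤ) * n := by
    intro h
    rcases hpz.dvd_or_dvd h with h | h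
    · exact hpQ (by exact_mod_cast h)
    · exact hpn (by exact_mod_cast h)
  unfold nb
  have hsub : (Finset.range p).filter (fun s => badF Δ Y Q n u p s) ⊆
      (Finset.range (Y + 1)).biUnion (fun i => (Finset.range p).filter
        (fun s : ℕ => (p : ℤ) ∣ mf 0 (-Δ) (sA Q n u 0 i + (Q * n) * s))) := by
    intro s hs
    rw [Finset.mem_filter] at hs
    unfold badF at hs
    obtain ⟨i, hi, hd⟩ := (hpz.dvd_finsetProd_iff _).1 hs.2
    rw [Finset.mem_biUnion]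
    refine ⟨i, hi, ?_⟩
    rw [Finset.mem_filter]
    refine ⟨hs.1, ?_⟩
    have e : sA Q n u 0 i + (Q * n) * s = sA Q n u s i := by
      unfold sA; push_cast; ring
    rw [e]; exact hd
  refine (Finset.card_le_card hsub).trans ?_
  refine Finset.card_biUnion_le.trans ?_
  calc _ ≤ ∑ i ∈ Finset.range (Y + 1), 2 :=
        Finset.sum_le_sum (fun i _ => two_roots 0 (-Δ) p hp _ _ hA)
    _ = 2 * (Y + 1) := by rw [Finset.sum_const, Finset.card_range, smul_eq_mul, mul_comm]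
    _ ≤ D := hD

/-- small primes -/
theorem small_primes (Δ : ℤ) (hΔ : ¬ IsSquare Δ) (Y Q n E : ℕ) (hE : Y ^ 2 + Δ.natAbs < 2 ^ E)
    (hnQ : n ≡ 1 [MOD Q]) (u : ℤ) (σ : ℕ) (p : ℕ) (hp : p.Prime) (hpQ : p ^ E ∣ Q) (i : ℕ)
    (hi : i ≤ Y) : ¬ (p : ℤ) ^ E ∣ Gf Δ (sA Q n u σ i) := by
  intro hd
  have h1 : ((p : ℤ) ^ E) ∣ sA Q n u σ i - i := by
    have h2 : ((p : ℤ) ^ E) ∣ (Q : ℤ) := by exact_mod_cast hpQ
    have h3 : (Q : ℤ) ∣ (n : ℤ) - ((1 : ℕ) : ℤ) := Nat.modEq_iff_dvd.1 hnQ.symm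
    have e : sA Q n u σ i - i = Q * (u + n * (σ + 1)) + (n - ((1 : ℕ) : ℤ)) * i := by
      unfold sA; push_cast; ring
    rw [e]
    exact dvd_add (h2.mul_right _) ((h2.trans h3).mul_right _)
  have h4 := (Gf_dvd_of Δ _ _ _ h1).1 hd
  rw [Gf_eq] at h4
  have h5 : (i : ℤ) ^ 2 - Δ ≠ 0 := by
    intro h
    apply hΔ
    exact ⟨i, by linarith [h]⟩
  have h6 := Int.le_of_dvd (abs_pos.2 h5) ((dvd_abs _ _).2 h4)
  have h7 : |(i : ℤ) ^ 2 - Δ| ≤ (Y : ℤ) ^ 2 + |Δ| := by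
    have a1 : (i : ℤ) ^ 2 ≤ (Y : ℤ) ^ 2 := by
      apply pow_le_pow_left₀ (by positivity)
      exact_mod_cast hi
    have a2 : (0 : ℤ) ≤ (i : ℤ) ^ 2 := by positivity
    rw [abs_le]
    constructor
    · linarith [le_abs_self Δ]
    · linarith [neg_abs_le Δ]
  have h8 : (Y : ℤ) ^ 2 + |Δ| < 2 ^ E := by
    have : |Δ| = (Δ.natAbs : ℤ) := (Int.natCast_natAbs Δ).symm
    rw [this]
    exact_mod_cast hE
  have h9 : (2 : ℤ) ^ E ≤ (p : ℤ) ^ E := by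
    apply pow_le_pow_left₀ (by norm_num)
    exact_mod_cast hp.two_le
  linarith

/-- the good arguments -/
def goodF (a b c : ℤ) (m : ℕ) (ρ : ZMod m) (t0 h : ℕ) (B N : ℕ) : Finset ℕ :=
  (Finset.Icc 1 N).filter (fun t : ℕ => t ≡ t0 [MOD h] ∧ 0 < a * (t : ℤ) ^ 2 + b * t + c ∧
    Om (a * (t : ℤ) ^ 2 + b * t + c) ≤ B ∧ ((Om (a * (t : ℤ) ^ 2 + b * t + c) : ℕ) : ZMod m) = ρ)

theorem sA_inj (Q n : ℕ) (hQ : 0 < Q) (hn : 0 < n) (u : ℤ) (σ σ' i : ℕ)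
    (h : sA Q n u σ i = sA Q n u σ' i) : σ = σ' := by
  unfold sA at h
  have hQ' : (0 : ℤ) < Q := by exact_mod_cast hQ
  have hn' : (0 : ℤ) < n := by exact_mod_cast hn
  have h1 : ((Q : ℤ) * n) * (σ : ℤ) = (Q * n) * (σ' : ℤ) := by linarith
  exact_mod_cast mul_left_cancel₀ (mul_pos hQ' hn').ne' h1

/-- sizes of the arguments -/
theorem sA_bounds (Q n Y : ℕ) (hQ : 0 < Q) (u : ℤ) (hu0 : 0 ≤ u) (hun : u < n) (σ i : ℕ)
    (hi : i ≤ Y) (W : ℤ) (hW : (σ : ℤ) + 1 ≤ W) :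
    (n : ℤ) ≤ sA Q n u σ i ∧ sA Q n u σ i ≤ n * W * (2 * Q + Y) := by
  have hQ' : (1 : ℤ) ≤ Q := by exact_mod_cast hQ
  have hn' : (0 : ℤ) ≤ n := Nat.cast_nonneg n
  have hσ : (0 : ℤ) ≤ σ := Nat.cast_nonneg σ
  have hi0 : (0 : ℤ) ≤ i := Nat.cast_nonneg i
  have hiY : (i : ℤ) ≤ Y := by exact_mod_cast hi
  have hW1 : 1 ≤ W := by linarith
  constructor
  · unfold sA
    have h1 : (0 : ℤ) ≤ Q * u := by positivity
    have h2 : (n : ℤ) ≤ Q * (n * (σ + 1)) := by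
      have h3 : (n : ℤ) * 1 ≤ n * (Q * (σ + 1)) := by
        apply mul_le_mul_of_nonneg_left _ hn'
        nlinarith
      linarith
    have h3 : (0 : ℤ) ≤ n * i := by positivity
    linarith
  · unfold sA
    have h1 : u + n * (σ + 1) ≤ 2 * (n * W) := by
      have h2 : (n : ℤ) * (σ + 1) ≤ n * W := mul_le_mul_of_nonneg_left hW hn'
      have h3 : (n : ℤ) * 1 ≤ n * W := mul_le_mul_of_nonneg_left hW1 hn'
      linarith
    have h2 : (Q : ℤ) * (u + n * (σ + 1)) ≤ Q * (2 * (n * W)) :=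
      mul_le_mul_of_nonneg_left h1 (by linarith)
    have h3 : (n : ℤ) * i ≤ n * W * Y := by
      have h4 : (i : ℤ) ≤ W * Y := by nlinarith
      calc (n : ℤ) * i ≤ n * (W * Y) := mul_le_mul_of_nonneg_left h4 hn'
        _ = n * W * Y := by ring
    linarith

/-- sizes of the final argument -/
theorem size_t (n W H s l a b N t Δa : ℤ) (hn : 1 ≤ n) (hW : 1 ≤ W) (hH : 1 ≤ H) (hs1 : n ≤ s)
    (hs2 : s ≤ n * W * H) (hl0 : 0 < l) (hl : n * l ≤ s ^ 2 + Δa) (hΔa : Δa < n) (ha : 1 ≤ a)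
    (hab : 2 * a + |b| + 1 ≤ n) (hN : 4 * H ^ 2 * n * W ^ 2 ≤ N) (ht : s + l = 2 * a * t + b) :
    n * W * H ≤ N ∧ 1 ≤ t ∧ t ≤ N := by
  have hX : 1 ≤ W * H := one_le_mul_of_one_le_of_one_le hW hH
  obtain ⟨X, hXdef⟩ : ∃ X : ℤ, X = W * H := ⟨_, rfl⟩
  rw [← hXdef] at hX
  have e1 : n * W * H = n * X := by rw [hXdef]; ring
  have e2 : 4 * H ^ 2 * n * W ^ 2 = 4 * (n * X ^ 2) := by rw [hXdef]; ring
  rw [e1] at hs2 ⊢
  rw [e2] at hN
  clear e1 e2 hXdef hW hH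
  have h0 : 0 ≤ n := by linarith
  have h1 : n ≤ n * X := le_mul_of_one_le_right h0 hX
  have h2 : n * X ≤ n * X ^ 2 := by
    apply mul_le_mul_of_nonneg_left _ h0
    exact Int.le_self_sq X
  have h3 : l ≤ n * X ^ 2 + 1 := by
    have h4 : s ^ 2 ≤ (n * X) ^ 2 := pow_le_pow_left₀ (by linarith) hs2 2
    have h5 : n * l ≤ n * (n * X ^ 2 + 1) := by
      have e : n * (n * X ^ 2 + 1) = (n * X) ^ 2 + n := by ring
      rw [e]; linarith
    exact le_of_mul_le_mul_left h5 (by linarith)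
  have h6 : 1 ≤ t := by
    have h7 : 2 * a * 1 ≤ 2 * a * t := by
      have : 2 * a * t = s + l - b := by linarith
      rw [this]
      linarith [le_abs_self b]
    exact le_of_mul_le_mul_left h7 (by linarith)
  refine ⟨by linarith, h6, ?_⟩
  have h8 : t * 1 ≤ t * (2 * a) := mul_le_mul_of_nonneg_left (by linarith) (by linarith)
  have h9 : -b ≤ n := by linarith [neg_abs_le b]
  linarith

theorem count (a b c : ℤ) (ha : 0 < a) (Δ : ℤ) (hΔdef : Δ = b ^ 2 - 4 * a * c)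
    (hΔ : ¬ IsSquare Δ) (m : ℕ) (ρ : ZMod m) (t0 h : ℕ)
    (e0 r' K0 Y Q R y0 D E : ℕ) (s1 : ℤ)
    (hCT : ∀ (χ : ℕ → ZMod m) (r : ℕ → ℕ), ∃ y k : ℕ, y + e0 * k ≤ Y ∧ 0 < k ∧ Squarefree k ∧
      (∀ p : ℕ, p.Prime → p ∣ k → p ≡ 1 [MOD K0] ∧ y ≡ r p [MOD p]) ∧ y ≡ y0 [MOD R] ∧
      χ y + χ (y + e0 * k) = (ρ + ((Om (4 * a) : ℕ) : ZMod m) + 2 +
        2 * ((Om (e0 : ℤ) : ℕ) : ZMod m)) +
        2 * ((ArithmeticFunction.cardFactors k : ℕ) : ZMod m))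
    (hroot : ∀ p : ℕ, p.Prime → p ≡ 1 [MOD K0] → ∃ ρ : ℤ, (p : ℤ) ∣ Gf Δ ρ)
    (hrootQ : ∀ p : ℕ, p.Prime → p ≡ 1 [MOD Q] → ∃ ρ : ℤ, (p : ℤ) ∣ Gf Δ ρ)
    (hy0 : (R : ℤ) ∣ y0 - s1) (hR : R = e0 * r') (hRQ : R ∣ Q) (hRK : R ∣ K0)
    (he0 : 0 < e0) (hG1 : Gf Δ s1 = e0) (hr' : (r' : ℤ) = 2 * a * h)
    (hs1 : (r' : ℤ) ∣ s1 + 1 - (2 * a * t0 + b))
    (hQ : 0 < Q) (hDY : 2 * (Y + 1) ≤ D) (hE : Y ^ 2 + Δ.natAbs < 2 ^ E)
    (hpQ : ∀ p : ℕ, p.Prime → p ≤ D → p ^ E ∣ Q) (hpQ' : ∀ p : ℕ, p.Prime → D < p → ¬ p ∣ Q)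
    (N0 : ℕ) (hN0 : SieveBound D N0) (ν : ℕ) (hν : N0 ≤ ν) (K : Finset ℕ)
    (hK : ∀ k ∈ K, k.Prime ∧ k ≡ 1 [MOD Q] ∧
      2 ^ (2 ^ ν) + (Y + e0 + Δ.natAbs + 2 * a.natAbs + b.natAbs + D + 5) < k)
    (N : ℕ) (hN : ∀ k ∈ K, 4 * ((2 * Q + Y : ℕ) : ℤ) ^ 2 * k *
      (2 ^ ((8 * D + 7) * 2 ^ ν)) ^ 2 ≤ (N : ℤ))
    (B : ℕ) (hB : ∀ μ : ℕ, ((2 : ℤ) ^ (2 ^ ν)) ^ μ ≤ ((1 + |Δ|) * (N : ℤ) ^ 2) ^ 2 →
      2 * (D * E) + μ ≤ B) :
    (K.card : ℝ) * (2 : ℝ) ^ ((8 * D + 7) * 2 ^ ν) ≤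
      2 ^ ((2 * D + 1) * ν) *
        (((goodF a b c m ρ t0 h B N).card : ℝ) *
          ((((Y + 1) * (Y + 1) * 2 ^ Om (4 * a) : ℕ) : ℝ) * 2 ^ B)) := by
  classical
  obtain ⟨z, hz⟩ : ∃ z : ℕ, z = 2 ^ (2 ^ ν) := ⟨_, rfl⟩
  simp only [← hz] at hK
  obtain ⟨W, hW⟩ : ∃ W : ℤ, W = 2 ^ ((8 * D + 7) * 2 ^ ν) := ⟨_, rfl⟩
  simp only [← hW] at hN
  obtain ⟨H, hH⟩ : ∃ H : ℤ, H = 2 * Q + Y := ⟨_, rfl⟩
  have hW1 : 1 ≤ W := by rw [hW]; exact one_le_pow₀ (by norm_num)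
  have hH1 : 1 ≤ H := by
    have : (1 : ℤ) ≤ Q := by exact_mod_cast hQ
    have : (0 : ℤ) ≤ Y := Nat.cast_nonneg Y
    linarith
  -- base points
  have hdata : ∀ n : ℕ, n ∈ K → ∃ u : ℤ, 0 ≤ u ∧ u < n ∧ (n : ℤ) ∣ Gf Δ (Q * u) := by
    intro n hn
    obtain ⟨hnp, hnQ, hnz⟩ := hK n hn
    obtain ⟨ρ', hρ'⟩ := hrootQ n hnp hnQ
    have hcop : IsCoprime (n : ℤ) (Q : ℤ) := by
      have h1 : (Q : ℤ) ∣ (n : ℤ) - ((1 : ℕ) : ℤ) := Nat.modEq_iff_dvd.1 hnQ.symm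
      obtain ⟨v, hv⟩ := h1
      push_cast at hv
      exact ⟨1, -v, by linear_combination hv⟩
    obtain ⟨v, w, hvw⟩ := hcop
    have hn0 : (0 : ℤ) < n := by exact_mod_cast hnp.pos
    refine ⟨(w * ρ') % n, Int.emod_nonneg _ hn0.ne', Int.emod_lt_of_pos _ hn0, ?_⟩
    refine (Gf_dvd_of Δ n _ ρ' ?_).2 hρ'
    have h5 := Int.emod_add_mul_ediv (w * ρ') n
    have h6 : (w * ρ') % n = w * ρ' - n * ((w * ρ') / n) := by linarith
    rw [h6]
    refine ⟨-(v * ρ') - Q * ((w * ρ') / n), ?_⟩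
    linear_combination ρ' * hvw
  choose! u hu0 hun huG using hdata
  -- the sifted sets
  set Sk : ℕ → Finset ℕ := fun n => Pool.Agent.Lib.QuadThree.sifted D (badF Δ Y Q n (u n)) ν with hSk
  set G : Finset (Σ _ : ℕ, ℕ) := K.sigma Sk with hG
  have hcardG : (K.card : ℝ) * (2 : ℝ) ^ ((8 * D + 7) * 2 ^ ν) ≤
      2 ^ ((2 * D + 1) * ν) * (G.card : ℝ) := by
    rw [hG, Finset.card_sigma]
    push_cast
    rw [Finset.mul_sum, ← nsmul_eq_mul, ← Finset.sum_const]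
    apply Finset.sum_le_sum
    intro n hn
    obtain ⟨hnp, hnQ, hnz⟩ := hK n hn
    apply hN0 ν hν
    · exact per_badF _ _ _ _ _
    · intro p hp h4 hpz
      rw [← hz] at hpz
      apply nb_badF Δ Y Q n D hDY (u n) p hp
      · intro hd
        have h2 := (Nat.prime_dvd_prime_iff_eq hp hnp).1 hd
        omega
      · exact hpQ' p hp h4
  refine hcardG.trans ?_
  apply mul_le_mul_of_nonneg_left _ (by positivity)
  -- the map
  set U : Finset (Σ _ : ℕ, (ℕ × ℕ) × ℕ) := (goodF a b c m ρ t0 h B N).sigma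
    (fun t => (Finset.range (Y + 1) ×ˢ Finset.range (Y + 1)) ×ˢ
      (4 * a * (a * (t : ℤ) ^ 2 + b * t + c)).natAbs.divisors) with hU
  have hcardU : (U.card : ℝ) ≤ ((goodF a b c m ρ t0 h B N).card : ℝ) *
      ((((Y + 1) * (Y + 1) * 2 ^ Om (4 * a) : ℕ) : ℝ) * 2 ^ B) := by
    rw [hU, Finset.card_sigma]
    push_cast
    rw [← nsmul_eq_mul, ← Finset.sum_const]
    apply Finset.sum_le_sum
    intro t ht
    rw [Finset.card_product, Finset.card_product, Finset.card_range]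
    push_cast
    rw [mul_assoc (((Y : ℝ) + 1) * ((Y : ℝ) + 1))]
    apply mul_le_mul_of_nonneg_left _ (by positivity)
    unfold goodF at ht
    rw [Finset.mem_filter] at ht
    obtain ⟨_, _, hf0, hfB, _⟩ := ht
    have h4a : (4 * a : ℤ) ≠ 0 := by linarith
    have h0 : 4 * a * (a * (t : ℤ) ^ 2 + b * t + c) ≠ 0 := mul_ne_zero h4a hf0.ne'
    have h1 := card_divisors_le _ (Int.natAbs_ne_zero.2 h0)
    have h2 : ArithmeticFunction.cardFactors (4 * a * (a * (t : ℤ) ^ 2 + b * t + c)).natAbs =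
        Om (4 * a) + Om (a * (t : ℤ) ^ 2 + b * t + c) := Om_mul h4a hf0.ne'
    rw [h2] at h1
    have h3 : 2 ^ (Om (4 * a) + Om (a * (t : ℤ) ^ 2 + b * t + c)) ≤ 2 ^ Om (4 * a) * 2 ^ B := by
      rw [pow_add]
      exact Nat.mul_le_mul_left _ (Nat.pow_le_pow_right (by norm_num) hfB)
    exact_mod_cast h1.trans h3
  refine le_trans ?_ hcardU
  have hprops : ∀ p : (Σ _ : ℕ, ℕ), p ∈ G → ∃ (i k t d : ℕ),
      (⟨t, ((i, k), d)⟩ : Σ _ : ℕ, (ℕ × ℕ) × ℕ) ∈ U ∧ 0 < k ∧ ∃ l : ℤ, 0 < l ∧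
          Gf Δ (sA Q p.1 (u p.1) p.2 i) = (p.1 * e0 * k) * l ∧
          2 * a * (t : ℤ) + b = sA Q p.1 (u p.1) p.2 i + l ∧ d = l.natAbs := by
    rintro ⟨n, σ⟩ hp
    rw [hG, Finset.mem_sigma] at hp
    obtain ⟨hn, hσ⟩ := hp
    simp only at hn hσ
    rw [hSk, Pool.Agent.Lib.QuadThree.mem_sifted] at hσ
    obtain ⟨hnp, hnQ, hnz⟩ := hK n hn
    have hNn := hN n hn
    have hHc : ((2 * Q + Y : ℕ) : ℤ) = H := by rw [hH]; push_cast; ring
    rw [hHc] at hNn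
    have hn1 : (1 : ℤ) ≤ n := by exact_mod_cast hnp.one_le
    have habsΔ : |Δ| < n := by
      have h2 : |Δ| = (Δ.natAbs : ℤ) := (Int.natCast_natAbs Δ).symm
      rw [h2]
      have : Δ.natAbs < n := by omega
      exact_mod_cast this
    have habn : 2 * a + |b| + 1 ≤ n := by
      have h2 : |b| = (b.natAbs : ℤ) := (Int.natCast_natAbs b).symm
      have h3 : a = (a.natAbs : ℤ) := (Int.natAbs_of_nonneg ha.le).symm
      rw [h2]
      omega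
    have hbnd : ∀ i : ℕ, i ≤ Y → (n : ℤ) ≤ sA Q n (u n) σ i ∧ sA Q n (u n) σ i ≤ n * W * H := by
      intro i hi
      rw [hH]
      apply sA_bounds Q n Y hQ (u n) (hu0 n hn) (hun n hn) σ i hi W
      have : σ + 1 ≤ 2 ^ ((8 * D + 7) * 2 ^ ν) := hσ.1
      rw [hW]
      exact_mod_cast this
    have hpos : ∀ i : ℕ, i ≤ Y → 0 < Gf Δ (sA Q n (u n) σ i) := by
      intro i hi
      rw [Gf_eq]
      have h1 := (hbnd i hi).1
      have h2 : |Δ| < sA Q n (u n) σ i := by linarith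
      have h3 : sA Q n (u n) σ i ≤ (sA Q n (u n) σ i) ^ 2 := Int.le_self_sq _
      linarith [le_abs_self Δ]
    obtain ⟨i, k, l, hik, hk0, hl0, hl1, hl2, hl3, hl4, hl5, hl6⟩ := single Δ e0 r' K0 Y Q R y0 s1
      m _ hCT hroot hy0 hR hRQ hRK he0 hG1 n hnp hnQ (by omega) (by omega) (u n) (huG n hn) σ hpos
    have hkY : k ≤ Y := by
      have : k ≤ e0 * k := Nat.le_mul_of_pos_left k he0
      omega
    have hiY : i ≤ Y := by omega
    -- the argument `t`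
    obtain ⟨v, hv⟩ : ∃ v : ℤ, sA Q n (u n) σ i + l = 2 * a * (t0 + h * v) + b := by
      obtain ⟨v1, hv1⟩ := hl2
      obtain ⟨v2, hv2⟩ := hs1
      refine ⟨v1 + v2, ?_⟩
      rw [hr'] at hv1 hv2
      linear_combination hv1 + hv2
    obtain ⟨t, ht⟩ : ∃ t : ℤ, t = t0 + h * v := ⟨_, rfl⟩
    rw [← ht] at hv
    have hfG : Gf Δ (sA Q n (u n) σ i + l) = 4 * a * (a * t ^ 2 + b * t + c) := by
      rw [hv, Gf_eq, hΔdef]; ring
    have h4a0 : (0 : ℤ) < 4 * a := by linarith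
    have hf0 : 0 < a * t ^ 2 + b * t + c := by
      rw [hfG] at hl3
      exact pos_of_mul_pos_right hl3 h4a0.le
    -- sizes
    have hs := hbnd i hiY
    have hnl : (n : ℤ) * l ≤ (sA Q n (u n) σ i) ^ 2 + |Δ| := by
      have h2 : (n : ℤ) * l ≤ Gf Δ (sA Q n (u n) σ i) := by
        rw [hl1]
        have h3 : (1 : ℤ) ≤ (e0 : ℤ) * k := by
          have : 1 ≤ e0 * k := Nat.mul_pos he0 hk0
          exact_mod_cast this
        have h4 : (0 : ℤ) ≤ n * l := by positivity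
        calc (n : ℤ) * l ≤ n * l * (e0 * k) := le_mul_of_one_le_right h4 h3
          _ = n * e0 * k * l := by ring
      rw [Gf_eq] at h2
      linarith [neg_abs_le Δ]
    obtain ⟨hNpos, ht1, htN⟩ := size_t n W H (sA Q n (u n) σ i) l a b N t |Δ| hn1 hW1 hH1 hs.1 hs.2
      hl0 hnl habsΔ ha habn hNn hv
    have htt : ((t.toNat : ℕ) : ℤ) = t := Int.toNat_of_nonneg (by linarith)
    -- numbers of prime factors
    have hN1 : (1 : ℤ) ≤ N := by linarith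
    have hOmB : Om (Gf Δ (sA Q n (u n) σ i + l)) ≤ B := by
      have hrough : ∀ j : ℕ, j ≤ Y → ∃ μ : ℕ, Om (Gf Δ (sA Q n (u n) σ j)) ≤ D * E + μ ∧
          (z : ℤ) ^ μ ≤ (1 + |Δ|) * (N : ℤ) ^ 2 := by
        intro j hj
        have hpj := hpos j hj
        obtain ⟨μ, h1, h2⟩ := rough_bound' (Gf Δ (sA Q n (u n) σ j)).natAbs z D E
          (Int.natAbs_ne_zero.2 hpj.ne') (by
            intro p hp hpD hd
            apply small_primes Δ hΔ Y Q n E hE hnQ (u n) σ p hp (hpQ p hp hpD) j hj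
            have : ((p ^ E : ℕ) : ℤ) ∣ Gf Δ (sA Q n (u n) σ j) := Int.natCast_dvd.2 hd
            exact_mod_cast this) (by
            intro p hp hpD hd
            by_contra hcon
            push Not at hcon
            apply hσ.2 p hp hpD (by rw [← hz]; exact hcon.le)
            unfold badF
            refine dvd_trans (Int.natCast_dvd.2 hd) ?_
            exact Finset.dvd_prod_of_mem (fun j => Gf Δ (sA Q n (u n) σ j))
              (Finset.mem_range.2 (by omega)))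
        refine ⟨μ, h1, ?_⟩
        have h3 : ((z ^ μ : ℕ) : ℤ) ≤ ((Gf Δ (sA Q n (u n) σ j)).natAbs : ℤ) := by exact_mod_cast h2
        rw [Int.natAbs_of_nonneg hpj.le] at h3
        push_cast at h3
        refine h3.trans ?_
        rw [Gf_eq]
        have h4 := hbnd j hj
        have h5 : (sA Q n (u n) σ j) ^ 2 ≤ (N : ℤ) ^ 2 :=
          pow_le_pow_left₀ (by linarith [h4.1]) (h4.2.trans hNpos) 2
        have h6 : (1 : ℤ) ≤ (N : ℤ) ^ 2 := one_le_pow₀ hN1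
        have h7 : |Δ| * 1 ≤ |Δ| * (N : ℤ) ^ 2 := mul_le_mul_of_nonneg_left h6 (abs_nonneg Δ)
        linarith [neg_abs_le Δ]
      obtain ⟨μ1, h1, h2⟩ := hrough i hiY
      obtain ⟨μ2, h3, h4⟩ := hrough (i + e0 * k) hik
      have h5 := hB (μ1 + μ2) (by
        have e : ((2 : ℤ) ^ (2 ^ ν)) = (z : ℤ) := by rw [hz]; push_cast; rfl
        rw [e, pow_add, sq]
        exact mul_le_mul h2 h4 (by positivity) (by positivity))
      have h6 : 2 * (D * E) = D * E + D * E := by ring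
      omega
    have hOmf : Om (Gf Δ (sA Q n (u n) σ i + l)) = Om (4 * a) + Om (a * t ^ 2 + b * t + c) := by
      rw [hfG, Om_mul h4a0.ne' hf0.ne']
    refine ⟨i, k, t.toNat, l.natAbs, ?_, hk0, l, hl0, hl1, ?_, rfl⟩
    · rw [hU, Finset.mem_sigma]
      simp only
      constructor
      · unfold goodF
        rw [Finset.mem_filter, Finset.mem_Icc, htt]
        refine ⟨⟨by omega, by omega⟩, ?_, hf0, by omega, ?_⟩
        · apply (Nat.modEq_iff_dvd.2 _).symm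
          rw [htt, ht]
          exact ⟨v, by ring⟩
        · rw [hOmf] at hl5
          push_cast at hl5
          linear_combination hl5
      · rw [Finset.mem_product, Finset.mem_product, Nat.mem_divisors, htt, ← hfG]
        refine ⟨⟨Finset.mem_range.2 (Nat.lt_succ_of_le hiY),
          Finset.mem_range.2 (Nat.lt_succ_of_le hkY)⟩, ?_, Int.natAbs_ne_zero.2 hl3.ne'⟩
        exact Int.natAbs_dvd_natAbs.2 hl4
    · rw [htt]
      exact hv.symm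
  choose! I M T Dv hU1 hM0 L hL0 hL1 hL2 hL3 using hprops
  have : G.card ≤ U.card := by
    apply Finset.card_le_card_of_injOn
      (fun p => (⟨T p, ((I p, M p), Dv p)⟩ : Σ _ : ℕ, (ℕ × ℕ) × ℕ))
    · intro p hp
      exact hU1 p hp
    · rintro ⟨n, σ⟩ hp ⟨n', σ'⟩ hp' heq
      have hp1 := hp
      have hp1' := hp'
      rw [Finset.mem_coe, hG, Finset.mem_sigma] at hp1 hp1'
      have hnK : n ∈ K := hp1.1
      have hnK' : n' ∈ K := hp1'.1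
      have a0 := hL0 ⟨n, σ⟩ hp
      have a1 := hL1 ⟨n, σ⟩ hp
      have a2 := hL2 ⟨n, σ⟩ hp
      have a3 := hL3 ⟨n, σ⟩ hp
      have a4 := hM0 ⟨n, σ⟩ hp
      have b0 := hL0 ⟨n', σ'⟩ hp'
      have b1 := hL1 ⟨n', σ'⟩ hp'
      have b2 := hL2 ⟨n', σ'⟩ hp'
      have b3 := hL3 ⟨n', σ'⟩ hp'
      simp only [Sigma.mk.injEq, heq_eq_eq, Prod.mk.injEq] at heq
      obtain ⟨hT, ⟨hI, hM⟩, hDd⟩ := heq
      rw [← hI, ← hM] at b1
      rw [← hT, ← hI] at b2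
      rw [← hDd] at b3
      generalize T ⟨n, σ⟩ = t at *
      generalize I ⟨n, σ⟩ = i at *
      generalize M ⟨n, σ⟩ = k at *
      generalize Dv ⟨n, σ⟩ = d at *
      generalize L ⟨n, σ⟩ = l at *
      generalize L ⟨n', σ'⟩ = l' at *
      simp only at a0 a1 a2 a3 a4 b0 b1 b2 b3
      have hll : l = l' := by omega
      subst hll
      have hss : sA Q n (u n) σ i = sA Q n' (u n') σ' i := by linarith
      rw [← hss, a1] at b1
      have h4 := mul_right_cancel₀ a0.ne' b1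
      have hk0 : (k : ℤ) ≠ 0 := by exact_mod_cast a4.ne'
      have h5 := mul_right_cancel₀ hk0 h4
      have he0' : (e0 : ℤ) ≠ 0 := by exact_mod_cast he0.ne'
      have h6 := mul_right_cancel₀ he0' h5
      have h7 : n = n' := by exact_mod_cast h6
      subst h7
      rw [sA_inj Q n hQ (hK n hnK).1.pos (u n) σ σ' i hss]
  exact_mod_cast this

theorem fin (hct : StCT) : StFinal := by
  intro a b c ha hsq m hm ρ t0 h hh
  obtain ⟨Δ, hΔdef⟩ : ∃ Δ : ℤ, Δ = b ^ 2 - 4 * a * c := ⟨_, rfl⟩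
  rw [← hΔdef] at hsq
  have hΔ0 : Δ ≠ 0 := by
    rintro rfl
    exact hsq ⟨0, by norm_num⟩
  have hΔpos : 0 < Δ.natAbs := Int.natAbs_pos.2 hΔ0
  obtain ⟨r', hr'⟩ : ∃ r' : ℕ, (r' : ℤ) = 2 * a * h := ⟨(2 * a * h).toNat, Int.toNat_of_nonneg (by positivity)⟩
  have hr'0 : 0 < r' := by
    have : (0 : ℤ) < 2 * a * h := by
      have : (0 : ℤ) < h := by exact_mod_cast hh
      positivity
    rw [← hr'] at this
    exact_mod_cast this
  -- `y0 = s0 - 1`, a natural number with `G y0 > 0`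
  obtain ⟨y0, hy0r, hy0Δ⟩ : ∃ y0 : ℕ, (r' : ℤ) ∣ (y0 : ℤ) + 1 - (2 * a * t0 + b) ∧
      |Δ| < (y0 : ℤ) := by
    obtain ⟨w, hw⟩ : ∃ w : ℤ, w = |2 * a * t0 + b| + |Δ| + 2 := ⟨_, rfl⟩
    have hr1 : (1 : ℤ) ≤ r' := by exact_mod_cast hr'0
    have h1 := neg_abs_le (2 * a * (t0 : ℤ) + b)
    have h2 := abs_nonneg Δ
    have hw0 : 0 ≤ w := by rw [hw]; positivity
    have h3 : w ≤ r' * w := by nlinarith
    refine ⟨(2 * a * t0 + b - 1 + r' * w).toNat, ?_, ?_⟩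
    · rw [Int.toNat_of_nonneg (by linarith)]
      exact ⟨w, by ring⟩
    · rw [Int.toNat_of_nonneg (by linarith)]
      linarith
  have hG1pos : 0 < Gf Δ y0 := by
    rw [Gf_eq]
    have h1 : (0 : ℤ) ≤ |Δ| := abs_nonneg Δ
    have h2 : (y0 : ℤ) ≤ (y0 : ℤ) ^ 2 := by nlinarith
    linarith [le_abs_self Δ]
  obtain ⟨e0, he0⟩ : ∃ e0 : ℕ, (e0 : ℤ) = Gf Δ y0 := ⟨(Gf Δ y0).toNat, Int.toNat_of_nonneg hG1pos.le⟩
  have he0pos : 0 < e0 := by
    rw [← he0] at hG1pos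
    exact_mod_cast hG1pos
  obtain ⟨R, hR⟩ : ∃ R : ℕ, R = e0 * r' := ⟨_, rfl⟩
  have hRpos : 0 < R := by rw [hR]; exact Nat.mul_pos he0pos hr'0
  obtain ⟨K0, hK0⟩ : ∃ K0 : ℕ, K0 = 16 * Δ.natAbs * R := ⟨_, rfl⟩
  have hK0pos : 0 < K0 := by rw [hK0]; positivity
  obtain ⟨Y, hCT⟩ := hct m hm K0 R e0 hK0pos hRpos he0pos y0
    (ρ + ((Om (4 * a) : ℕ) : ZMod m) + 2 + 2 * ((Om (e0 : ℤ) : ℕ) : ZMod m))
  obtain ⟨D, hD⟩ : ∃ D : ℕ, D = 2 * (Y + 1) + R + 16 * Δ.natAbs := ⟨_, rfl⟩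
  obtain ⟨E, hE⟩ : ∃ E : ℕ, E = Y ^ 2 + Δ.natAbs + 1 := ⟨_, rfl⟩
  obtain ⟨Q, hQ⟩ : ∃ Q : ℕ, Q = (Nat.factorial D) ^ E := ⟨_, rfl⟩
  have hE0 : E ≠ 0 := by omega
  have hQpos : 0 < Q := by rw [hQ]; positivity
  have hdvdQ : ∀ x : ℕ, 0 < x → x ≤ D → x ∣ Q := by
    intro x hx hxD
    rw [hQ]
    exact (Nat.dvd_factorial hx hxD).trans (dvd_pow_self _ hE0)
  have h16 : 16 * Δ.natAbs ∣ Q := hdvdQ _ (by omega) (by omega)
  have hroot0 : ∀ p : ℕ, p.Prime → p ≡ 1 [MOD 16 * Δ.natAbs] → ∃ ρ : ℤ, (p : ℤ) ∣ Gf Δ ρ := by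
    intro p hp hmod
    have hΔ4 : (0 : ℤ) ^ 2 - 4 * 1 * (-Δ) ≠ 0 := by
      intro h; apply hΔ0; linarith
    have habs : ((0 : ℤ) ^ 2 - 4 * 1 * (-Δ)).natAbs = 4 * Δ.natAbs := by
      have e : (0 : ℤ) ^ 2 - 4 * 1 * (-Δ) = 4 * Δ := by ring
      rw [e, Int.natAbs_mul]
      rfl
    have hpndvd : ∀ x : ℕ, x ∣ 16 * Δ.natAbs → p ∣ x → False := by
      intro x hx hpx
      have h1 : p ∣ 16 * Δ.natAbs := hpx.trans hx
      have h2 : p ≡ 1 [MOD p] := hmod.of_dvd h1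
      have h3 : p ∣ 1 := by
        have := (Nat.modEq_iff_dvd' hp.one_le).1 h2.symm
        have h4 : p ∣ p := dvd_rfl
        have h5 := Nat.dvd_sub h4 this
        have h6 : p - (p - 1) = 1 := by have := hp.one_le; omega
        rwa [h6] at h5
      exact hp.one_lt.ne' (Nat.dvd_one.1 h3)
    obtain ⟨x, hx⟩ := root_mod_k 1 0 (-Δ) p hp hΔ4 (by
      rw [habs]
      have e : 4 * (4 * Δ.natAbs) = 16 * Δ.natAbs := by ring
      rw [e]; exact hmod) (by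
      intro hd
      have h1 : p ∣ 2 := by
        have : (p : ℤ) ∣ ((2 : ℕ) : ℤ) := by simpa using hd
        exact_mod_cast this
      exact hpndvd 2 (Dvd.dvd.mul_right (by norm_num) _) h1) (by
      intro hd
      have h1 := Int.natCast_dvd.1 hd
      rw [habs] at h1
      exact hpndvd (4 * Δ.natAbs) ⟨4, by ring⟩ h1)
    refine ⟨x, ?_⟩
    have e : qf 1 0 (-Δ) x = Gf Δ x := by rw [Gf_eq]; unfold qf; ring
    rwa [e] at hx
  obtain ⟨N0, hN0⟩ := Pool.Agent.Lib.QuadThree.sieve_asym D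
  have hmain := asym_abs D (2 * (D * E)) Q hQpos (1 + |(Δ : ℝ)|) (4 * ((2 * Q + Y : ℕ) : ℝ) ^ 2)
    ((((Y + 1) * (Y + 1) * 2 ^ Om (4 * a) : ℕ) : ℝ)) (by linarith [abs_nonneg (Δ : ℝ)]) (by
      have h1 : (1 : ℝ) ≤ ((2 * Q + Y : ℕ) : ℝ) := by
        have : 1 ≤ 2 * Q + Y := by omega
        exact_mod_cast this
      nlinarith) (by
      have : 0 < (Y + 1) * (Y + 1) * 2 ^ Om (4 * a) := by positivity
      exact_mod_cast this)
    (Y + e0 + Δ.natAbs + 2 * a.natAbs + b.natAbs + D + 5)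
    (fun B N => (goodF a b c m ρ t0 h B N).card)
    ⟨N0, by
      intro ν hν K hK N hN B hB
      apply count a b c ha Δ hΔdef hsq m ρ t0 h e0 r' K0 Y Q R y0 D E y0 hCT
        (fun p hp hmod => hroot0 p hp (hmod.of_dvd ⟨R, by rw [hK0]⟩))
        (fun p hp hmod => hroot0 p hp (hmod.of_dvd h16))
        (by rw [sub_self]; exact dvd_zero _) hR (hdvdQ R hRpos (by omega))
        ⟨16 * Δ.natAbs, by rw [hK0]; ring⟩ he0pos he0.symm hr' hy0r hQpos (by omega) (by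
          have : E < 2 ^ E := Nat.lt_two_pow_self
          omega)
        (fun p hp hpD => by
          rw [hQ]
          exact pow_dvd_pow_of_dvd (Nat.dvd_factorial hp.pos hpD) E)
        (fun p hp hpD hd => by
          rw [hQ] at hd
          have := hp.dvd_of_dvd_pow hd
          rw [hp.dvd_factorial] at this
          omega) N0 hN0 ν hν K hK N (fun k hk => by
          have := hN k hk
          exact_mod_cast this) B (fun μ hμ => by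
          apply hB μ
          have h1 : ((((2 : ℤ) ^ (2 ^ ν)) ^ μ : ℤ) : ℝ) ≤ ((((1 + |Δ|) * (N : ℤ) ^ 2) ^ 2 : ℤ) : ℝ) := by
            exact_mod_cast hμ
          push_cast at h1
          exact h1)⟩
  obtain ⟨C, hC⟩ := hmain
  refine ⟨C, ?_⟩
  intro ε hε hε1
  obtain ⟨N1, hN1⟩ := hC ε hε hε1
  refine ⟨N1, ?_⟩
  intro N hN
  refine (hN1 N hN).trans ?_
  have hsub : goodF a b c m ρ t0 h ⌊(C : ℝ) / ε⌋₊ N ⊆ ((Finset.Icc 1 N).filter
      (fun t : ℕ => t ≡ t0 [MOD h] ∧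
        0 < a * (t : ℤ) ^ 2 + b * t + c ∧
        (ArithmeticFunction.cardFactors (a * (t : ℤ) ^ 2 + b * t + c).natAbs : ℝ) ≤ C / ε ∧
        ((ArithmeticFunction.cardFactors (a * (t : ℤ) ^ 2 + b * t + c).natAbs : ℕ) : ZMod m)
          = ρ)) := by
    intro t ht
    unfold goodF at ht
    rw [Finset.mem_filter] at ht ⊢
    obtain ⟨h1, h2, h3, h4, h5⟩ := ht
    refine ⟨h1, h2, h3, ?_, h5⟩
    have h6 : (0 : ℝ) ≤ (C : ℝ) / ε := by positivity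
    exact (Nat.le_floor_iff h6).1 h4
  exact_mod_cast Finset.card_le_card hsub

end Pool.Agent.MP_a17b09_nt.OM
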