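import Pool.Agent.Lib.MP_a17b09_nt.OM.Stmts
import Pool.Agent.Lib.MP_325d88_nt.PNTAP

/-!
# Decoupling of a residue class and a window at a good scale
-/

set_option autoImplicit false

open Filter Topology Finset

namespace Pool.Agent.MP_a17b09_nt.OM

namespace Dec

/-- the mean of a function of a finite-valued function -/
theorem E_comp (M : Mean) {α : Type} [Fintype α] [DecidableEq α] (X : ℤ → α) (g : α → ℝ) :
    M.E (fun x => g (X x)) = ∑ a, pr M X a * g a := by
  have h1 : (fun x => g (X x)) = fun x => ∑ a, g a * (if X x = a then (1 : ℝ) else 0) := by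
    funext x
    rw [Finset.sum_eq_single (X x)]
    · simp
    · intro b _ hb
      rw [if_neg (Ne.symm hb), mul_zero]
    · intro h
      exact absurd (mem_univ _) h
  have hb : ∀ a : α, Bdd (fun x => if X x = a then (1 : ℝ) else 0) := fun a =>
    Bdd.of_finite X (fun b => if b = a then (1 : ℝ) else 0)
  rw [h1, M.sum _ _ fun a _ => (hb a).smul _]
  refine sum_congr rfl fun a _ => ?_
  rw [M.smul _ _ (hb a), mul_comm]
  rfl

theorem bdd_joint {α : Type} [Fintype α] [DecidableEq α] (X : ℤ → α) (q : ℕ) (a : α) (i : ℕ) :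
    Bdd (fun x => if X x = a ∧ (q : ℤ) ∣ x - (i : ℤ) then (1 : ℝ) else 0) := by
  classical
  exact Bdd.ite _ (Bdd.const 1) (Bdd.const 0)

/-- the mean of a function of a finite-valued function and the residue modulo `q` -/
theorem E_joint (M : Mean) {α : Type} [Fintype α] [DecidableEq α] (X : ℤ → α) (q : ℕ)
    (g : α → ℕ → ℝ) :
    M.E (fun x => ∑ y ∈ range q, (if (q : ℤ) ∣ x - (y : ℤ) then g (X x) y else 0)) =
      ∑ a, ∑ y ∈ range q, prq M X q a y * g a y := by
  have h1 : (fun x => ∑ y ∈ range q, (if (q : ℤ) ∣ x - (y : ℤ) then g (X x) y else 0)) =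
      fun x => ∑ a, ∑ y ∈ range q,
        g a y * (if X x = a ∧ (q : ℤ) ∣ x - (y : ℤ) then (1 : ℝ) else 0) := by
    funext x
    rw [Finset.sum_comm]
    refine sum_congr rfl fun y _ => ?_
    rw [Finset.sum_eq_single (X x)]
    · by_cases h : (q : ℤ) ∣ x - (y : ℤ)
      · simp [h]
      · simp [h]
    · intro b _ hb
      rw [if_neg (fun h => hb h.1.symm), mul_zero]
    · intro h
      exact absurd (mem_univ _) h
  rw [h1, M.sum _ _ fun a _ => Bdd.sum _ _ fun y _ => (bdd_joint X q a y).smul _]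
  refine sum_congr rfl fun a _ => ?_
  rw [M.sum _ _ fun y _ => (bdd_joint X q a y).smul _]
  refine sum_congr rfl fun y _ => ?_
  rw [M.smul _ _ (bdd_joint X q a y), mul_comm]
  rfl

/-- exactly one residue -/
theorem exists_unique_res (q : ℕ) (hq : 0 < q) (c : ℤ) :
    ∃ i ∈ range q, ∀ j ∈ range q, (q : ℤ) ∣ c + (j : ℤ) ↔ j = i := by
  have hq0 : (q : ℤ) ≠ 0 := by exact_mod_cast hq.ne'
  have h4 := Int.emod_nonneg (-c) hq0
  have h3 := Int.emod_lt_of_pos (-c) (by exact_mod_cast hq : (0 : ℤ) < q)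
  refine ⟨((-c) % q).toNat, ?_, ?_⟩
  · rw [mem_range]; omega
  · intro j hj
    have hjr := mem_range.1 hj
    have h5 : (q : ℤ) ∣ c + (-c) % q := by
      have h6 : (-c) % q = -c - q * ((-c) / q) := by
        have := Int.emod_add_mul_ediv (-c) q
        linarith
      rw [h6]
      exact ⟨-((-c) / q), by ring⟩
    constructor
    · intro h
      have h7 : (q : ℤ) ∣ (j : ℤ) - (-c) % q := by
        have := dvd_sub h h5
        have e : c + (j : ℤ) - (c + (-c) % q) = (j : ℤ) - (-c) % q := by ring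
        rwa [e] at this
      have h8 : (j : ℤ) - (-c) % q = 0 := by
        apply Int.eq_zero_of_abs_lt_dvd h7
        rw [abs_lt]
        constructor <;> omega
      omega
    · intro h
      rw [h, Int.toNat_of_nonneg h4]
      exact h5

/-- sum over the residues `i` with `q ∣ c + i` -/
theorem sum_res (q : ℕ) (hq : 0 < q) (c : ℤ) (f : ℕ → ℝ) :
    ∃ i ∈ range q, ∑ j ∈ range q, (if (q : ℤ) ∣ c + (j : ℤ) then f j else 0) = f i := by
  obtain ⟨i, hi, h⟩ := exists_unique_res q hq c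
  refine ⟨i, hi, ?_⟩
  rw [Finset.sum_eq_single_of_mem i hi]
  · rw [if_pos ((h i hi).2 rfl)]
  · intro j hj hji
    rw [if_neg (fun hd => hji ((h j hj).1 hd))]

theorem sum_res_const (q : ℕ) (hq : 0 < q) (c : ℤ) (f : ℝ) :
    ∑ j ∈ range q, (if (q : ℤ) ∣ c + (j : ℤ) then f else 0) = f := by
  obtain ⟨i, _, h⟩ := sum_res q hq c (fun _ => f)
  exact h

/-- the pair of letters in a window -/
def pairW {A : Type} (Ψ : A → A → ℝ) (W s i : ℕ) (w : Fin W → A) : ℝ :=
  if h : i + s < W then Ψ (w ⟨i, by omega⟩) (w ⟨i + s, h⟩) else 0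

theorem pairW_win {A : Type} (φ : ℤ → A) (Ψ : A → A → ℝ) (W s i : ℕ) (h : i + s < W) (x : ℤ) :
    pairW Ψ W s i (win φ W x) = Ψ (φ (x + i)) (φ (x + i + (s : ℕ))) := by
  unfold pairW win
  rw [dif_pos h]
  simp only
  congr 2
  push_cast
  ring

theorem pairW_mem {A : Type} (Ψ : A → A → ℝ) (hΨ : ∀ a b, 0 ≤ Ψ a b ∧ Ψ a b ≤ 1) (W s i : ℕ)
    (w : Fin W → A) : 0 ≤ pairW Ψ W s i w ∧ pairW Ψ W s i w ≤ 1 := by
  unfold pairW
  split_ifs
  · exact hΨ _ _
  · norm_num

/-- decoupling for one prime -/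
theorem step1 (h2 : StPinsker) (M : Mean) (A : Type) [Fintype A] [DecidableEq A] (φ : ℤ → A)
    (q W s : ℕ) (hq : 0 < q) (hW : q + s ≤ W) (r : ℤ) (Ψ : A → A → ℝ)
    (hΨ : ∀ a b, 0 ≤ Ψ a b ∧ Ψ a b ≤ 1) :
    |M.E (fun x => if (q : ℤ) ∣ x - r then (q : ℝ) * Ψ (φ x) (φ (x + (s : ℤ))) else 0) -
      M.E (fun x => Ψ (φ x) (φ (x + (s : ℤ))))| ≤ 2 * √(Iq M (win φ W) q) := by
  classical
  have hq0 : (q : ℝ) ≠ 0 := by exact_mod_cast hq.ne'
  set g : (Fin W → A) → ℕ → ℝ := fun w y =>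
    ∑ i ∈ range q, (if (q : ℤ) ∣ (y : ℤ) - r + (i : ℤ) then pairW Ψ W s i w else 0) with hg
  have hg01 : ∀ w y, 0 ≤ g w y ∧ g w y ≤ 1 := by
    intro w y
    obtain ⟨i, _, h⟩ := sum_res q hq ((y : ℤ) - r) (fun i => pairW Ψ W s i w)
    rw [hg]
    simp only
    rw [h]
    exact pairW_mem Ψ hΨ W s i w
  have hΨb : Bdd (fun x => Ψ (φ x) (φ (x + (s : ℤ)))) :=
    ⟨1, fun x => by rw [abs_of_nonneg (hΨ _ _).1]; exact (hΨ _ _).2⟩
  -- first mean
  have hF : M.E (fun x => if (q : ℤ) ∣ x - r then (q : ℝ) * Ψ (φ x) (φ (x + (s : ℤ))) else 0) =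
      ∑ w, ∑ y ∈ range q, prq M (win φ W) q w y * g w y := by
    rw [← E_joint M (win φ W) q g]
    have hb : Bdd (fun x => if (q : ℤ) ∣ x - r then (q : ℝ) * Ψ (φ x) (φ (x + (s : ℤ))) else 0) :=
      Bdd.ite _ (hΨb.smul q) (Bdd.const 0)
    have h3 : ∀ i ∈ range q,
        M.E (fun x => if (q : ℤ) ∣ x - r then (q : ℝ) * Ψ (φ x) (φ (x + (s : ℤ))) else 0) =
        M.E (fun x => if (q : ℤ) ∣ (x + (i : ℤ)) - r then
          (q : ℝ) * Ψ (φ (x + (i : ℤ))) (φ (x + (i : ℤ) + (s : ℤ))) else 0) := by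
      intro i _
      exact (M.shift _ hb (i : ℤ)).symm
    have h4 : (q : ℝ) *
        M.E (fun x => if (q : ℤ) ∣ x - r then (q : ℝ) * Ψ (φ x) (φ (x + (s : ℤ))) else 0) =
        (q : ℝ) * M.E (fun x => ∑ y ∈ range q,
          (if (q : ℤ) ∣ x - (y : ℤ) then g (win φ W x) y else 0)) := by
      have h5 : (q : ℝ) *
          M.E (fun x => if (q : ℤ) ∣ x - r then (q : ℝ) * Ψ (φ x) (φ (x + (s : ℤ))) else 0) =
          ∑ i ∈ range q,
          M.E (fun x => if (q : ℤ) ∣ x - r then (q : ℝ) * Ψ (φ x) (φ (x + (s : ℤ))) else 0) := by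
        rw [sum_const, card_range, nsmul_eq_mul]
      rw [h5, sum_congr rfl h3, ← M.sum _ _ fun i _ => ?_, ← M.smul]
      · congr 1
        funext x
        -- pointwise identity
        obtain ⟨y0, hy0, hy⟩ := exists_unique_res q hq (-x)
        have hdy : (q : ℤ) ∣ -x + (y0 : ℤ) := (hy y0 hy0).2 rfl
        have h6 : ∑ y ∈ range q, (if (q : ℤ) ∣ x - (y : ℤ) then g (win φ W x) y else 0) =
            g (win φ W x) y0 := by
          rw [Finset.sum_eq_single_of_mem y0 hy0]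
          · rw [if_pos]
            have := (dvd_neg (a := (q : ℤ)) (b := -x + (y0 : ℤ))).2 hdy
            have e : -(-x + (y0 : ℤ)) = x - y0 := by ring
            rwa [e] at this
          · intro j hj hji
            rw [if_neg]
            intro hd
            apply hji
            apply (hy j hj).1
            have := (dvd_neg (a := (q : ℤ)) (b := x - (j : ℤ))).2 hd
            have e : -(x - (j : ℤ)) = -x + j := by ring
            rwa [e] at this
        rw [h6, hg]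
        simp only
        rw [mul_sum]
        refine sum_congr rfl fun i hi => ?_
        have hiq := mem_range.1 hi
        have h7 : ((q : ℤ) ∣ x + (i : ℤ) - r) ↔ ((q : ℤ) ∣ (y0 : ℤ) - r + (i : ℤ)) := by
          have e : (y0 : ℤ) - r + (i : ℤ) = (x + (i : ℤ) - r) + (-x + (y0 : ℤ)) := by ring
          rw [e]
          exact (dvd_add_left hdy).symm
        rw [pairW_win φ Ψ W s i (by omega) x]
        by_cases h8 : (q : ℤ) ∣ x + (i : ℤ) - r
        · rw [if_pos h8, if_pos (h7.1 h8)]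
        · rw [if_neg h8, if_neg (fun h => h8 (h7.2 h)), mul_zero]
      · exact Bdd.sum _ _ fun y _ => Bdd.ite _ (Bdd.of_finite (win φ W) (fun w => g w y))
          (Bdd.const 0)
      · exact (Bdd.ite (fun x : ℤ => (q : ℤ) ∣ x - r) (hΨb.smul q) (Bdd.const 0)).comp_add (i : ℤ)
    exact mul_left_cancel₀ hq0 h4
  -- second mean
  have hG : M.E (fun x => Ψ (φ x) (φ (x + (s : ℤ)))) =
      ∑ w, ∑ y ∈ range q, pr M (win φ W) w / q * g w y := by
    have h3 : ∀ i ∈ range q, M.E (fun x => Ψ (φ x) (φ (x + (s : ℤ)))) =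
        ∑ w, pr M (win φ W) w * pairW Ψ W s i w := by
      intro i hi
      have hiq := mem_range.1 hi
      rw [← E_comp M (win φ W), ← M.shift _ hΨb (i : ℤ)]
      congr 1
      funext x
      rw [pairW_win φ Ψ W s i (by omega) x]
    have h4 : (q : ℝ) * M.E (fun x => Ψ (φ x) (φ (x + (s : ℤ)))) =
        ∑ i ∈ range q, ∑ w, pr M (win φ W) w * pairW Ψ W s i w := by
      rw [← sum_congr rfl h3, sum_const, card_range, nsmul_eq_mul]
    have h5 : ∀ w, ∑ y ∈ range q, pr M (win φ W) w / q * g w y =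
        1 / q * ∑ i ∈ range q, pr M (win φ W) w * pairW Ψ W s i w := by
      intro w
      rw [← mul_sum, ← mul_sum, hg]
      simp only
      rw [Finset.sum_comm]
      have h6 : ∀ i ∈ range q, ∑ y ∈ range q,
          (if (q : ℤ) ∣ (y : ℤ) - r + (i : ℤ) then pairW Ψ W s i w else 0) =
          pairW Ψ W s i w := by
        intro i _
        rw [← sum_res_const q hq (-r + (i : ℤ)) (pairW Ψ W s i w)]
        refine sum_congr rfl fun y _ => ?_
        rw [show (y : ℤ) - r + (i : ℤ) = -r + (i : ℤ) + (y : ℤ) by ring]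
        rw [sum_res_const q hq (-r + (i : ℤ)) (pairW Ψ W s i w)]
      rw [sum_congr rfl h6]
      ring
    rw [sum_congr rfl fun w _ => h5 w, ← mul_sum, Finset.sum_comm, ← h4]
    field_simp
  rw [hF, hG, ← sum_sub_distrib]
  have h3 : ∀ w, ∑ y ∈ range q, prq M (win φ W) q w y * g w y -
      ∑ y ∈ range q, pr M (win φ W) w / q * g w y =
      ∑ y ∈ range q, (prq M (win φ W) q w y - pr M (win φ W) w / q) * g w y := by
    intro w
    rw [← sum_sub_distrib]
    exact sum_congr rfl fun y _ => by ring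
  rw [sum_congr rfl fun w _ => h3 w]
  exact (h2 M (Fin W → A) (win φ W) q hq).2 g hg01

/-- normalised entropy of the window of length `2 ^ i` -/
noncomputable def hh (M : Mean) {A : Type} [Fintype A] [DecidableEq A] (φ : ℤ → A) (i : ℕ) : ℝ :=
  Hn M (win φ (2 ^ i)) / 2 ^ i

theorem pr_nonneg (M : Mean) {α : Type} [DecidableEq α] (X : ℤ → α) (a : α) : 0 ≤ pr M X a := by
  unfold pr
  apply M.nonneg
  · exact Bdd.ite _ (Bdd.const 1) (Bdd.const 0)
  · intro x
    show 0 ≤ (if X x = a then (1 : ℝ) else 0)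
    split_ifs <;> norm_num

theorem pr_le_one (M : Mean) {α : Type} [DecidableEq α] (X : ℤ → α) (a : α) : pr M X a ≤ 1 := by
  unfold pr
  apply M.le_const
  · exact Bdd.ite _ (Bdd.const 1) (Bdd.const 0)
  · intro x
    show (if X x = a then (1 : ℝ) else 0) ≤ 1
    split_ifs <;> norm_num

theorem Hn_nonneg (M : Mean) {α : Type} [Fintype α] [DecidableEq α] (X : ℤ → α) :
    0 ≤ Hn M X := by
  unfold Hn
  exact sum_nonneg fun a _ => Real.negMulLog_nonneg (pr_nonneg M X a) (pr_le_one M X a)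

theorem hh_nonneg (M : Mean) {A : Type} [Fintype A] [DecidableEq A] (φ : ℤ → A) (i : ℕ) :
    0 ≤ hh M φ i := div_nonneg (Hn_nonneg M _) (by positivity)

theorem hh_step (h1 : StED) (M : Mean) {A : Type} [Fintype A] [DecidableEq A] (φ : ℤ → A)
    (Q : Finset ℕ) (hQ : ∀ q ∈ Q, q.Prime) (n t : ℕ) :
    hh M φ (n + t) ≤ hh M φ n - (∑ q ∈ Q, Iq M (win φ (2 ^ n)) q) / 2 ^ n +
      (∑ q ∈ Q, Real.log q) / 2 ^ (n + t) := by
  have h := h1 M A φ (2 ^ n) (2 ^ t) Q hQ
  have e : 2 ^ t * 2 ^ n = 2 ^ (n + t) := by rw [pow_add, mul_comm]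
  rw [e] at h
  unfold hh
  have h3 : (0 : ℝ) < 2 ^ (n + t) := by positivity
  rw [div_le_iff₀ h3]
  refine h.trans (le_of_eq ?_)
  have h4 : (2 : ℝ) ^ (n + t) = 2 ^ n * 2 ^ t := pow_add _ _ _
  have h5 : (2 : ℝ) ^ n ≠ 0 := by positivity
  have h6 : (2 : ℝ) ^ t ≠ 0 := by positivity
  rw [h4]
  push_cast
  field_simp

theorem hh_anti (h1 : StED) (M : Mean) {A : Type} [Fintype A] [DecidableEq A] (φ : ℤ → A) :
    Antitone (hh M φ) := by
  apply antitone_nat_of_succ_le
  intro n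
  have h := hh_step h1 M φ ∅ (by simp) n 1
  simpa using h

/-- Chebyshev -/
theorem sum_log_le (K e : ℕ) : ∑ q ∈ QQ K e, Real.log q ≤ 3 * 2 ^ e := by
  have h1 : ∏ q ∈ QQ K e, q ≤ primorial (2 ^ (e + 1)) := by
    unfold primorial
    apply Finset.prod_le_prod_of_subset_of_one_le'
    · intro q hq
      rw [mem_QQ] at hq
      rw [mem_filter, mem_range]
      exact ⟨Nat.lt_succ_of_le hq.1.2, hq.2.1⟩
    · intro q hq _
      rw [mem_filter] at hq
      exact hq.2.one_lt.le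
  have h2 := h1.trans (primorial_le_four_pow _)
  have h3 : ∑ q ∈ QQ K e, Real.log q = Real.log ((∏ q ∈ QQ K e, q : ℕ) : ℝ) := by
    push_cast
    rw [Real.log_prod]
    intro q hq
    rw [mem_QQ] at hq
    exact_mod_cast hq.2.1.ne_zero
  rw [h3]
  have h4 : (0 : ℝ) < ((∏ q ∈ QQ K e, q : ℕ) : ℝ) := by
    have : 0 < ∏ q ∈ QQ K e, q := Finset.prod_pos fun q hq => by
      rw [mem_QQ] at hq
      exact hq.2.1.pos
    exact_mod_cast this
  have h5 : ((∏ q ∈ QQ K e, q : ℕ) : ℝ) ≤ 4 ^ (2 ^ (e + 1)) := by exact_mod_cast h2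
  have h6 := Real.log_le_log h4 h5
  refine h6.trans ?_
  rw [Real.log_pow, show (4 : ℝ) = 2 ^ 2 by norm_num, Real.log_pow]
  have h7 := Real.log_two_lt_d9
  have h8 : (0 : ℝ) < 2 ^ e := by positivity
  push_cast
  rw [pow_succ]
  nlinarith

theorem card_QQ (K e : ℕ) : ((QQ K e).card : ℝ) =
    (((range (2 ^ (e + 1) + 1)).filter (fun p => p.Prime ∧ p ≡ 1 [MOD K])).card : ℝ) -
    (((range (2 ^ e + 1)).filter (fun p => p.Prime ∧ p ≡ 1 [MOD K])).card : ℝ) := by
  have h1 : (range (2 ^ (e + 1) + 1)).filter (fun p => p.Prime ∧ p ≡ 1 [MOD K]) =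
      (range (2 ^ e + 1)).filter (fun p => p.Prime ∧ p ≡ 1 [MOD K]) ∪ QQ K e := by
    ext p
    rw [mem_union, mem_QQ, mem_filter, mem_filter, mem_range, mem_range]
    have h2 : 2 ^ e ≤ 2 ^ (e + 1) := Nat.pow_le_pow_right (by norm_num) (by omega)
    constructor
    · rintro ⟨h3, h4⟩
      by_cases h5 : p < 2 ^ e + 1
      · exact Or.inl ⟨h5, h4⟩
      · exact Or.inr ⟨⟨by omega, by omega⟩, h4⟩
    · rintro (⟨h3, h4⟩ | ⟨h3, h4⟩)
      · exact ⟨by omega, h4⟩
      · exact ⟨by omega, h4⟩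
  rw [h1, card_union_of_disjoint]
  · push_cast
    ring
  · rw [disjoint_left]
    intro p hp hp'
    rw [mem_filter, mem_range] at hp
    rw [mem_QQ] at hp'
    omega

/-- lower bound for the number of primes -/
theorem card_QQ_lower (K : ℕ) (hK : 0 < K) : ∃ (c : ℝ) (e₁ : ℕ), 0 < c ∧ 1 ≤ e₁ ∧
    ∀ e : ℕ, e₁ ≤ e → c * 2 ^ e / e ≤ ((QQ K e).card : ℝ) := by
  have hp := Pool.Agent.MP_325d88_nt.pnt_ap K hK 1 (Nat.coprime_one_left K)
  have htot : (0 : ℝ) < Nat.totient K := by exact_mod_cast Nat.totient_pos.2 hK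
  set κ : ℝ := 1 / (Nat.totient K : ℝ) with hκ
  have hκ0 : 0 < κ := by positivity
  have hpow : Tendsto (fun e : ℕ => 2 ^ e) atTop atTop :=
    tendsto_pow_atTop_atTop_of_one_lt (by norm_num)
  have hp2 := hp.comp hpow
  have hlo := hp2.eventually_const_le (show 9 / 10 * κ < κ by linarith)
  have hhi := hp2.eventually_le_const (show κ < 11 / 10 * κ by linarith)
  rw [eventually_atTop] at hlo hhi
  obtain ⟨a₁, ha₁⟩ := hlo
  obtain ⟨a₂, ha₂⟩ := hhi
  refine ⟨κ / 2, max (max a₁ a₂) 10, by positivity, by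
    have := le_max_right (max a₁ a₂) 10
    omega, ?_⟩
  intro e he
  have he1 : a₁ ≤ e := (le_max_left _ _).trans ((le_max_left _ _).trans he)
  have he2 : a₂ ≤ e := (le_max_right _ _).trans ((le_max_left _ _).trans he)
  have he3 : 10 ≤ e := (le_max_right _ _).trans he
  have h1 := ha₁ (e + 1) (by omega)
  have h2 := ha₂ e he2
  simp only [Function.comp] at h1 h2
  rw [card_QQ]
  set P₁ : ℝ := (((range (2 ^ (e + 1) + 1)).filter
    (fun p => p.Prime ∧ p ≡ 1 [MOD K])).card : ℝ) with hP₁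
  set P₀ : ℝ := (((range (2 ^ e + 1)).filter
    (fun p => p.Prime ∧ p ≡ 1 [MOD K])).card : ℝ) with hP₀
  have hl2 : 0 < Real.log 2 := Real.log_pos (by norm_num)
  have hl3 : Real.log 2 < 1 := by
    have := Real.log_two_lt_d9
    linarith
  have he0 : (10 : ℝ) ≤ e := by exact_mod_cast he3
  have hE : (0 : ℝ) < 2 ^ e := by positivity
  push_cast at h1 h2
  rw [Real.log_pow] at h1 h2
  push_cast at h1 h2
  rw [le_div_iff₀ (by positivity)] at h1
  rw [div_le_iff₀ (by positivity)] at h2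
  -- h1 : 9/10 κ 2^(e+1) ≤ P₁ ((e+1) log 2);  h2 : P₀ (e log 2) ≤ 11/10 κ 2^e
  rw [div_le_iff₀ (by linarith)]
  have h3 : κ / 2 * 2 ^ e ≤ κ / 2 * 2 ^ e / Real.log 2 := by
    rw [le_div_iff₀ hl2]
    have : 0 < κ / 2 * 2 ^ e := by positivity
    nlinarith
  have h4 : 18 / 11 * κ * 2 ^ e / Real.log 2 ≤ P₁ * e := by
    rw [div_le_iff₀ hl2]
    have h5 : (e : ℝ) + 1 ≤ 11 / 10 * e := by linarith
    have h6 : 0 ≤ P₁ := by positivity
    have h7 : P₁ * ((e + 1) * Real.log 2) ≤ P₁ * (11 / 10 * e * Real.log 2) := by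
      apply mul_le_mul_of_nonneg_left _ h6
      exact mul_le_mul_of_nonneg_right h5 hl2.le
    have h8 : 9 / 10 * κ * 2 ^ (e + 1) = 9 / 5 * κ * 2 ^ e := by ring
    rw [h8] at h1
    nlinarith
  have h5 : P₀ * e ≤ 11 / 10 * κ * 2 ^ e / Real.log 2 := by
    rw [le_div_iff₀ hl2]
    linarith
  have h6 : κ / 2 * 2 ^ e / Real.log 2 ≤ 18 / 11 * κ * 2 ^ e / Real.log 2 -
      11 / 10 * κ * 2 ^ e / Real.log 2 := by
    rw [← sub_div]
    apply div_le_div_of_nonneg_right _ hl2.le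
    have : 0 < κ * 2 ^ e := by positivity
    nlinarith
  have h7 : (P₁ - P₀) * e = P₁ * e - P₀ * e := by ring
  rw [h7]
  linarith

/-- the harmonic series diverges -/
theorem harmonic_contra (g : ℕ → ℝ) (hg : ∀ n, 0 ≤ g n) (c : ℝ) (hc : 0 < c) (s : ℕ) (hs : 1 ≤ s)
    (h : ∀ i, g (i + 1) ≤ g i - c / ((i : ℝ) + s)) : False := by
  have h1 : ∀ n : ℕ, g n ≤ g 0 - c / s * ∑ i ∈ range n, 1 / ((i : ℝ) + 1) := by
    intro n
    induction n with
    | zero => simp
    | succ n ih =>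
      rw [sum_range_succ]
      have h2 := h n
      have hs0 : (1 : ℝ) ≤ s := by exact_mod_cast hs
      have h3 : c / s * (1 / ((n : ℝ) + 1)) ≤ c / ((n : ℝ) + s) := by
        have hn0 : (0 : ℝ) ≤ n := by positivity
        rw [div_mul_div_comm, mul_one]
        apply div_le_div_of_nonneg_left hc.le (by positivity)
        nlinarith
      rw [mul_add]
      linarith
  have h2 := Real.tendsto_sum_range_one_div_nat_succ_atTop
  have hs0 : (0 : ℝ) < s := by exact_mod_cast hs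
  obtain ⟨n, hn⟩ := (h2.eventually_ge_atTop ((g 0 + 1) / (c / s))).exists
  have h3 := h1 n
  have h4 := hg n
  rw [div_le_iff₀ (by positivity)] at hn
  linarith

/-- the choice of a good scale -/
theorem good_scale (h1 : StED) (M : Mean) (A : Type) [Fintype A] [DecidableEq A]
    (φ : ℤ → A) (K : ℕ) (hK : 0 < K) (a : ℕ) (τ : ℝ) (hτ : 0 < τ) (E0 : ℕ) :
    ∃ e : ℕ, E0 ≤ e ∧ ∑ q ∈ QQ K e, Iq M (win φ (2 ^ (e + a))) q ≤ τ * ((QQ K e).card : ℝ) := by
  by_contra hcon
  push Not at hcon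
  obtain ⟨c, e₁, hc, he₁, hcard⟩ := card_QQ_lower K hK
  set c1 : ℝ := τ * c / 2 ^ a with hc1
  have hc10 : 0 < c1 := by positivity
  -- one step
  have hstep : ∀ e t : ℕ, E0 ≤ e → e₁ ≤ e →
      hh M φ (e + t + a) ≤ hh M φ (e + a) - c1 / e + 3 / 2 ^ t := by
    intro e t hE he
    have h3 := hh_step h1 M φ (QQ K e) (fun q hq => (mem_QQ.1 hq).2.1) (e + a) t
    have h4 := hcon e hE
    have h5 := hcard e he
    have h6 := sum_log_le K e
    have he0 : (0 : ℝ) < e := by exact_mod_cast (by omega : 0 < e)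
    have e1 : e + t + a = e + a + t := by omega
    rw [e1]
    refine h3.trans ?_
    have h7 : c1 / e ≤ (∑ q ∈ QQ K e, Iq M (win φ (2 ^ (e + a))) q) / 2 ^ (e + a) := by
      rw [le_div_iff₀ (by positivity)]
      calc c1 / e * 2 ^ (e + a) = τ * (c * 2 ^ e / e) := by
            rw [hc1, pow_add]
            field_simp
        _ ≤ τ * ((QQ K e).card : ℝ) := mul_le_mul_of_nonneg_left h5 hτ.le
        _ ≤ _ := h4.le
    have h8 : (∑ q ∈ QQ K e, Real.log q) / 2 ^ (e + a + t) ≤ 3 / 2 ^ t := by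
      rw [div_le_div_iff₀ (by positivity) (by positivity)]
      calc (∑ q ∈ QQ K e, Real.log q) * 2 ^ t ≤ 3 * 2 ^ e * 2 ^ t :=
            mul_le_mul_of_nonneg_right h6 (by positivity)
        _ ≤ 3 * 2 ^ e * 2 ^ t * 2 ^ a := by
            have : (1 : ℝ) ≤ 2 ^ a := one_le_pow₀ (by norm_num)
            have h9 : (0 : ℝ) < 3 * 2 ^ e * 2 ^ t := by positivity
            nlinarith
        _ = 3 * 2 ^ (e + a + t) := by rw [pow_add, pow_add]; ring
    linarith
  -- choice of `b`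
  obtain ⟨b, hb⟩ : ∃ b : ℕ, 12 / c1 ≤ 2 ^ b := by
    obtain ⟨b, hb⟩ := pow_unbounded_of_one_lt (12 / c1) (show (1 : ℝ) < 2 by norm_num)
    exact ⟨b, hb.le⟩
  set j₁ : ℕ := b + E0 + e₁ + 4 with hj₁
  have hanti := hh_anti h1 M φ
  -- block
  have hblock : ∀ j : ℕ, j₁ ≤ j →
      hh M φ (2 ^ (j + 1) + a) ≤ hh M φ (2 ^ j + a) - c1 / 8 / ((j : ℝ) + b) := by
    intro j hj
    have hjb : b ≤ j := by omega
    have hj4 : 4 ≤ j := by omega
    have hlt : j < 2 ^ j := Nat.lt_two_pow_self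
    have h4j : 4 * j ≤ 2 ^ j := by
      clear hlt hjb hj
      induction j, hj4 using Nat.le_induction with
      | base => norm_num
      | succ n hn ih => rw [pow_succ]; omega
    set t : ℕ := j + b with ht
    have ht0 : 0 < t := by omega
    have h2t : 2 * t ≤ 2 ^ j := by omega
    have h3t : (3 : ℝ) / 2 ^ t ≤ c1 / 2 ^ (j + 2) := by
      rw [div_le_iff₀ hc10] at hb
      rw [div_le_div_iff₀ (by positivity) (by positivity), ht, pow_add, pow_add]
      have : (0 : ℝ) < 2 ^ j := by positivity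
      nlinarith
    set m : ℕ := 2 ^ j / t with hm
    have hmt : m * t ≤ 2 ^ j := Nat.div_mul_le_self _ _
    have hmt2 : 2 ^ j < m * t + t := by
      have := Nat.lt_div_mul_add (a := 2 ^ j) ht0
      rw [← hm] at this
      exact this
    have hiter : ∀ i : ℕ, i ≤ m → hh M φ (2 ^ j + i * t + a) ≤
        hh M φ (2 ^ j + a) - i * (c1 / 2 ^ (j + 2)) := by
      intro i
      induction i with
      | zero => intro _; simp
      | succ i ih =>
        intro hi
        have h3 := ih (by omega)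
        have h4 : i * t + t ≤ m * t := by
          have : (i + 1) * t ≤ m * t := Nat.mul_le_mul_right t hi
          rw [add_mul, one_mul] at this
          exact this
        have h5 := hstep (2 ^ j + i * t) t (by omega) (by omega)
        have e1 : 2 ^ j + (i + 1) * t + a = 2 ^ j + i * t + t + a := by ring
        rw [e1]
        have h6 : c1 / 2 ^ (j + 1) ≤ c1 / ((2 ^ j + i * t : ℕ) : ℝ) := by
          apply div_le_div_of_nonneg_left hc10.le
          · have : 0 < 2 ^ j + i * t := by positivity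
            exact_mod_cast this
          · have : 2 ^ j + i * t ≤ 2 ^ (j + 1) := by
              rw [pow_succ]
              omega
            exact_mod_cast this
        have h7 : c1 / 2 ^ (j + 1) = c1 / 2 ^ (j + 2) + c1 / 2 ^ (j + 2) := by
          rw [pow_succ, pow_succ, pow_succ]
          field_simp
          ring
        push_cast
        push_cast at h6 h5
        linarith
    have h3 := hiter m le_rfl
    have h4 : hh M φ (2 ^ (j + 1) + a) ≤ hh M φ (2 ^ j + m * t + a) := by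
      apply hanti
      have : 2 ^ (j + 1) = 2 ^ j + 2 ^ j := by rw [pow_succ]; ring
      omega
    have h5 : c1 / 8 / ((j : ℝ) + b) ≤ m * (c1 / 2 ^ (j + 2)) := by
      have h6 : (2 : ℝ) ^ j ≤ 2 * (m * t) := by
        have : 2 ^ j ≤ 2 * (m * t) := by omega
        exact_mod_cast this
      have ht1 : ((j : ℝ) + b) = t := by rw [ht]; push_cast; ring
      have ht2 : (0 : ℝ) < t := by exact_mod_cast ht0
      rw [ht1, div_div, div_le_iff₀ (by positivity)]
      have h7 : (m : ℝ) * (c1 / 2 ^ (j + 2)) * (8 * t) = c1 * (2 * (m * t) / 2 ^ j) := by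
        rw [pow_add]
        field_simp
        ring
      rw [h7]
      have h8 : 1 ≤ 2 * ((m : ℝ) * t) / 2 ^ j := by
        rw [le_div_iff₀ (by positivity)]
        linarith
      nlinarith
    linarith
  apply harmonic_contra (fun i => hh M φ (2 ^ (j₁ + i) + a)) (fun n => hh_nonneg M φ _) (c1 / 8)
    (by positivity) (j₁ + b) (by omega)
  intro i
  have h3 := hblock (j₁ + i) (by omega)
  have e1 : ((j₁ + i : ℕ) : ℝ) + b = (i : ℝ) + ((j₁ + b : ℕ) : ℝ) := by push_cast; ring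
  rw [e1] at h3
  exact h3

end Dec

open Dec in
/-- Module Decouple. -/
theorem decouple (h1 : StED) (h2 : StPinsker) : StDecouple := by
  intro M A _ _ φ K hK D0 ε hε E0
  set a : ℕ := 2 * (D0 + 1) with ha
  have ha2 : 2 * (D0 + 1) ≤ 2 ^ a := by
    rw [← ha]
    exact Nat.lt_two_pow_self.le
  obtain ⟨e, heE, he⟩ := good_scale h1 M A φ K hK a (ε ^ 2 / 4) (by positivity) E0
  refine ⟨e, heE, ?_⟩
  intro r D Ψ hD hΨ
  set n : ℝ := ((QQ K e).card : ℝ) with hn
  have hn0 : 0 ≤ n := by positivity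
  have hI : ∀ q ∈ QQ K e, 0 ≤ Iq M (win φ (2 ^ (e + a))) q := fun q hq =>
    (h2 M _ (win φ (2 ^ (e + a))) q (mem_QQ.1 hq).2.1.pos).1
  calc ∑ q ∈ QQ K e, |M.E (fun x => if (q : ℤ) ∣ x - r q then
          (q : ℝ) * Ψ q (φ x) (φ (x + ((D q * q : ℕ) : ℤ))) else 0) -
        M.E (fun x => Ψ q (φ x) (φ (x + ((D q * q : ℕ) : ℤ))))|
      ≤ ∑ q ∈ QQ K e, 2 * √(Iq M (win φ (2 ^ (e + a))) q) := by
        apply sum_le_sum
        intro q hq
        have hq' := mem_QQ.1 hq
        apply step1 h2 M A φ q (2 ^ (e + a)) (D q * q) hq'.2.1.pos _ (r q) (Ψ q) (hΨ q)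
        calc q + D q * q ≤ q + D0 * q := Nat.add_le_add_left (Nat.mul_le_mul_right q (hD q)) q
          _ = (D0 + 1) * q := by ring
          _ ≤ (D0 + 1) * 2 ^ (e + 1) := Nat.mul_le_mul_left _ hq'.1.2
          _ = 2 * (D0 + 1) * 2 ^ e := by rw [pow_succ]; ring
          _ ≤ 2 ^ a * 2 ^ e := Nat.mul_le_mul_right _ ha2
          _ = 2 ^ (e + a) := by rw [pow_add, mul_comm]
    _ = 2 * ∑ q ∈ QQ K e, √(Iq M (win φ (2 ^ (e + a))) q) := by rw [mul_sum]
    _ ≤ 2 * (ε / 2 * n) := by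
        apply mul_le_mul_of_nonneg_left _ (by norm_num)
        apply abs_le_of_sq_le_sq' _ (by positivity) |>.2
        calc (∑ q ∈ QQ K e, √(Iq M (win φ (2 ^ (e + a))) q)) ^ 2
            ≤ n * ∑ q ∈ QQ K e, √(Iq M (win φ (2 ^ (e + a))) q) ^ 2 :=
              sq_sum_le_card_mul_sum_sq
          _ = n * ∑ q ∈ QQ K e, Iq M (win φ (2 ^ (e + a))) q := by
              congr 1
              exact sum_congr rfl fun q hq => Real.sq_sqrt (hI q hq)
          _ ≤ n * (ε ^ 2 / 4 * n) := mul_le_mul_of_nonneg_left he hn0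
          _ = (ε / 2 * n) ^ 2 := by ring
    _ = ε * n := by ring

end Pool.Agent.MP_a17b09_nt.OM
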