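import Pool.Agent.Lib.MP_a17b09_nt.OM.Stmts

/-!
The entropy decrement inequality for finite-valued functions under a shift-invariant mean.
-/

set_option autoImplicit false

namespace Pool.Agent.MP_a17b09_nt.OM

/-! ### Inequalities for finite sums -/

theorem nml_sum_le {β : Type*} [Fintype β] (p : β → ℝ) (hp : ∀ b, 0 ≤ p b) :
    Real.negMulLog (∑ b, p b) ≤ ∑ b, Real.negMulLog (p b) := by
  have h1 : ∀ b, p b * (-Real.log (∑ b, p b)) ≤ Real.negMulLog (p b) := by
    intro b
    rcases (hp b).eq_or_lt with h | h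
    · rw [← h]; simp
    · have h2 : p b ≤ ∑ b, p b := Finset.single_le_sum (fun b _ => hp b) (Finset.mem_univ b)
      have h3 := Real.log_le_log h h2
      unfold Real.negMulLog
      nlinarith
  calc Real.negMulLog (∑ b, p b) = ∑ b, p b * (-Real.log (∑ b, p b)) := by
        rw [← Finset.sum_mul]; unfold Real.negMulLog; ring
    _ ≤ _ := Finset.sum_le_sum fun b _ => h1 b

theorem sub1 {α β : Type*} [Fintype α] [Fintype β] (p : α → β → ℝ) (hp : ∀ a b, 0 ≤ p a b) :
    (∑ a, ∑ b, Real.negMulLog (p a b)) + Real.negMulLog (∑ a, ∑ b, p a b) ≤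
    (∑ a, Real.negMulLog (∑ b, p a b)) + ∑ b, Real.negMulLog (∑ a, p a b) := by
  obtain ⟨P, hP⟩ : ∃ P, P = ∑ a, ∑ b, p a b := ⟨_, rfl⟩
  obtain ⟨r, hr⟩ : ∃ r : α → ℝ, r = fun a => ∑ b, p a b := ⟨_, rfl⟩
  obtain ⟨s, hs⟩ : ∃ s : β → ℝ, s = fun b => ∑ a, p a b := ⟨_, rfl⟩
  have hr' : ∀ a, ∑ b, p a b = r a := fun a => by rw [hr]
  have hs' : ∀ b, ∑ a, p a b = s b := fun b => by rw [hs]
  have hPr : ∑ a, r a = P := by rw [hP, hr]
  have hPs : ∑ b, s b = P := by rw [hP, hs, Finset.sum_comm]
  have hr0 : ∀ a, 0 ≤ r a := fun a => by rw [← hr']; exact Finset.sum_nonneg fun b _ => hp a b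
  have hs0 : ∀ b, 0 ≤ s b := fun b => by rw [← hs']; exact Finset.sum_nonneg fun a _ => hp a b
  have hpr : ∀ a b, p a b ≤ r a := fun a b => by
    rw [← hr']; exact Finset.single_le_sum (fun b _ => hp a b) (Finset.mem_univ b)
  have hps : ∀ a b, p a b ≤ s b := fun a b => by
    rw [← hs']
    exact Finset.single_le_sum (f := fun a => p a b) (fun a _ => hp a b) (Finset.mem_univ a)
  have hrP : ∀ a, r a ≤ P := fun a => by
    rw [← hPr]; exact Finset.single_le_sum (fun a _ => hr0 a) (Finset.mem_univ a)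
  have key : ∀ a b, Real.negMulLog (p a b) + p a b * (-Real.log P) -
      p a b * (-Real.log (r a)) - p a b * (-Real.log (s b)) ≤ r a * s b / P - p a b := by
    intro a b
    rcases (hp a b).eq_or_lt with h | h
    · rw [← h]
      simp only [Real.negMulLog_zero, zero_mul, sub_zero, add_zero]
      exact div_nonneg (mul_nonneg (hr0 a) (hs0 b)) ((hr0 a).trans (hrP a))
    · have h1 : 0 < r a := h.trans_le (hpr a b)
      have h2 : 0 < s b := h.trans_le (hps a b)
      have h3 : 0 < P := h1.trans_le (hrP a)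
      have h4 : 0 < r a * s b / (p a b * P) := by positivity
      have h5 := Real.log_le_sub_one_of_pos h4
      rw [Real.log_div (by positivity) (by positivity), Real.log_mul h1.ne' h2.ne',
        Real.log_mul h.ne' h3.ne'] at h5
      have h6 : p a b * (Real.log (r a) + Real.log (s b) - (Real.log (p a b) + Real.log P)) ≤
          p a b * (r a * s b / (p a b * P) - 1) := mul_le_mul_of_nonneg_left h5 h.le
      have h7 : p a b * (r a * s b / (p a b * P) - 1) = r a * s b / P - p a b := by
        field_simp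
      rw [h7] at h6
      unfold Real.negMulLog
      linarith
  have hsum : ∑ a, ∑ b, (Real.negMulLog (p a b) + p a b * (-Real.log P) -
      p a b * (-Real.log (r a)) - p a b * (-Real.log (s b))) ≤
      ∑ a, ∑ b, (r a * s b / P - p a b) :=
    Finset.sum_le_sum fun a _ => Finset.sum_le_sum fun b _ => key a b
  have e1 : ∑ a, ∑ b, (r a * s b / P - p a b) ≤ 0 := by
    have e2 : ∑ a, ∑ b, (r a * s b / P - p a b) = P * P / P - P := by
      simp only [Finset.sum_sub_distrib]
      rw [← hP]
      congr 1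
      simp only [← Finset.sum_div, ← Finset.mul_sum, hPs, ← Finset.sum_mul, hPr]
    rw [e2]
    rcases eq_or_ne P 0 with h | h
    · rw [h]; simp
    · rw [mul_div_assoc, div_self h]; simp
  have e3 : ∑ a, ∑ b, (Real.negMulLog (p a b) + p a b * (-Real.log P) -
      p a b * (-Real.log (r a)) - p a b * (-Real.log (s b))) =
      (∑ a, ∑ b, Real.negMulLog (p a b)) + Real.negMulLog P -
      (∑ a, Real.negMulLog (r a)) - ∑ b, Real.negMulLog (s b) := by
    simp only [Finset.sum_sub_distrib, Finset.sum_add_distrib]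
    congr 1
    · congr 1
      · congr 1
        simp only [← Finset.sum_mul, ← hP]
        unfold Real.negMulLog
        ring
      · refine Finset.sum_congr rfl fun a _ => ?_
        rw [← Finset.sum_mul, hr']
        unfold Real.negMulLog
        ring
    · rw [Finset.sum_comm]
      refine Finset.sum_congr rfl fun b _ => ?_
      rw [← Finset.sum_mul, hs']
      unfold Real.negMulLog
      ring
  simp only [hr', hs']
  rw [hPr]
  linarith

/-- submodularity, as an inequality for a finite nonnegative array -/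
theorem sub3 {α β γ : Type*} [Fintype α] [Fintype β] [Fintype γ] (p : α → β → γ → ℝ)
    (hp : ∀ a b c, 0 ≤ p a b c) :
    (∑ a, ∑ b, ∑ c, Real.negMulLog (p a b c)) + ∑ c, Real.negMulLog (∑ a, ∑ b, p a b c) ≤
    (∑ a, ∑ c, Real.negMulLog (∑ b, p a b c)) + ∑ b, ∑ c, Real.negMulLog (∑ a, p a b c) := by
  have h := Finset.sum_le_sum (s := (Finset.univ : Finset γ)) fun c _ =>
    sub1 (fun a b => p a b c) (fun a b => hp a b c)
  rw [Finset.sum_add_distrib, Finset.sum_add_distrib] at h
  have e1 : (∑ a, ∑ b, ∑ c, Real.negMulLog (p a b c)) =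
      ∑ c, ∑ a, ∑ b, Real.negMulLog (p a b c) := by
    rw [Finset.sum_comm]
    rw [Finset.sum_congr rfl fun b _ => Finset.sum_comm (f := fun a c => Real.negMulLog (p a b c))]
    rw [Finset.sum_comm]
    refine Finset.sum_congr rfl fun c _ => ?_
    rw [Finset.sum_comm]
  have e2 : (∑ a, ∑ c, Real.negMulLog (∑ b, p a b c)) =
      ∑ c, ∑ a, Real.negMulLog (∑ b, p a b c) := Finset.sum_comm
  have e3 : (∑ b, ∑ c, Real.negMulLog (∑ a, p a b c)) =
      ∑ c, ∑ b, Real.negMulLog (∑ a, p a b c) := Finset.sum_comm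
  rw [e1, e2, e3]
  exact h

/-! ### Laws of finite-valued functions -/

theorem bdd_ind (p : ℤ → Prop) [DecidablePred p] : Bdd (fun x => if p x then (1 : ℝ) else 0) :=
  Bdd.ite p (Bdd.const 1) (Bdd.const 0)

section law

variable (M : Mean) {α β γ : Type} [DecidableEq α] [DecidableEq β] [DecidableEq γ]

theorem pr_nonneg (X : ℤ → α) (a : α) : 0 ≤ pr M X a :=
  M.nonneg _ (bdd_ind _) (fun x => by split_ifs <;> norm_num)

theorem pr_fst [Fintype β] (X : ℤ → α) (Y : ℤ → β) (a : α) :
    ∑ b, pr M (fun x => (X x, Y x)) (a, b) = pr M X a := by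
  unfold pr
  rw [← M.sum _ _ fun b _ => bdd_ind _]
  congr 1
  funext x
  by_cases h : X x = a
  · simp [h]
  · simp [h]

theorem pr_snd [Fintype α] (X : ℤ → α) (Y : ℤ → β) (b : β) :
    ∑ a, pr M (fun x => (X x, Y x)) (a, b) = pr M Y b := by
  unfold pr
  rw [← M.sum _ _ fun b _ => bdd_ind _]
  congr 1
  funext x
  by_cases h : Y x = b
  · simp [h]
  · simp [h]

theorem pr_comp_inj (X : ℤ → α) (f : α → β) (hf : Function.Injective f) (a : α) :
    pr M (fun x => f (X x)) (f a) = pr M X a := by
  unfold pr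
  congr 1
  funext x
  simp only [hf.eq_iff]

omit [DecidableEq α] in
theorem pr_comp_not_range (X : ℤ → α) (f : α → β) (b : β) (hb : b ∉ Set.range f) :
    pr M (fun x => f (X x)) b = 0 := by
  unfold pr
  rw [show (fun x => if f (X x) = b then (1 : ℝ) else 0) = fun _ => (0 : ℝ) from ?_, M.const]
  funext x
  rw [if_neg]
  intro h
  exact hb ⟨_, h⟩

theorem pr_shift (X : ℤ → α) (n : ℤ) (a : α) : pr M (fun x => X (x + n)) a = pr M X a := by
  unfold pr
  exact M.shift (fun x => if X x = a then (1 : ℝ) else 0) (bdd_ind _) n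

variable [Fintype α] [Fintype β] [Fintype γ]

theorem Hn_comp_inj (X : ℤ → α) (f : α → β) (hf : Function.Injective f) :
    Hn M (fun x => f (X x)) = Hn M X := by
  unfold Hn
  symm
  apply Fintype.sum_of_injective f hf
  · intro b hb
    rw [pr_comp_not_range M X f b hb, Real.negMulLog_zero]
  · intro a
    rw [pr_comp_inj M X f hf]

theorem Hn_shift (X : ℤ → α) (n : ℤ) : Hn M (fun x => X (x + n)) = Hn M X := by
  unfold Hn
  refine Finset.sum_congr rfl fun a _ => ?_
  rw [pr_shift]

theorem Hn_le_pair (X : ℤ → α) (Y : ℤ → β) : Hn M X ≤ Hn M (fun x => (X x, Y x)) := by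
  unfold Hn
  rw [Fintype.sum_prod_type]
  refine Finset.sum_le_sum fun a _ => ?_
  rw [← pr_fst M X Y a]
  exact nml_sum_le _ fun b => pr_nonneg M _ _

theorem Hn_submod (X : ℤ → α) (Y : ℤ → β) (Z : ℤ → γ) :
    Hn M (fun x => (X x, Y x, Z x)) + Hn M Z ≤
      Hn M (fun x => (X x, Z x)) + Hn M (fun x => (Y x, Z x)) := by
  have h := sub3 (fun a b c => pr M (fun x => (X x, Y x, Z x)) (a, b, c))
    (fun a b c => pr_nonneg M _ _)
  have e1 : Hn M (fun x => (X x, Y x, Z x)) =
      ∑ a, ∑ b, ∑ c, Real.negMulLog (pr M (fun x => (X x, Y x, Z x)) (a, b, c)) := by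
    unfold Hn
    rw [Fintype.sum_prod_type]
    refine Finset.sum_congr rfl fun a _ => ?_
    rw [Fintype.sum_prod_type]
  have e2 : Hn M (fun x => (X x, Z x)) =
      ∑ a, ∑ c, Real.negMulLog (∑ b, pr M (fun x => (X x, Y x, Z x)) (a, b, c)) := by
    unfold Hn
    rw [Fintype.sum_prod_type]
    refine Finset.sum_congr rfl fun a _ => Finset.sum_congr rfl fun c _ => ?_
    congr 1
    unfold pr
    rw [← M.sum _ _ fun b _ => bdd_ind _]
    congr 1
    funext x
    by_cases h1 : X x = a <;> by_cases h2 : Z x = c <;> simp [h1, h2]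
  have e3 : Hn M (fun x => (Y x, Z x)) =
      ∑ b, ∑ c, Real.negMulLog (∑ a, pr M (fun x => (X x, Y x, Z x)) (a, b, c)) := by
    unfold Hn
    rw [Fintype.sum_prod_type]
    refine Finset.sum_congr rfl fun b _ => Finset.sum_congr rfl fun c _ => ?_
    congr 1
    rw [pr_snd M X (fun x => (Y x, Z x)) (b, c)]
  have e4 : Hn M Z =
      ∑ c, Real.negMulLog (∑ a, ∑ b, pr M (fun x => (X x, Y x, Z x)) (a, b, c)) := by
    unfold Hn
    refine Finset.sum_congr rfl fun c _ => ?_
    congr 1
    rw [Finset.sum_comm]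
    rw [Finset.sum_congr rfl fun b _ => pr_snd M X (fun x => (Y x, Z x)) (b, c)]
    rw [pr_snd M Y Z c]
  rw [e1, e2, e3, e4]
  exact h

end law

/-! ### Residues -/

section residues

variable (M : Mean)

/-- the residue modulo `N` -/
def res (N : ℕ) (x : ℤ) : ZMod N := (x : ZMod N)

theorem pr_res (N : ℕ) [NeZero N] (a : ZMod N) : pr M (res N) a = 1 / (N : ℝ) := by
  have hN : 0 < N := Nat.pos_of_ne_zero (NeZero.ne N)
  have h := M.res N hN (a.val : ℤ)
  have h1 : (fun x : ℤ => if (N : ℤ) ∣ x - (a.val : ℤ) then (N : ℝ) else 0) =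
      fun x => (N : ℝ) * (if res N x = a then 1 else 0) := by
    funext x
    have h2 : (N : ℤ) ∣ x - (a.val : ℤ) ↔ res N x = a := by
      rw [← ZMod.intCast_zmod_eq_zero_iff_dvd, Int.cast_sub, sub_eq_zero]
      unfold res
      rw [Int.cast_natCast, ZMod.natCast_zmod_val]
    by_cases h3 : res N x = a
    · rw [if_pos (h2.2 h3), if_pos h3, mul_one]
    · rw [if_neg (fun h4 => h3 (h2.1 h4)), if_neg h3, mul_zero]
  rw [h1, M.smul _ _ (bdd_ind _)] at h
  unfold pr
  have hN' : (N : ℝ) ≠ 0 := by exact_mod_cast hN.ne'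
  field_simp
  linarith

theorem Hn_res (N : ℕ) [NeZero N] : Hn M (res N) = Real.log N := by
  have hN' : (N : ℝ) ≠ 0 := by exact_mod_cast NeZero.ne N
  unfold Hn
  rw [Finset.sum_congr rfl fun a _ => by rw [pr_res M N a]]
  rw [Finset.sum_const, Finset.card_univ, ZMod.card, nsmul_eq_mul]
  unfold Real.negMulLog
  rw [one_div, Real.log_inv]
  field_simp

theorem prq_eq {α : Type} [DecidableEq α] (X : ℤ → α) (q : ℕ) [NeZero q] (a : α) (i : ℕ) :
    prq M X q a i = pr M (fun x => (X x, res q x)) (a, (i : ZMod q)) := by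
  unfold prq pr
  congr 1
  funext x
  have h2 : (q : ℤ) ∣ x - (i : ℤ) ↔ res q x = (i : ZMod q) := by
    rw [← ZMod.intCast_zmod_eq_zero_iff_dvd, Int.cast_sub, sub_eq_zero]
    unfold res
    rw [Int.cast_natCast]
  simp only [h2, Prod.mk.injEq]

theorem sum_range_zmod (q : ℕ) [NeZero q] (f : ZMod q → ℝ) :
    ∑ i ∈ Finset.range q, f (i : ZMod q) = ∑ j, f j := by
  refine Finset.sum_nbij' (fun i => (i : ZMod q)) (fun j => j.val) ?_ ?_ ?_ ?_ ?_
  · intro i _; exact Finset.mem_univ _
  · intro j _; exact Finset.mem_range.2 (ZMod.val_lt j)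
  · intro i hi; exact ZMod.val_cast_of_lt (Finset.mem_range.1 hi)
  · intro j _; exact ZMod.natCast_zmod_val j
  · intro i _; rfl

theorem Hq_eq {α : Type} [Fintype α] [DecidableEq α] (X : ℤ → α) (q : ℕ) [NeZero q] :
    Hq M X q = Hn M (fun x => (X x, res q x)) := by
  unfold Hq Hn
  rw [Fintype.sum_prod_type]
  refine Finset.sum_congr rfl fun a _ => ?_
  rw [← sum_range_zmod q]
  refine Finset.sum_congr rfl fun i _ => ?_
  rw [prq_eq]

/-- several moduli -/
theorem Hn_res_prod {α : Type} [Fintype α] [DecidableEq α] (X : ℤ → α) (Q : Finset ℕ) :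
    (∀ q ∈ Q, q.Prime) → ∀ (N : ℕ) [NeZero N], N = ∏ q ∈ Q, q →
    Hn M (fun x => (X x, res N x)) ≤ Hn M X + ∑ q ∈ Q, (Hq M X q - Hn M X) := by
  classical
  induction Q using Finset.induction with
  | empty =>
    intro _ N _ hN
    rw [Finset.prod_empty] at hN
    subst hN
    rw [Finset.sum_empty, add_zero]
    have h := Hn_comp_inj M X (fun a => (a, (0 : ZMod 1)))
      (fun a b hab => (Prod.mk.inj hab).1)
    rw [← h]
    apply le_of_eq
    congr 1
    funext x
    exact Prod.ext rfl (Subsingleton.elim _ _)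
  | insert q Q hq ih =>
    intro hQ N _ hN
    have hqp : q.Prime := hQ q (Finset.mem_insert_self q Q)
    have hQ' : ∀ r ∈ Q, r.Prime := fun r hr => hQ r (Finset.mem_insert_of_mem hr)
    have hN' : (∏ r ∈ Q, r) ≠ 0 := Finset.prod_ne_zero_iff.2 fun r hr => (hQ' r hr).ne_zero
    obtain ⟨N', hN'e⟩ : ∃ N', N' = ∏ r ∈ Q, r := ⟨_, rfl⟩
    have : NeZero N' := ⟨by rw [hN'e]; exact hN'⟩
    have : NeZero q := ⟨hqp.ne_zero⟩
    have h1 := ih hQ' N' hN'e
    rw [Finset.prod_insert hq, ← hN'e] at hN
    rw [Finset.sum_insert hq]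
    have hcop : Nat.Coprime q N' := by
      rw [hN'e]
      refine Nat.Coprime.prod_right fun r hr => ?_
      exact (Nat.coprime_primes hqp (hQ' r hr)).2 (fun h => hq (h ▸ hr))
    -- submodularity with `Z = X`
    have h2 := Hn_submod M (res N') (res q) X
    have h3 : Hn M (fun x => (X x, res N x)) ≤ Hn M (fun x => (res N' x, res q x, X x)) := by
      -- (X, res N) is an injective image of (res N', res q, X)
      subst hN
      apply le_of_eq
      obtain ⟨g, hg⟩ : ∃ g : ZMod (q * N') → ZMod N' × ZMod q,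
        g = fun a => ((ZMod.castHom (dvd_mul_left N' q) (ZMod N')) a,
          (ZMod.castHom (dvd_mul_right q N') (ZMod q)) a) := ⟨_, rfl⟩
      have hginj : Function.Injective g := by
        intro a b hab
        have h4 := congrArg Prod.fst hab
        have h5 := congrArg Prod.snd hab
        rw [hg] at h4 h5
        simp only at h4 h5
        obtain ⟨x, rfl⟩ := ZMod.intCast_surjective a
        obtain ⟨y, rfl⟩ := ZMod.intCast_surjective b
        rw [map_intCast, map_intCast] at h4 h5
        rw [ZMod.intCast_eq_intCast_iff_dvd_sub] at h4 h5 ⊢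
        rw [Nat.cast_mul]
        exact (Nat.isCoprime_iff_coprime.2 hcop).mul_dvd h5 h4
      have h6 := Hn_comp_inj M (fun x => (X x, res (q * N') x))
        (fun a : α × ZMod (q * N') => ((g a.2).1, (g a.2).2, a.1)) ?_
      · rw [← h6]
        congr 1
        funext x
        rw [hg]
        simp [res]
      · intro a b hab
        simp only [Prod.mk.injEq] at hab
        exact Prod.ext hab.2.2 (hginj (Prod.ext hab.1 hab.2.1))
    have h4 : Hn M (fun x => (res N' x, X x)) = Hn M (fun x => (X x, res N' x)) :=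
      Hn_comp_inj M (fun x => (X x, res N' x)) (fun a : α × ZMod N' => (a.2, a.1))
        (fun a b hab => by
          simp only [Prod.mk.injEq] at hab
          exact Prod.ext hab.2 hab.1)
    have h5 : Hn M (fun x => (res q x, X x)) = Hn M (fun x => (X x, res q x)) :=
      Hn_comp_inj M (fun x => (X x, res q x)) (fun a : α × ZMod q => (a.2, a.1))
        (fun a b hab => by
          simp only [Prod.mk.injEq] at hab
          exact Prod.ext hab.2 hab.1)
    rw [h4, h5] at h2
    rw [Hq_eq M X q]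
    linarith

/-- consecutive windows -/
theorem Hn_windows {A : Type} [Fintype A] [DecidableEq A] (φ : ℤ → A) (W N : ℕ) [NeZero N]
    (k : ℕ) :
    Hn M (fun x => (win φ (k * W) x, res N x)) ≤
      Hn M (res N) + k * (Hn M (fun x => (win φ W x, res N x)) - Hn M (res N)) := by
  induction k with
  | zero =>
    rw [Nat.cast_zero, zero_mul (_ - _), add_zero]
    have h := Hn_comp_inj M (res N)
      (fun a => ((fun i : Fin (0 * W) => φ (((i : ℕ) : ℤ))), a))
      (fun a b hab => (Prod.mk.inj hab).2)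
    rw [← h]
    apply le_of_eq
    congr 1
    funext x
    refine Prod.ext ?_ rfl
    funext i
    exact absurd (i.2.trans_eq (Nat.zero_mul W)) (Nat.not_lt_zero _)
  | succ k ih =>
    have h1 := Hn_submod M (win φ (k * W)) (fun x => win φ W (x + ((k * W : ℕ) : ℤ))) (res N)
    have h2 : Hn M (fun x => (win φ ((k + 1) * W) x, res N x)) =
        Hn M (fun x => (win φ (k * W) x, win φ W (x + ((k * W : ℕ) : ℤ)), res N x)) := by
      have hle : ∀ i : Fin (k * W), (i : ℕ) < (k + 1) * W := by
        intro i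
        have := i.2
        rw [add_mul]
        omega
      have hle2 : ∀ i : Fin W, k * W + (i : ℕ) < (k + 1) * W := by
        intro i
        have := i.2
        rw [add_mul]
        omega
      have h3 := Hn_comp_inj M (fun x => (win φ ((k + 1) * W) x, res N x))
        (fun a : (Fin ((k + 1) * W) → A) × ZMod N =>
          ((fun i : Fin (k * W) => a.1 ⟨i, hle i⟩), (fun i : Fin W => a.1 ⟨k * W + i, hle2 i⟩),
            a.2)) ?_
      · rw [← h3]
        congr 1
        funext x
        refine Prod.ext rfl (Prod.ext ?_ rfl)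
        funext i
        simp only [win]
        congr 1
        push_cast
        ring
      · intro a b hab
        simp only [Prod.mk.injEq] at hab
        obtain ⟨hab1, hab2, hab3⟩ := hab
        refine Prod.ext ?_ hab3
        funext i
        by_cases hi : (i : ℕ) < k * W
        · exact congrFun hab1 ⟨i, hi⟩
        · have h4 : (i : ℕ) - k * W < W := by
            have h7 := i.2
            have h8 : (k + 1) * W = k * W + W := by ring
            omega
          have h5 := congrFun hab2 ⟨(i : ℕ) - k * W, h4⟩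
          have h6 : (⟨k * W + ((i : ℕ) - k * W), hle2 ⟨(i : ℕ) - k * W, h4⟩⟩ :
              Fin ((k + 1) * W)) = i := by
            apply Fin.ext
            show k * W + ((i : ℕ) - k * W) = i
            omega
          rw [← h6]
          exact h5
    have h3 : Hn M (fun x => (win φ W (x + ((k * W : ℕ) : ℤ)), res N x)) =
        Hn M (fun x => (win φ W x, res N x)) := by
      rw [← Hn_shift M (fun x => (win φ W x, res N x)) ((k * W : ℕ) : ℤ)]
      have h4 := Hn_comp_inj M (fun x => (win φ W (x + ((k * W : ℕ) : ℤ)), res N x))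
        (fun a : (Fin W → A) × ZMod N => (a.1, a.2 + ((k * W : ℕ) : ZMod N)))
        (fun a b hab => by
          simp only [Prod.mk.injEq, add_left_inj] at hab
          exact Prod.ext hab.1 hab.2)
      rw [← h4]
      congr 1
      funext x
      refine Prod.ext rfl ?_
      simp only [res]
      push_cast
      ring
    rw [h2]
    rw [h3] at h1
    rw [Nat.cast_succ]
    linarith

end residues

/-- The entropy decrement inequality. -/
theorem ed : StED := by
  intro M A _ _ φ W k Q hQ
  have hN : (∏ q ∈ Q, q) ≠ 0 := Finset.prod_ne_zero_iff.2 fun r hr => (hQ r hr).ne_zero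
  obtain ⟨N, hNe⟩ : ∃ N, N = ∏ r ∈ Q, r := ⟨_, rfl⟩
  have : NeZero N := ⟨by rw [hNe]; exact hN⟩
  have h1 := Hn_le_pair M (win φ (k * W)) (res N)
  have h2 := Hn_windows M φ W N k
  have h3 := Hn_res_prod M (win φ W) Q hQ N hNe
  have h4 : Hn M (res N) = ∑ q ∈ Q, Real.log q := by
    rw [Hn_res, hNe]
    push_cast
    rw [Real.log_prod]
    intro q hq
    exact_mod_cast (hQ q hq).ne_zero
  have h5 : ∑ q ∈ Q, (Hq M (win φ W) q - Hn M (win φ W)) =
      ∑ q ∈ Q, Real.log q - ∑ q ∈ Q, Iq M (win φ W) q := by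
    rw [← Finset.sum_sub_distrib]
    refine Finset.sum_congr rfl fun q _ => ?_
    unfold Iq
    ring
  rw [h5] at h3
  rw [h4] at h2
  have hk : (0 : ℝ) ≤ (k : ℝ) := Nat.cast_nonneg k
  nlinarith [mul_le_mul_of_nonneg_left h3 hk]

end Pool.Agent.MP_a17b09_nt.OM
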