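import Pool.Agent.Lib.MP_a17b09_nt.OM.Basic

/-!
The Hilbert space attached to a shift-invariant mean, with the unitary operator given by the shift.
-/

set_option autoImplicit false

open Filter Topology UniformSpace Completion

namespace Pool.Agent.MP_a17b09_nt.OM

/-- bounded complex functions on the integers -/
def BF : Submodule ℂ (ℤ → ℂ) where
  carrier := {f | ∃ C : ℝ, ∀ x, ‖f x‖ ≤ C}
  add_mem' := by
    rintro f g ⟨C, hC⟩ ⟨D, hD⟩
    exact ⟨C + D, fun x => (norm_add_le _ _).trans (add_le_add (hC x) (hD x))⟩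
  zero_mem' := ⟨0, fun x => by simp⟩
  smul_mem' := by
    rintro c f ⟨C, hC⟩
    refine ⟨‖c‖ * C, fun x => ?_⟩
    rw [Pi.smul_apply, norm_smul]
    exact mul_le_mul_of_nonneg_left (hC x) (norm_nonneg _)

theorem BF.re_bdd {f : ℤ → ℂ} (hf : f ∈ BF) : Bdd (fun x => (f x).re) := by
  obtain ⟨C, hC⟩ := hf
  exact ⟨C, fun x => (Complex.abs_re_le_norm _).trans (hC x)⟩

theorem BF.im_bdd {f : ℤ → ℂ} (hf : f ∈ BF) : Bdd (fun x => (f x).im) := by
  obtain ⟨C, hC⟩ := hf
  exact ⟨C, fun x => (Complex.abs_im_le_norm _).trans (hC x)⟩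

theorem BF.mul_mem {f g : ℤ → ℂ} (hf : f ∈ BF) (hg : g ∈ BF) :
    (fun x => f x * g x) ∈ BF := by
  obtain ⟨C, hC⟩ := hf
  obtain ⟨D, hD⟩ := hg
  refine ⟨C * D, fun x => ?_⟩
  rw [norm_mul]
  exact mul_le_mul (hC x) (hD x) (norm_nonneg _) ((norm_nonneg _).trans (hC x))

theorem BF.conj_mem {f : ℤ → ℂ} (hf : f ∈ BF) : (fun x => (starRingEnd ℂ) (f x)) ∈ BF := by
  obtain ⟨C, hC⟩ := hf
  exact ⟨C, fun x => by rw [RCLike.norm_conj]; exact hC x⟩

theorem BF.ofReal {f : ℤ → ℝ} (hf : Bdd f) : (fun x => (f x : ℂ)) ∈ BF := by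
  obtain ⟨C, hC⟩ := hf
  exact ⟨C, fun x => by rw [Complex.norm_real]; exact hC x⟩

namespace Mean

variable (M : Mean)

/-- the mean of a complex function -/
noncomputable def Ec (f : ℤ → ℂ) : ℂ := ⟨M.E (fun x => (f x).re), M.E (fun x => (f x).im)⟩

theorem Ec_add {f g : ℤ → ℂ} (hf : f ∈ BF) (hg : g ∈ BF) :
    M.Ec (fun x => f x + g x) = M.Ec f + M.Ec g := by
  apply Complex.ext
  · simp only [Ec, Complex.add_re]
    exact M.add _ _ (BF.re_bdd hf) (BF.re_bdd hg)
  · simp only [Ec, Complex.add_im]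
    exact M.add _ _ (BF.im_bdd hf) (BF.im_bdd hg)

theorem Ec_smul (c : ℂ) {f : ℤ → ℂ} (hf : f ∈ BF) :
    M.Ec (fun x => c * f x) = c * M.Ec f := by
  apply Complex.ext
  · simp only [Ec, Complex.mul_re]
    rw [M.sub ((BF.re_bdd hf).smul _) ((BF.im_bdd hf).smul _), M.smul _ _ (BF.re_bdd hf),
      M.smul _ _ (BF.im_bdd hf)]
  · simp only [Ec, Complex.mul_im]
    rw [M.add _ _ ((BF.im_bdd hf).smul _) ((BF.re_bdd hf).smul _), M.smul _ _ (BF.re_bdd hf),
      M.smul _ _ (BF.im_bdd hf)]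

theorem Ec_conj {f : ℤ → ℂ} (hf : f ∈ BF) :
    M.Ec (fun x => (starRingEnd ℂ) (f x)) = (starRingEnd ℂ) (M.Ec f) := by
  apply Complex.ext
  · simp only [Ec, Complex.conj_re]
  · simp only [Ec, Complex.conj_im]
    exact M.neg (BF.im_bdd hf)

theorem Ec_ofReal {f : ℤ → ℝ} : M.Ec (fun x => (f x : ℂ)) = (M.E f : ℂ) := by
  apply Complex.ext
  · simp only [Ec, Complex.ofReal_re]
  · simp only [Ec, Complex.ofReal_im]
    exact M.const 0

theorem Ec_shift {f : ℤ → ℂ} (hf : f ∈ BF) (n : ℤ) : M.Ec (fun x => f (x + n)) = M.Ec f := by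
  apply Complex.ext
  · simp only [Ec]
    exact M.shift (fun x => (f x).re) (BF.re_bdd hf) n
  · simp only [Ec]
    exact M.shift (fun x => (f x).im) (BF.im_bdd hf) n

end Mean

/-- the pre-Hilbert space of a mean -/
@[nolint unusedArguments]
def Pre (_ : Mean) : Type := BF

namespace Pre

variable (M : Mean)

noncomputable instance : AddCommGroup (Pre M) := inferInstanceAs (AddCommGroup BF)
noncomputable instance : Module ℂ (Pre M) := inferInstanceAs (Module ℂ BF)

/-- the underlying function -/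
def fn (f : Pre M) : ℤ → ℂ := (show BF from f).1

theorem fn_mem (f : Pre M) : fn M f ∈ BF := (show BF from f).2

/-- element of the pre-Hilbert space -/
def mk (f : ℤ → ℂ) (hf : f ∈ BF) : Pre M := (⟨f, hf⟩ : BF)

@[simp] theorem fn_mk (f : ℤ → ℂ) (hf : f ∈ BF) : fn M (mk M f hf) = f := rfl

@[simp] theorem fn_add (f g : Pre M) : fn M (f + g) = fun x => fn M f x + fn M g x := rfl

@[simp] theorem fn_smul (c : ℂ) (f : Pre M) : fn M (c • f) = fun x => c * fn M f x := rfl

theorem ext' {f g : Pre M} (h : fn M f = fn M g) : f = g := Subtype.ext h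

/-- the inner product -/
@[instance_reducible]
noncomputable def core : PreInnerProductSpace.Core ℂ (Pre M) where
  inner f g := M.Ec (fun x => (starRingEnd ℂ) (fn M f x) * fn M g x)
  conj_inner_symm f g := by
    rw [← M.Ec_conj (BF.mul_mem (BF.conj_mem (fn_mem M g)) (fn_mem M f))]
    congr 1
    funext x
    rw [map_mul, Complex.conj_conj, mul_comm]
  re_inner_nonneg f := by
    show 0 ≤ (M.Ec (fun x => (starRingEnd ℂ) (fn M f x) * fn M f x)).re
    show 0 ≤ M.E (fun x => ((starRingEnd ℂ) (fn M f x) * fn M f x).re)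
    apply M.nonneg _ (BF.re_bdd (BF.mul_mem (BF.conj_mem (fn_mem M f)) (fn_mem M f)))
    intro x
    rw [mul_comm, Complex.mul_conj]
    simp [Complex.normSq_nonneg]
  add_left f g h := by
    rw [← M.Ec_add (BF.mul_mem (BF.conj_mem (fn_mem M f)) (fn_mem M h))
      (BF.mul_mem (BF.conj_mem (fn_mem M g)) (fn_mem M h))]
    congr 1
    funext x
    rw [fn_add, map_add, add_mul]
  smul_left f g c := by
    rw [← M.Ec_smul _ (BF.mul_mem (BF.conj_mem (fn_mem M f)) (fn_mem M g))]
    congr 1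
    funext x
    rw [fn_smul, map_mul, mul_assoc]

noncomputable instance : SeminormedAddCommGroup (Pre M) :=
  InnerProductSpace.Core.toSeminormedAddCommGroup (c := core M)
noncomputable instance : InnerProductSpace ℂ (Pre M) :=
  InnerProductSpace.ofCore (core M)

theorem inner_def (f g : Pre M) :
    inner ℂ f g = M.Ec (fun x => (starRingEnd ℂ) (fn M f x) * fn M g x) := rfl

theorem bf_shift {f : ℤ → ℂ} (hf : f ∈ BF) (n : ℤ) : (fun x => f (x + n)) ∈ BF := by
  obtain ⟨C, hC⟩ := hf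
  exact ⟨C, fun x => hC _⟩

/-- shift by `n` -/
noncomputable def sh (n : ℤ) : Pre M ≃ₗᵢ[ℂ] Pre M where
  toFun f := mk M (fun x => fn M f (x + n)) (bf_shift (fn_mem M f) n)
  invFun f := mk M (fun x => fn M f (x + -n)) (bf_shift (fn_mem M f) (-n))
  left_inv f := by
    apply ext'
    funext x
    show fn M f (x + -n + n) = fn M f x
    congr 1
    ring
  right_inv f := by
    apply ext'
    funext x
    show fn M f (x + n + -n) = fn M f x
    congr 1
    ring
  map_add' f g := rfl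
  map_smul' c f := rfl
  norm_map' f := by
    have h1 : inner ℂ (mk M (fun x => fn M f (x + n)) (bf_shift (fn_mem M f) n))
        (mk M (fun x => fn M f (x + n)) (bf_shift (fn_mem M f) n)) = inner ℂ f f := by
      rw [inner_def, inner_def]
      exact M.Ec_shift (BF.mul_mem (BF.conj_mem (fn_mem M f)) (fn_mem M f)) n
    have h2 := norm_sq_eq_re_inner (𝕜 := ℂ) (mk M (fun x => fn M f (x + n)) (bf_shift (fn_mem M f) n))
    have h3 := norm_sq_eq_re_inner (𝕜 := ℂ) f
    rw [h1, ← h3] at h2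
    exact (sq_eq_sq₀ (norm_nonneg _) (norm_nonneg _)).1 h2

theorem fn_sh (n : ℤ) (f : Pre M) : fn M (sh M n f) = fun x => fn M f (x + n) := rfl

end Pre

/-- the Hilbert space of a mean -/
abbrev HS (M : Mean) : Type := UniformSpace.Completion (Pre M)

namespace HS

variable (M : Mean)

/-- the shift on the Hilbert space, as a continuous linear map -/
noncomputable def shC (n : ℤ) : HS M →L[ℂ] HS M :=
  ((Pre.sh M n).toContinuousLinearEquiv : Pre M →L[ℂ] Pre M).completion

theorem shC_coe (n : ℤ) (f : Pre M) : shC M n (f : HS M) = ((Pre.sh M n f : Pre M) : HS M) := by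
  unfold shC
  rw [ContinuousLinearMap.completion_apply_coe]
  rfl

theorem shC_norm (n : ℤ) (v : HS M) : ‖shC M n v‖ = ‖v‖ := by
  induction v using Completion.induction_on with
  | hp => exact isClosed_eq (by fun_prop) (by fun_prop)
  | ih f => rw [shC_coe, Completion.norm_coe, Completion.norm_coe, LinearIsometryEquiv.norm_map]

theorem shC_shC (n m : ℤ) (v : HS M) : shC M n (shC M m v) = shC M (n + m) v := by
  induction v using Completion.induction_on with
  | hp => exact isClosed_eq (by fun_prop) (by fun_prop)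
  | ih f =>
    rw [shC_coe, shC_coe, shC_coe]
    congr 1
    apply Pre.ext'
    funext x
    show Pre.fn M f (x + n + m) = Pre.fn M f (x + (n + m))
    congr 1
    ring

theorem shC_zero (v : HS M) : shC M 0 v = v := by
  induction v using Completion.induction_on with
  | hp => exact isClosed_eq (by fun_prop) (by fun_prop)
  | ih f =>
    rw [shC_coe]
    congr 1
    apply Pre.ext'
    funext x
    show Pre.fn M f (x + 0) = Pre.fn M f x
    rw [add_zero]

/-- the unitary shift by `1` -/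
noncomputable def U : HS M ≃ₗᵢ[ℂ] HS M where
  toFun := shC M 1
  invFun := shC M (-1)
  left_inv v := by rw [shC_shC]; exact shC_zero M v
  right_inv v := by rw [shC_shC]; exact shC_zero M v
  map_add' := map_add _
  map_smul' := map_smul _
  norm_map' := shC_norm M 1

theorem U_pow (n : ℕ) (v : HS M) : (U M ^ n) v = shC M n v := by
  induction n generalizing v with
  | zero => rw [pow_zero]; exact (shC_zero M v).symm
  | succ n ih =>
    rw [pow_succ]
    show (U M ^ n) (shC M 1 v) = _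
    rw [ih, shC_shC]
    push_cast
    rfl

open Classical in
/-- the vector of a bounded real function -/
noncomputable def ι (f : ℤ → ℝ) : HS M :=
  if hf : Bdd f then ((Pre.mk M (fun x => (f x : ℂ)) (BF.ofReal hf) : Pre M) : HS M) else 0

theorem ι_eq {f : ℤ → ℝ} (hf : Bdd f) :
    ι M f = ((Pre.mk M (fun x => (f x : ℂ)) (BF.ofReal hf) : Pre M) : HS M) := by
  unfold ι
  rw [dif_pos hf]

theorem ι_add {f g : ℤ → ℝ} (hf : Bdd f) (hg : Bdd g) :
    ι M (fun x => f x + g x) = ι M f + ι M g := by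
  rw [ι_eq M hf, ι_eq M hg, ι_eq M (hf.add hg), ← Completion.coe_add]
  congr 1
  apply Pre.ext'
  funext x
  show ((f x + g x : ℝ) : ℂ) = (f x : ℂ) + (g x : ℂ)
  push_cast
  rfl

theorem ι_smul (c : ℝ) {f : ℤ → ℝ} (hf : Bdd f) :
    ι M (fun x => c * f x) = (c : ℂ) • ι M f := by
  rw [ι_eq M hf, ι_eq M (hf.smul c), ← Completion.coe_smul]
  congr 1
  apply Pre.ext'
  funext x
  show ((c * f x : ℝ) : ℂ) = (c : ℂ) * (f x : ℂ)
  push_cast
  rfl

theorem ι_zero : ι M (fun _ => 0) = 0 := by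
  have h := ι_smul M 0 (Bdd.const 0)
  simpa using h

theorem ι_sub {f g : ℤ → ℝ} (hf : Bdd f) (hg : Bdd g) :
    ι M (fun x => f x - g x) = ι M f - ι M g := by
  have h1 := ι_add M (hf.sub hg) hg
  have h2 : (fun x => f x - g x + g x) = f := by funext x; ring
  rw [h2] at h1
  rw [h1]
  simp

theorem ι_sum {κ : Type*} (s : Finset κ) (f : κ → ℤ → ℝ) (hf : ∀ i ∈ s, Bdd (f i)) :
    ι M (fun x => ∑ i ∈ s, f i x) = ∑ i ∈ s, ι M (f i) := by
  classical
  induction s using Finset.induction with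
  | empty => simpa using ι_zero M
  | insert a s ha ih =>
    have h1 : (fun x => ∑ i ∈ insert a s, f i x) = fun x => f a x + ∑ i ∈ s, f i x := by
      funext x; rw [Finset.sum_insert ha]
    rw [h1, ι_add M (hf a (Finset.mem_insert_self a s))
      (Bdd.sum s f fun i hi => hf i (Finset.mem_insert_of_mem hi)), Finset.sum_insert ha,
      ih fun i hi => hf i (Finset.mem_insert_of_mem hi)]

theorem inner_ι {f g : ℤ → ℝ} (hf : Bdd f) (hg : Bdd g) :
    inner ℂ (ι M f) (ι M g) = (M.E (fun x => f x * g x) : ℂ) := by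
  rw [ι_eq M hf, ι_eq M hg, Completion.inner_coe, Pre.inner_def, ← M.Ec_ofReal]
  congr 1
  funext x
  show (starRingEnd ℂ) (f x : ℂ) * (g x : ℂ) = _
  rw [Complex.conj_ofReal]
  push_cast
  rfl

theorem norm_ι_sq {f : ℤ → ℝ} (hf : Bdd f) : ‖ι M f‖ ^ 2 = M.E (fun x => f x ^ 2) := by
  have h := inner_self_eq_norm_sq_to_K (𝕜 := ℂ) (ι M f)
  rw [inner_ι M hf hf] at h
  have h2 : ((M.E (fun x => f x * f x) : ℝ) : ℂ) = ((‖ι M f‖ ^ 2 : ℝ) : ℂ) := by
    rw [h]
    push_cast
    rfl
  have h3 := Complex.ofReal_injective h2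
  rw [← h3]
  congr 1
  funext x
  ring

theorem norm_ι_le {f : ℤ → ℝ} {C : ℝ} (hC : 0 ≤ C) (h : ∀ x, |f x| ≤ C) : ‖ι M f‖ ≤ C := by
  have hf : Bdd f := ⟨C, h⟩
  have h1 := norm_ι_sq M hf
  have h2 : M.E (fun x => f x ^ 2) ≤ C ^ 2 := by
    apply M.le_const
    · have := hf.mul hf
      simpa [sq] using this
    · intro x
      have := h x
      rw [← sq_abs]
      exact pow_le_pow_left₀ (abs_nonneg _) this 2
  rw [← h1] at h2
  exact (sq_le_sq₀ (norm_nonneg _) hC).1 h2

theorem shC_ι (n : ℤ) {f : ℤ → ℝ} (hf : Bdd f) : shC M n (ι M f) = ι M (fun x => f (x + n)) := by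
  rw [ι_eq M hf, ι_eq M (hf.comp_add n), shC_coe]
  rfl

theorem inner_shC (n : ℤ) (v w : HS M) : inner ℂ v (shC M n w) = inner ℂ (shC M (-n) v) w := by
  have h1 : ∀ a b : HS M, inner ℂ (shC M (-n) a) (shC M (-n) b) = inner ℂ a b := by
    let S : HS M →ₗᵢ[ℂ] HS M := { toLinearMap := (shC M (-n)).toLinearMap, norm_map' := shC_norm M (-n) }
    intro a b
    exact S.inner_map_map a b
  have h2 := h1 v (shC M n w)
  rw [shC_shC, neg_add_cancel, shC_zero] at h2
  exact h2.symm

end HS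

end Pool.Agent.MP_a17b09_nt.OM
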