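import Mathlib

/-!
Splitting vectors of a Hilbert space with a unitary operator `U` into a part fixed by `U ^ K`, a
small part, and a part orthogonal to all vectors fixed by some power of `U`.
-/

set_option autoImplicit false

open Filter Topology

namespace Pool.Agent.MP_a17b09_nt.OM

variable {H : Type*} [NormedAddCommGroup H] [InnerProductSpace ℂ H]

/-- the vectors fixed by `U ^ t` -/
def fixS (U : H ≃ₗᵢ[ℂ] H) (t : ℕ) : Submodule ℂ H where
  carrier := {v | (U ^ t) v = v}
  add_mem' := by
    intro a b ha hb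
    show (U ^ t) (a + b) = a + b
    rw [map_add]
    exact congrArg₂ _ ha hb
  zero_mem' := map_zero _
  smul_mem' := by
    intro c a ha
    show (U ^ t) (c • a) = c • a
    rw [map_smul]
    exact congrArg _ ha

theorem mem_fixS {U : H ≃ₗᵢ[ℂ] H} {t : ℕ} {v : H} : v ∈ fixS U t ↔ (U ^ t) v = v := Iff.rfl

theorem isClosed_fixS (U : H ≃ₗᵢ[ℂ] H) (t : ℕ) : IsClosed (fixS U t : Set H) :=
  isClosed_eq (U ^ t).continuous continuous_id

theorem fix_mul {U : H ≃ₗᵢ[ℂ] H} {t : ℕ} {v : H} (h : (U ^ t) v = v) (n : ℕ) :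
    (U ^ (t * n)) v = v := by
  induction n with
  | zero => rw [mul_zero, pow_zero]; rfl
  | succ n ih =>
    rw [mul_add, mul_one, pow_add]
    show (U ^ (t * n)) ((U ^ t) v) = v
    rw [h, ih]

theorem fixS_mono (U : H ≃ₗᵢ[ℂ] H) {t s : ℕ} (h : t ∣ s) : fixS U t ≤ fixS U s := by
  obtain ⟨n, rfl⟩ := h
  intro v hv
  exact fix_mul hv n

theorem decomp [CompleteSpace H] (U : H ≃ₗᵢ[ℂ] H) (K1 : ℕ) (hK1 : 0 < K1) (ε : ℝ) (hε : 0 < ε)
    {α : Type*} [Finite α] (v : α → H) :
    ∃ K : ℕ, 0 < K ∧ K1 ∣ K ∧ ∃ P : H →L[ℂ] H, (∀ w, (U ^ K) (P w) = P w) ∧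
      (∀ w, (U ^ K) w = w → P w = w) ∧ (∀ w, ‖P w‖ ≤ ‖w‖) ∧
      ∀ a, ∃ w2 w3 : H, v a = P (v a) + w2 + w3 ∧ ‖w2‖ ≤ ε ∧
        ∀ t : ℕ, 0 < t → ∀ z : H, (U ^ t) z = z → inner ℂ z w3 = 0 := by
  classical
  set V : ℕ → Submodule ℂ H := fun i => fixS U (K1 * i.factorial) with hV
  have hcl : ∀ i, IsClosed ((V i : Submodule ℂ H) : Set H) := fun i => isClosed_fixS U _
  have hpr : ∀ i, (V i).HasOrthogonalProjection := fun i => by
    have : CompleteSpace (V i) := (hcl i).completeSpace_coe
    infer_instance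
  have hpr2 : (⨆ i, V i).topologicalClosure.HasOrthogonalProjection := by
    have : CompleteSpace ((⨆ i, V i).topologicalClosure) :=
      (Submodule.isClosed_topologicalClosure _).completeSpace_coe
    infer_instance
  have hmono : Monotone V := by
    intro i j hij
    exact fixS_mono U (Nat.mul_dvd_mul_left _ (Nat.factorial_dvd_factorial hij))
  set W := (⨆ i, V i).topologicalClosure with hW
  have htend : ∀ a, Tendsto (fun i => (V i).starProjection (v a)) atTop
      (𝓝 (W.starProjection (v a))) := fun a =>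
    Submodule.starProjection_tendsto_closure_iSup V hmono (v a)
  have hev : ∀ a, ∀ᶠ i in atTop, ‖W.starProjection (v a) - (V i).starProjection (v a)‖ ≤ ε := by
    intro a
    have h1 := (htend a)
    rw [Metric.tendsto_atTop] at h1
    obtain ⟨N, hN⟩ := h1 ε hε
    rw [eventually_atTop]
    refine ⟨N, fun i hi => ?_⟩
    have h2 := hN i hi
    rw [dist_comm, dist_eq_norm] at h2
    exact h2.le
  have hev2 := eventually_all.2 hev
  obtain ⟨i, hi⟩ := hev2.exists
  refine ⟨K1 * i.factorial, by positivity, Dvd.intro _ rfl, (V i).starProjection, ?_, ?_, ?_, ?_⟩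
  · intro w
    exact (V i).starProjection_apply_mem w
  · intro w hw
    exact Submodule.starProjection_eq_self_iff.2 hw
  · intro w
    exact Submodule.norm_starProjection_apply_le _ w
  · intro a
    refine ⟨W.starProjection (v a) - (V i).starProjection (v a), v a - W.starProjection (v a),
      by abel, hi a, ?_⟩
    intro t ht z hz
    have hzW : z ∈ W := by
      apply Submodule.le_topologicalClosure
      have h1 : z ∈ V t := by
        apply fixS_mono U (t := t) _ hz
        exact (Nat.dvd_factorial ht le_rfl).mul_left K1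
      exact (le_iSup V t) h1
    exact Submodule.sub_starProjection_mem_orthogonal (K := W) (v a) z hzW

end Pool.Agent.MP_a17b09_nt.OM
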