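import Pool.Agent.Lib.MP_a17b09_nt.OM.TK
import Pool.Agent.Lib.MP_a17b09_nt.OM.GNS
import Pool.Agent.Lib.MP_a17b09_nt.OM.Proj

/-!
Bilinear forms over tuples of primes: the structured, the small and the orthogonal parts.
-/

set_option autoImplicit false

namespace Pool.Agent.MP_a17b09_nt.OM

/-- tuples of primes -/
def tup (P : ℕ → Finset ℕ) (j : ℕ) : Finset (Fin j → ℕ) := Fintype.piFinset (fun i : Fin j => P i)

/-- common weight of the tuples -/
noncomputable def cw (P : ℕ → Finset ℕ) (j : ℕ) : ℝ := ∏ i ∈ Finset.range j, (1 / Lsum (P i))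

/-- indicator of the residue classes of a tuple -/
noncomputable def indp {j : ℕ} (r : ℕ → ℤ) (p : Fin j → ℕ) (x : ℤ) : ℝ := ∏ i, ind r (p i) x

/-- product of a tuple -/
def sp {j : ℕ} (p : Fin j → ℕ) : ℕ := ∏ i, p i

theorem mem_tup {P : ℕ → Finset ℕ} {j : ℕ} {p : Fin j → ℕ} : p ∈ tup P j ↔ ∀ i : Fin j, p i ∈ P i := by
  unfold tup
  rw [Fintype.mem_piFinset]

theorem cw_nonneg (P : ℕ → Finset ℕ) (j : ℕ) : 0 ≤ cw P j := by
  unfold cw
  apply Finset.prod_nonneg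
  intro i _
  unfold Lsum
  positivity

theorem indp_nonneg {j : ℕ} (r : ℕ → ℤ) (p : Fin j → ℕ) (x : ℤ) : 0 ≤ indp r p x :=
  Finset.prod_nonneg fun i _ => ind_nonneg r (p i) x

theorem indp_le_one {j : ℕ} (r : ℕ → ℤ) (p : Fin j → ℕ) (x : ℤ) : indp r p x ≤ 1 :=
  Finset.prod_le_one (fun i _ => ind_nonneg r (p i) x) fun i _ => ind_le_one r (p i) x

theorem indp_bdd {j : ℕ} (r : ℕ → ℤ) (p : Fin j → ℕ) : Bdd (indp r p) :=
  ⟨1, fun x => by rw [abs_of_nonneg (indp_nonneg r p x)]; exact indp_le_one r p x⟩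

theorem indp_per {j : ℕ} (r : ℕ → ℤ) (p : Fin j → ℕ) (N : ℤ) (h : (sp p : ℤ) ∣ N) (x : ℤ) :
    indp r p (x + N) = indp r p x := by
  unfold indp
  apply Finset.prod_congr rfl
  intro i _
  apply ind_per
  refine dvd_trans ?_ h
  exact Int.natCast_dvd_natCast.2 (Finset.dvd_prod_of_mem p (Finset.mem_univ i))

theorem sum_tup (r : ℕ → ℤ) (P : ℕ → Finset ℕ) (j : ℕ) (x : ℤ) :
    ∑ p ∈ tup P j, cw P j * indp r p x = NN r P j x := by
  unfold tup cw indp NN nn
  rw [← Finset.mul_sum, Finset.prod_mul_distrib]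
  congr 1
  rw [← Fin.prod_univ_eq_prod_range (fun i => ∑ p ∈ P i, ind r p x) j]
  exact (Finset.prod_univ_sum (fun i : Fin j => P i) (fun _ q => ind r q x)).symm

/-- the inner product with a shifted vector -/
theorem inner_shC_ι (M : Mean) {g f : ℤ → ℝ} (hg : Bdd g) (hf : Bdd f) (n : ℤ) :
    inner ℂ (HS.ι M g) (HS.shC M n (HS.ι M f)) = (M.E (fun x => g x * f (x + n)) : ℂ) := by
  rw [HS.shC_ι M n hf, HS.inner_ι M hg (hf.comp_add n)]

section

variable (M : Mean) (r : ℕ → ℤ) (P : ℕ → Finset ℕ)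
variable (hP : ∀ i, ∀ p ∈ P i, p.Prime) (hd : ∀ i j, i ≠ j → Disjoint (P i) (P j))

/-- the structured part -/
theorem form_str_eq (j : ℕ) {g : ℤ → ℝ} (hg : Bdd g) (v : HS M) :
    ∑ p ∈ tup P j, (cw P j : ℂ) * inner ℂ (HS.ι M (fun x => indp r p x * g x)) v =
      inner ℂ (HS.ι M (fun x => NN r P j x * g x)) v := by
  have h1 : (fun x => NN r P j x * g x) =
      fun x => ∑ p ∈ tup P j, cw P j * (indp r p x * g x) := by
    funext x
    rw [← sum_tup, Finset.sum_mul]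
    exact Finset.sum_congr rfl fun p _ => by ring
  rw [h1, HS.ι_sum M _ _ fun p _ => ((indp_bdd r p).mul hg).smul _, sum_inner]
  apply Finset.sum_congr rfl
  intro p _
  rw [HS.ι_smul M _ ((indp_bdd r p).mul hg), inner_smul_left, Complex.conj_ofReal]

include hP hd in
theorem form_str {L : ℝ} (hL0 : 0 < L) (hL : ∀ i, L ≤ Lsum (P i)) (j : ℕ) {g : ℤ → ℝ} {R : ℝ}
    (hR : 0 ≤ R) (hg : ∀ x, |g x| ≤ R) (v : HS M) :
    ‖∑ p ∈ tup P j, (cw P j : ℂ) * inner ℂ (HS.ι M (fun x => indp r p x * g x)) v -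
      inner ℂ (HS.ι M g) v‖ ≤ R * √((1 + 1 / L) ^ j - 1) * ‖v‖ := by
  have hgb : Bdd g := ⟨R, hg⟩
  rw [form_str_eq M r P j hgb v, ← inner_sub_left, ← HS.ι_sub M ((NN_bdd r P j).mul hgb) hgb]
  refine (norm_inner_le_norm _ _).trans ?_
  apply mul_le_mul_of_nonneg_right _ (norm_nonneg _)
  have hb1 : Bdd (fun x => NN r P j x - 1) := (NN_bdd r P j).sub (Bdd.const 1)
  have e1 : (fun x => NN r P j x * g x - g x) = fun x => (NN r P j x - 1) * g x := by
    funext x; ring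
  rw [e1]
  have h2 := HS.norm_ι_sq M (hb1.mul hgb)
  have hb2 : Bdd (fun x => (NN r P j x - 1) ^ 2) := by
    have := hb1.mul hb1
    simpa [sq] using this
  have h3 : M.E (fun x => ((NN r P j x - 1) * g x) ^ 2) ≤
      M.E (fun x => R ^ 2 * (NN r P j x - 1) ^ 2) := by
    apply M.mono
    · have := (hb1.mul hgb).mul (hb1.mul hgb)
      simpa [sq] using this
    · exact hb2.smul _
    · intro x
      rw [mul_pow, mul_comm]
      apply mul_le_mul_of_nonneg_right _ (sq_nonneg _)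
      rw [← sq_abs]
      exact pow_le_pow_left₀ (abs_nonneg _) (hg x) 2
  rw [M.smul _ _ hb2] at h3
  have h4 := E_NN_sub_one_sq M r P hP hd hL0 hL j
  have h5 : 0 ≤ (1 + 1 / L) ^ j - 1 := by
    have : 1 ≤ (1 + 1 / L) ^ j := one_le_pow₀ (by have := one_div_pos.2 hL0; linarith)
    linarith
  have h6 : ‖HS.ι M (fun x => (NN r P j x - 1) * g x)‖ ^ 2 ≤ (R * √((1 + 1 / L) ^ j - 1)) ^ 2 := by
    rw [h2, mul_pow, Real.sq_sqrt h5]
    exact h3.trans (mul_le_mul_of_nonneg_left h4 (sq_nonneg _))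
  exact (sq_le_sq₀ (norm_nonneg _) (by positivity)).1 h6

include hP hd in
/-- the small part -/
theorem form_mid {L : ℝ} (hL0 : 0 < L) (hL : ∀ i, L ≤ Lsum (P i)) (j : ℕ) {g : ℤ → ℝ} {R : ℝ}
    (hR : 0 ≤ R) (hg : ∀ x, |g x| ≤ R) (n : (Fin j → ℕ) → ℤ) (hn : ∀ p, (sp p : ℤ) ∣ n p)
    (v : HS M) :
    ‖∑ p ∈ tup P j, (cw P j : ℂ) *
      inner ℂ (HS.ι M (fun x => indp r p x * g x)) (HS.shC M (n p) v)‖ ≤
      R * √((1 + 1 / L) ^ j) * ‖v‖ := by
  have hgb : Bdd g := ⟨R, hg⟩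
  have h1 : ∀ p ∈ tup P j, (cw P j : ℂ) *
      inner ℂ (HS.ι M (fun x => indp r p x * g x)) (HS.shC M (n p) v) =
      inner ℂ (HS.ι M (fun x => cw P j * (indp r p x * g (x + -(n p))))) v := by
    intro p _
    rw [HS.inner_shC, HS.shC_ι M _ ((indp_bdd r p).mul hgb),
      HS.ι_smul M _ ((indp_bdd r p).mul (hgb.comp_add _)), inner_smul_left, Complex.conj_ofReal]
    congr 3
    funext x
    rw [indp_per r p _ ((dvd_neg).2 (hn p))]
  rw [Finset.sum_congr rfl h1, ← sum_inner, ← HS.ι_sum M _ _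
    fun p _ => ((indp_bdd r p).mul (hgb.comp_add _)).smul _]
  refine (norm_inner_le_norm _ _).trans ?_
  apply mul_le_mul_of_nonneg_right _ (norm_nonneg _)
  set h : ℤ → ℝ := fun x => ∑ p ∈ tup P j, cw P j * (indp r p x * g (x + -(n p))) with hh
  have hb : Bdd h := Bdd.sum _ _ fun p _ => ((indp_bdd r p).mul (hgb.comp_add _)).smul _
  have habs : ∀ x, |h x| ≤ R * NN r P j x := by
    intro x
    rw [hh, ← sum_tup, Finset.mul_sum]
    refine (Finset.abs_sum_le_sum_abs _ _).trans (Finset.sum_le_sum fun p _ => ?_)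
    rw [abs_mul, abs_mul, abs_of_nonneg (cw_nonneg P j), abs_of_nonneg (indp_nonneg r p x)]
    calc cw P j * (indp r p x * |g (x + -(n p))|) ≤ cw P j * (indp r p x * R) := by
          apply mul_le_mul_of_nonneg_left _ (cw_nonneg P j)
          exact mul_le_mul_of_nonneg_left (hg _) (indp_nonneg r p x)
      _ = R * (cw P j * indp r p x) := by ring
  have hb2 : Bdd (fun x => NN r P j x ^ 2) := by
    have := (NN_bdd r P j).mul (NN_bdd r P j)
    simpa [sq] using this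
  have h3 : M.E (fun x => h x ^ 2) ≤ M.E (fun x => R ^ 2 * NN r P j x ^ 2) := by
    apply M.mono
    · have := hb.mul hb
      simpa [sq] using this
    · exact hb2.smul _
    · intro x
      rw [← sq_abs, ← mul_pow]
      exact pow_le_pow_left₀ (abs_nonneg _) (habs x) 2
  rw [M.smul _ _ hb2] at h3
  have h4 := E_NN_sq M r P hP hd hL0 hL j
  have h5 : 0 ≤ (1 + 1 / L) ^ j := by positivity
  have h6 : ‖HS.ι M h‖ ^ 2 ≤ (R * √((1 + 1 / L) ^ j)) ^ 2 := by
    rw [HS.norm_ι_sq M hb, mul_pow, Real.sq_sqrt h5]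
    exact h3.trans (mul_le_mul_of_nonneg_left h4 (sq_nonneg _))
  exact (sq_le_sq₀ (norm_nonneg _) (by positivity)).1 h6

/-- the norm of the localised function -/
theorem norm_indp_le {j : ℕ} (p : Fin j → ℕ) {g : ℤ → ℝ} {R : ℝ} (hR : 0 ≤ R)
    (hg : ∀ x, |g x| ≤ R) : ‖HS.ι M (fun x => indp r p x * g x)‖ ≤ R := by
  apply HS.norm_ι_le M hR
  intro x
  rw [abs_mul, abs_of_nonneg (indp_nonneg r p x)]
  calc indp r p x * |g x| ≤ 1 * R :=
        mul_le_mul (indp_le_one r p x) (hg x) (abs_nonneg _) zero_le_one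
    _ = R := one_mul R

end

end Pool.Agent.MP_a17b09_nt.OM
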