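import Pool.Agent.Lib.MP_a17b09_nt.OM.CTmain

/-!
The finitary colouring theorem, from the infinitary one by compactness.
-/

set_option autoImplicit false

open Filter Topology

namespace Pool.Agent.MP_a17b09_nt.OM

/-- a function into a finite type is constant along an ultrafilter -/
theorem ultra_const {α : Type*} [Finite α] (U : Ultrafilter ℕ) (f : ℕ → α) :
    ∃ a, ∀ᶠ n in (U : Filter ℕ), f n = a := by
  obtain ⟨a, ha⟩ := Ultrafilter.eq_pure_of_finite (U.map f)
  refine ⟨a, ?_⟩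
  have h1 : ({a} : Set α) ∈ (U.map f : Ultrafilter α) := by
    rw [ha]
    exact Filter.mem_pure.2 rfl
  rw [Ultrafilter.mem_map] at h1
  exact h1

/-- residue as an element of a finite type -/
def fres (p a : ℕ) : Fin (p + 1) := ⟨min (a % p) p, by omega⟩

theorem fres_eq {p a : ℕ} (hp : 0 < p) : ((fres p a : Fin (p + 1)) : ℕ) = a % p := by
  unfold fres
  have := Nat.mod_lt a hp
  simp only
  omega

theorem ct_fin (hD : StDecouple) (hMi : StMinor) : StCT := by
  intro m hm K0 R d0 hK0 hR hd0 y0 c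
  by_contra hno
  push Not at hno
  choose χ r h using hno
  have hm0 : 0 < m := hm.pos
  have : NeZero m := ⟨hm0.ne'⟩
  set U : Ultrafilter ℕ := hyperfilter ℕ with hU
  have hχ : ∀ y : ℕ, ∃ a, ∀ᶠ Y in (U : Filter ℕ), χ Y y = a := fun y =>
    ultra_const U (fun Y => χ Y y)
  choose χ' hχ' using hχ
  have hr : ∀ p : ℕ, ∃ a, ∀ᶠ Y in (U : Filter ℕ), fres p (r Y p) = a := fun p =>
    ultra_const U (fun Y => fres p (r Y p))
  choose r' hr' using hr
  obtain ⟨y, k, hy, hk, hsf, hp, hRy, heq⟩ := ct_inf hD hMi m hm K0 R d0 hK0 hR hd0 (y0 : ℤ) c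
    (fun x => χ' x.toNat) (fun p => (((r' p : Fin (p + 1)) : ℕ) : ℤ)) 0
  obtain ⟨y', rfl⟩ := Int.eq_ofNat_of_zero_le hy
  have e1 : (((y' : ℕ) : ℤ)).toNat = y' := Int.toNat_natCast y'
  have e2 : ((y' : ℤ) + ((d0 * k : ℕ) : ℤ)).toNat = y' + d0 * k := by
    rw [← Nat.cast_add]; exact Int.toNat_natCast _
  simp only [e1, e2] at heq
  have hev1 : ∀ᶠ Y in (U : Filter ℕ), y' + d0 * k ≤ Y :=
    (Nat.hyperfilter_le_atTop) (eventually_ge_atTop _)
  have hev2 : ∀ᶠ Y in (U : Filter ℕ), ∀ p ∈ k.primeFactors, fres p (r Y p) = r' p := by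
    rw [Filter.eventually_all_finset]
    intro p _
    exact hr' p
  obtain ⟨Y, hY1, hY2, hY3, hY4⟩ := (hev1.and (hev2.and ((hχ' y').and (hχ' (y' + d0 * k))))).exists
  apply h Y y' k hY1 hk hsf
  · intro p hpp hpk
    obtain ⟨h1, h2⟩ := hp p hpp hpk
    refine ⟨h1, ?_⟩
    have h3 := hY2 p (Nat.mem_primeFactors.2 ⟨hpp, hpk, hk.ne'⟩)
    have h4 : (((r' p : Fin (p + 1)) : ℕ)) = r Y p % p := by
      rw [← h3]; exact fres_eq hpp.pos
    rw [h4] at h2
    have h5 : r Y p % p ≡ y' [MOD p] := by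
      rw [Nat.modEq_iff_dvd]
      exact h2
    exact (h5.symm.trans (Nat.mod_modEq _ _))
  · have h5 : y0 ≡ y' [MOD R] := by
      rw [Nat.modEq_iff_dvd]
      exact hRy
    exact h5.symm
  · rw [hY3, hY4]
    exact heq

end Pool.Agent.MP_a17b09_nt.OM
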