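import Pool.Agent.Lib.MP_a17b09_nt.OM.ED

/-!
Small mutual information implies near independence (a weak form of the inequality of Pinsker).
-/

set_option autoImplicit false

namespace Pool.Agent.MP_a17b09_nt.OM

section

variable (M : Mean) {α : Type} [DecidableEq α]

theorem prq_nonneg (X : ℤ → α) (q : ℕ) (a : α) (i : ℕ) : 0 ≤ prq M X q a i :=
  M.nonneg _ (bdd_ind _) (fun x => by split_ifs <;> norm_num)

theorem prq_sum_i (X : ℤ → α) (q : ℕ) (hq : 0 < q) (a : α) :
    ∑ i ∈ Finset.range q, prq M X q a i = pr M X a := by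
  have : NeZero q := ⟨hq.ne'⟩
  rw [Finset.sum_congr rfl fun i _ => prq_eq M X q a i]
  rw [sum_range_zmod q (fun j => pr M (fun x => (X x, res q x)) (a, j))]
  exact pr_fst M X (res q) a

theorem pr_sum [Fintype α] (X : ℤ → α) : ∑ a, pr M X a = 1 := by
  unfold pr
  rw [← M.sum _ _ fun b _ => bdd_ind _]
  have h : (fun x => ∑ a, if X x = a then (1 : ℝ) else 0) = fun _ => 1 := by
    funext x
    simp
  rw [h, M.one]

theorem prq_le_pr (X : ℤ → α) (q : ℕ) (a : α) (i : ℕ) : prq M X q a i ≤ pr M X a := by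
  unfold prq pr
  refine M.mono (bdd_ind _) (bdd_ind _) fun x => ?_
  by_cases h : X x = a
  · simp only [h, true_and]
    split_ifs <;> norm_num
  · simp [h]

end

theorem pinsker : StPinsker := by
  intro M A _ _ X q hq
  have hq' : (0 : ℝ) < (q : ℝ) := by exact_mod_cast hq
  obtain ⟨p, hp⟩ : ∃ p : A → ℕ → ℝ, p = prq M X q := ⟨_, rfl⟩
  obtain ⟨P, hP⟩ : ∃ P : A → ℝ, P = pr M X := ⟨_, rfl⟩
  have hp0 : ∀ a i, 0 ≤ p a i := fun a i => by rw [hp]; exact prq_nonneg M X q a i
  have hpP : ∀ a i, p a i ≤ P a := fun a i => by rw [hp, hP]; exact prq_le_pr M X q a i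
  have hP0 : ∀ a, 0 ≤ P a := fun a => by rw [hP]; exact pr_nonneg M X a
  have hsum : ∀ a, ∑ i ∈ Finset.range q, p a i = P a := fun a => by
    rw [hp, hP]; exact prq_sum_i M X q hq a
  have hP1 : ∑ a, P a = 1 := by rw [hP]; exact pr_sum M X
  -- the double sums
  have hs1 : ∑ a, ∑ i ∈ Finset.range q, p a i = 1 := by
    rw [Finset.sum_congr rfl fun a _ => hsum a, hP1]
  have hs2 : ∑ a, ∑ _i ∈ Finset.range q, P a / q = 1 := by
    have : ∀ a, ∑ _i ∈ Finset.range q, P a / q = P a := fun a => by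
      rw [Finset.sum_const, Finset.card_range, nsmul_eq_mul]
      field_simp
    rw [Finset.sum_congr rfl fun a _ => this a, hP1]
  -- the mutual information as a sum
  have hI : Iq M X q = ∑ a, ∑ i ∈ Finset.range q,
      (p a i * (-Real.log (P a)) + p a i * Real.log q - Real.negMulLog (p a i)) := by
    unfold Iq Hn Hq
    rw [← hp, ← hP]
    simp only [Finset.sum_sub_distrib, Finset.sum_add_distrib]
    congr 1
    congr 1
    · refine Finset.sum_congr rfl fun a _ => ?_
      rw [← Finset.sum_mul, hsum]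
      unfold Real.negMulLog
      ring
    · rw [Finset.sum_congr rfl fun a _ => (Finset.sum_mul _ _ _).symm, ← Finset.sum_mul, hs1,
        one_mul]
  have hterm : ∀ a i, (√(p a i) - √(P a / q)) ^ 2 - (P a / q - p a i) ≤
      p a i * (-Real.log (P a)) + p a i * Real.log q - Real.negMulLog (p a i) := by
    intro a i
    rcases (hp0 a i).eq_or_lt with h | h
    · rw [← h]
      simp only [Real.sqrt_zero, zero_sub, neg_sq, zero_mul, Real.negMulLog_zero, sub_zero,
        add_zero]
      rw [Real.sq_sqrt (div_nonneg (hP0 a) hq'.le)]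
      linarith
    · have h1 : 0 < P a := h.trans_le (hpP a i)
      have h2 : 0 < P a / q := div_pos h1 hq'
      have h3 : 0 < √(p a i) := Real.sqrt_pos.2 h
      have h4 : 0 < √(P a / q) := Real.sqrt_pos.2 h2
      have h5 := Real.log_le_sub_one_of_pos (div_pos h4 h3)
      rw [Real.log_div h4.ne' h3.ne', Real.log_sqrt h2.le, Real.log_sqrt h.le,
        Real.log_div h1.ne' hq'.ne'] at h5
      have h6 : √(p a i) * √(p a i) = p a i := Real.mul_self_sqrt h.le
      have h7 : √(P a / q) * √(P a / q) = P a / q := Real.mul_self_sqrt h2.le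
      have h8 : p a i * (√(P a / q) / √(p a i)) = √(p a i) * √(P a / q) := by
        nth_rewrite 1 [← h6]
        field_simp
      have h9 := mul_le_mul_of_nonneg_left h5 h.le
      rw [mul_sub, mul_sub, h8] at h9
      unfold Real.negMulLog
      nlinarith
  have hdist : ∑ a, ∑ i ∈ Finset.range q, (√(p a i) - √(P a / q)) ^ 2 ≤ Iq M X q := by
    rw [hI]
    have h1 : ∑ a, ∑ i ∈ Finset.range q, ((√(p a i) - √(P a / q)) ^ 2 - (P a / q - p a i)) =
        ∑ a, ∑ i ∈ Finset.range q, (√(p a i) - √(P a / q)) ^ 2 := by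
      simp only [Finset.sum_sub_distrib]
      rw [hs1, hs2]
      ring
    rw [← h1]
    exact Finset.sum_le_sum fun a _ => Finset.sum_le_sum fun i _ => hterm a i
  have hI0 : 0 ≤ Iq M X q := le_trans
    (Finset.sum_nonneg fun a _ => Finset.sum_nonneg fun i _ => sq_nonneg _) hdist
  refine ⟨hI0, fun h hh => ?_⟩
  rw [← hp, ← hP]
  -- Cauchy-Schwarz
  have hsq : ∑ a, ∑ i ∈ Finset.range q, (√(p a i) + √(P a / q)) ^ 2 ≤ 4 := by
    have h1 : ∀ a i, (√(p a i) + √(P a / q)) ^ 2 ≤ 2 * p a i + 2 * (P a / q) := by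
      intro a i
      have h6 : √(p a i) ^ 2 = p a i := Real.sq_sqrt (hp0 a i)
      have h7 : √(P a / q) ^ 2 = P a / q := Real.sq_sqrt (div_nonneg (hP0 a) hq'.le)
      nlinarith [sq_nonneg (√(p a i) - √(P a / q))]
    calc _ ≤ ∑ a, ∑ i ∈ Finset.range q, (2 * p a i + 2 * (P a / q)) :=
          Finset.sum_le_sum fun a _ => Finset.sum_le_sum fun i _ => h1 a i
      _ = 4 := by
          simp only [Finset.sum_add_distrib, ← Finset.mul_sum]
          rw [hs1]
          have := hs2
          simp only [Finset.sum_const, Finset.card_range, nsmul_eq_mul] at this ⊢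
          have h2 : ∑ a, (q : ℝ) * (2 * (P a / q)) = 2 * ∑ a, (q : ℝ) * (P a / q) := by
            rw [Finset.mul_sum]
            exact Finset.sum_congr rfl fun a _ => by ring
          linarith
  have habs : |∑ a, ∑ i ∈ Finset.range q, (p a i - P a / q) * h a i| ≤
      ∑ a, ∑ i ∈ Finset.range q, |√(p a i) - √(P a / q)| * (√(p a i) + √(P a / q)) := by
    refine (Finset.abs_sum_le_sum_abs _ _).trans (Finset.sum_le_sum fun a _ => ?_)
    refine (Finset.abs_sum_le_sum_abs _ _).trans (Finset.sum_le_sum fun i _ => ?_)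
    rw [abs_mul, abs_of_nonneg (hh a i).1]
    have h6 : √(p a i) * √(p a i) = p a i := Real.mul_self_sqrt (hp0 a i)
    have h7 : √(P a / q) * √(P a / q) = P a / q :=
      Real.mul_self_sqrt (div_nonneg (hP0 a) hq'.le)
    have h8 : p a i - P a / q = (√(p a i) - √(P a / q)) * (√(p a i) + √(P a / q)) := by
      nlinarith
    have h9 : 0 ≤ √(p a i) + √(P a / q) := add_nonneg (Real.sqrt_nonneg _) (Real.sqrt_nonneg _)
    rw [h8, abs_mul, abs_of_nonneg h9]
    exact mul_le_of_le_one_right (mul_nonneg (abs_nonneg _) h9) (hh a i).2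
  refine habs.trans ?_
  -- Cauchy-Schwarz on the product index set
  have hcs : (∑ a, ∑ i ∈ Finset.range q, |√(p a i) - √(P a / q)| *
      (√(p a i) + √(P a / q))) ^ 2 ≤
      (∑ a, ∑ i ∈ Finset.range q, (√(p a i) - √(P a / q)) ^ 2) *
      (∑ a, ∑ i ∈ Finset.range q, (√(p a i) + √(P a / q)) ^ 2) := by
    have h1 := Finset.sum_mul_sq_le_sq_mul_sq ((Finset.univ : Finset A) ×ˢ Finset.range q)
      (fun x => |√(p x.1 x.2) - √(P x.1 / q)|) (fun x => √(p x.1 x.2) + √(P x.1 / q))
    rw [Finset.sum_product, Finset.sum_product, Finset.sum_product] at h1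
    simpa only [sq_abs] using h1
  have hfin : (∑ a, ∑ i ∈ Finset.range q, |√(p a i) - √(P a / q)| *
      (√(p a i) + √(P a / q))) ^ 2 ≤ (2 * √(Iq M X q)) ^ 2 := by
    refine hcs.trans ?_
    rw [mul_pow, Real.sq_sqrt hI0]
    calc _ ≤ Iq M X q * 4 := mul_le_mul hdist hsq
          (Finset.sum_nonneg fun a _ => Finset.sum_nonneg fun i _ => sq_nonneg _) hI0
      _ = 2 ^ 2 * Iq M X q := by ring
  exact abs_le_of_sq_le_sq' hfin (by positivity) |>.2

end Pool.Agent.MP_a17b09_nt.OM
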