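import Mathlib

/-!
Operator inequalities for unitary operators from inequalities of polynomials on the unit circle.
-/

set_option autoImplicit false

open Filter Topology Polynomial
open scoped ComplexOrder InnerProductSpace

namespace Pool.Agent.MP_a17b09_nt.OM

section

variable {H : Type} [NormedAddCommGroup H] [InnerProductSpace ℂ H] [CompleteSpace H]

/-- polynomial inequality on the unit circle gives an operator inequality -/
theorem op_ineq (a : H →L[ℂ] H) (ha : a ∈ unitary (H →L[ℂ] H)) (P : ℂ[X]) {ι : Type}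
    (s : Finset ι) (G : ι → ℂ[X]) (κ : ℝ)
    (h : ∀ z : ℂ, ‖z‖ = 1 → ‖P.eval z‖ ^ 2 ≤ κ ^ 2 + 4 * ∑ t ∈ s, ‖(G t).eval z‖ ^ 2) (f : H) :
    ‖aeval a P f‖ ^ 2 ≤ κ ^ 2 * ‖f‖ ^ 2 + 4 * ∑ t ∈ s, ‖aeval a (G t) f‖ ^ 2 := by
  have hn : IsStarNormal a := by
    refine ⟨?_⟩
    have h1 := Unitary.star_mul_self_of_mem ha
    have h2 := Unitary.mul_star_self_of_mem ha
    exact (h1.trans h2.symm)
  have hsq : ∀ Q : ℂ[X], cfc (fun z : ℂ => star (Q.eval z) * Q.eval z) a =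
      star (aeval a Q) * aeval a Q := by
    intro Q
    rw [cfc_mul (fun z : ℂ => star (Q.eval z)) (fun z : ℂ => Q.eval z) a, cfc_star,
      cfc_polynomial Q a hn]
  have hF : cfc (fun z : ℂ => ((κ ^ 2 : ℝ) : ℂ) + (4 : ℂ) * (∑ t ∈ s, star ((G t).eval z) * (G t).eval z) -
      star (P.eval z) * P.eval z) a = algebraMap ℂ (H →L[ℂ] H) ((κ ^ 2 : ℝ) : ℂ) +
        (4 : ℂ) • (∑ t ∈ s, star (aeval a (G t)) * aeval a (G t)) - star (aeval a P) * aeval a P := by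
    rw [cfc_sub (fun z : ℂ => ((κ ^ 2 : ℝ) : ℂ) + (4 : ℂ) * (∑ t ∈ s, star ((G t).eval z) * (G t).eval z))
      (fun z : ℂ => star (P.eval z) * P.eval z) a]
    rw [cfc_add (a := a) (fun z : ℂ => ((κ ^ 2 : ℝ) : ℂ)) (fun z : ℂ => (4 : ℂ) * (∑ t ∈ s, star ((G t).eval z) * (G t).eval z))]
    rw [cfc_const _ a hn, cfc_const_mul (4 : ℂ)
      (fun z : ℂ => ∑ t ∈ s, star ((G t).eval z) * (G t).eval z) a, hsq]
    have hs : cfc (fun z : ℂ => ∑ t ∈ s, star ((G t).eval z) * (G t).eval z) a =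
        ∑ t ∈ s, star (aeval a (G t)) * aeval a (G t) := by
      have h1 : (fun z : ℂ => ∑ t ∈ s, star ((G t).eval z) * (G t).eval z) =
          ∑ t ∈ s, fun z : ℂ => star ((G t).eval z) * (G t).eval z := by
        ext z
        simp
      rw [h1, cfc_sum (fun t z => star ((G t).eval z) * (G t).eval z) a s]
      exact Finset.sum_congr rfl fun t _ => hsq (G t)
    rw [hs]
  have h0 : 0 ≤ cfc (fun z : ℂ => ((κ ^ 2 : ℝ) : ℂ) + (4 : ℂ) * (∑ t ∈ s, star ((G t).eval z) * (G t).eval z) -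
      star (P.eval z) * P.eval z) a := by
    apply cfc_nonneg
    intro z hz
    have hz1 : ‖z‖ = 1 := spectrum.norm_eq_one_of_unitary ha hz
    have h1 := h z hz1
    have h2 : ∀ w : ℂ, star w * w = ((‖w‖ ^ 2 : ℝ) : ℂ) := by
      intro w
      rw [Complex.star_def, Complex.conj_mul']
      push_cast
      rfl
    simp_rw [h2]
    rw [← Complex.ofReal_sum]
    have h3 : (((κ ^ 2 : ℝ) : ℂ) + (4 : ℂ) * ((∑ t ∈ s, ‖(G t).eval z‖ ^ 2 : ℝ) : ℂ) -
        ((‖P.eval z‖ ^ 2 : ℝ) : ℂ)) = ((κ ^ 2 + 4 * ∑ t ∈ s, ‖(G t).eval z‖ ^ 2 - ‖P.eval z‖ ^ 2 : ℝ) : ℂ) := by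
      push_cast
      rfl
    rw [h3]
    rw [Complex.zero_le_real]
    linarith
  rw [hF] at h0
  have h4 := (ContinuousLinearMap.nonneg_iff_isPositive _).mp h0
  have h5 := h4.re_inner_nonneg_right f
  have h6 : ∀ B : H →L[ℂ] H, ⟪f, (star B * B) f⟫_ℂ = ((‖B f‖ ^ 2 : ℝ) : ℂ) := by
    intro B
    rw [mul_apply_eq_comp, ContinuousLinearMap.star_eq_adjoint,
      ContinuousLinearMap.adjoint_inner_right, inner_self_eq_norm_sq_to_K]
    push_cast
    rfl
  have h7 : ⟪f, (algebraMap ℂ (H →L[ℂ] H) ((κ ^ 2 : ℝ) : ℂ) +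
        (4 : ℂ) • (∑ t ∈ s, star (aeval a (G t)) * aeval a (G t)) -
        star (aeval a P) * aeval a P) f⟫_ℂ =
      ((κ ^ 2 * ‖f‖ ^ 2 + 4 * ∑ t ∈ s, ‖aeval a (G t) f‖ ^ 2 - ‖aeval a P f‖ ^ 2 : ℝ) : ℂ) := by
    rw [sub_apply, add_apply, inner_sub_right,
      inner_add_right, h6, smul_apply, inner_smul_right,
      sum_apply, inner_sum, Finset.sum_congr rfl fun t _ => h6 (aeval a (G t))]
    rw [Algebra.algebraMap_eq_smul_one, smul_apply, inner_smul_right,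
      one_apply_eq_self, inner_self_eq_norm_sq_to_K]
    push_cast
    rfl
  rw [h7] at h5
  have h8 : 0 ≤ κ ^ 2 * ‖f‖ ^ 2 + 4 * ∑ t ∈ s, ‖aeval a (G t) f‖ ^ 2 - ‖aeval a P f‖ ^ 2 := h5
  linarith

/-- mean ergodic theorem for a vector orthogonal to the fixed vectors -/
theorem erg (a : H →L[ℂ] H) (ha : ‖a‖ ≤ 1) (f : H) (hf : ∀ v : H, a v = v → ⟪v, f⟫_ℂ = 0) :
    Tendsto (fun m : ℕ => ‖(m : ℂ)⁻¹ • ∑ i ∈ Finset.range m, (a ^ i) f‖) atTop (𝓝 0) := by
  have h1 := a.tendsto_birkhoffAverage_orthogonalProjection ha f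
  have h2 : ((a.eqLocus (1 : H →L[ℂ] H)).orthogonalProjectionOnto f : H) = 0 := by
    have h3 : (a.eqLocus (1 : H →L[ℂ] H)).orthogonalProjectionOnto f = 0 := by
      rw [Submodule.orthogonalProjectionOnto_eq_zero_iff]
      rw [Submodule.mem_orthogonal]
      intro v hv
      apply hf v
      exact hv
    rw [h3]
    rfl
  rw [h2] at h1
  have h4 := h1.norm
  rw [norm_zero] at h4
  refine h4.congr fun m => ?_
  rw [birkhoffAverage, birkhoffSum]
  congr 2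
  apply Finset.sum_congr rfl
  intro i _
  have := congrFun (FunLike.coe_pow_eq_iterate a i) f
  exact this.symm

end

end Pool.Agent.MP_a17b09_nt.OM
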