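import Pool.Agent.Lib.MP_a17b09_nt.OM.Form

/-!
The averaged bilinear form is close to its structured main term.
-/

set_option autoImplicit false

namespace Pool.Agent.MP_a17b09_nt.OM

theorem shC_fix_nat {M : Mean} {K : ℕ} {v : HS M} (h : (HS.U M ^ K) v = v) (n : ℕ) :
    HS.shC M ((K * n : ℕ) : ℤ) v = v := by
  rw [← HS.U_pow]
  exact fix_mul h n

theorem shC_congr {M : Mean} {K : ℕ} {v : HS M} (h : (HS.U M ^ K) v = v) {a b : ℕ}
    (hab : a ≡ b [MOD K]) : HS.shC M (a : ℤ) v = HS.shC M (b : ℤ) v := by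
  have key : ∀ a b : ℕ, a ≤ b → a ≡ b [MOD K] → HS.shC M (a : ℤ) v = HS.shC M (b : ℤ) v := by
    intro a b hle hab
    obtain ⟨n, hn⟩ := (Nat.modEq_iff_dvd' hle).1 hab
    have hb : b = a + K * n := by omega
    have : ((b : ℕ) : ℤ) = (a : ℤ) + ((K * n : ℕ) : ℤ) := by
      rw [hb]; push_cast; ring
    rw [this, ← HS.shC_shC, shC_fix_nat h n]
  rcases le_total a b with hle | hle
  · exact key a b hle hab
  · exact (key b a hle hab.symm).symm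

theorem sp_modEq {K : ℕ} {P : ℕ → Finset ℕ} (hP1 : ∀ i, ∀ p ∈ P i, p ≡ 1 [MOD K]) {j : ℕ}
    {p : Fin j → ℕ} (hp : p ∈ tup P j) : sp p ≡ 1 [MOD K] := by
  unfold sp
  have : ∀ s : Finset (Fin j), ∏ i ∈ s, p i ≡ 1 [MOD K] := by
    classical
    intro s
    induction s using Finset.induction with
    | empty => simp; rfl
    | insert a s ha ih =>
      rw [Finset.prod_insert ha]
      exact (hP1 _ _ (mem_tup.1 hp a)).mul ih
  exact this _

section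

variable (M : Mean) (r : ℕ → ℤ) (P : ℕ → Finset ℕ)
variable (hP : ∀ i, ∀ p ∈ P i, p.Prime) (hd : ∀ i j, i ≠ j → Disjoint (P i) (P j))

include hP hd in
theorem form_total {K : ℕ} (hP1 : ∀ i, ∀ p ∈ P i, p ≡ 1 [MOD K]) {L : ℝ} (hL0 : 0 < L)
    (hL : ∀ i, L ≤ Lsum (P i)) (j : ℕ) {g : ℤ → ℝ} {R : ℝ} (hR : 0 ≤ R) (hg : ∀ x, |g x| ≤ R)
    {F : ℤ → ℝ} (hF : ∀ x, |F x| ≤ 1) (d0 e : ℕ) (hQ : 0 < (QQ K e).card) (v1 w2 w3 : HS M)
    (hv : HS.ι M F = v1 + w2 + w3) (hfix : (HS.U M ^ K) v1 = v1) :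
    ‖(((1 / ((QQ K e).card : ℝ)) * ∑ q ∈ QQ K e, ∑ p ∈ tup P j, cw P j *
      M.E (fun x => indp r p x * g x * F (x + ((d0 * sp p * q : ℕ) : ℤ))) : ℝ) : ℂ) -
      inner ℂ (HS.ι M g) (HS.shC M (d0 : ℤ) v1)‖ ≤
      R * √((1 + 1 / L) ^ j - 1) * ‖v1‖ + R * √((1 + 1 / L) ^ j) * ‖w2‖ +
      ∑ p ∈ tup P j, cw P j * (R * ((1 / ((QQ K e).card : ℝ)) *
        ‖∑ q ∈ QQ K e, (HS.U M ^ (d0 * sp p * q)) w3‖)) := by
  have hgb : Bdd g := ⟨R, hg⟩
  have hFb : Bdd F := ⟨1, hF⟩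
  set n : ℝ := ((QQ K e).card : ℝ) with hn
  have hn0 : 0 < n := by rw [hn]; exact_mod_cast hQ
  -- abbreviations
  set G : (Fin j → ℕ) → HS M := fun p => HS.ι M (fun x => indp r p x * g x) with hG
  have hGn : ∀ p, ‖G p‖ ≤ R := fun p => norm_indp_le M r p hR hg
  -- the three parts for a given `q`
  set A : ℂ := ∑ p ∈ tup P j, (cw P j : ℂ) * inner ℂ (G p) (HS.shC M (d0 : ℤ) v1) with hA
  set B : ℕ → ℂ := fun q => ∑ p ∈ tup P j, (cw P j : ℂ) *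
    inner ℂ (G p) (HS.shC M ((d0 * sp p * q : ℕ) : ℤ) w2) with hB
  set C : ℕ → ℂ := fun q => ∑ p ∈ tup P j, (cw P j : ℂ) *
    inner ℂ (G p) (HS.shC M ((d0 * sp p * q : ℕ) : ℤ) w3) with hC
  have hq : ∀ q ∈ QQ K e, ((∑ p ∈ tup P j, cw P j *
      M.E (fun x => indp r p x * g x * F (x + ((d0 * sp p * q : ℕ) : ℤ))) : ℝ) : ℂ) =
      A + B q + C q := by
    intro q hqq
    rw [hA, hB, hC]
    push_cast
    rw [← Finset.sum_add_distrib, ← Finset.sum_add_distrib]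
    apply Finset.sum_congr rfl
    intro p hp
    have h1 := inner_shC_ι M ((indp_bdd r p).mul hgb) hFb ((d0 * sp p * q : ℕ) : ℤ)
    rw [hv, map_add, map_add, inner_add_right, inner_add_right] at h1
    have h2 : HS.shC M ((d0 * sp p * q : ℕ) : ℤ) v1 = HS.shC M (d0 : ℤ) v1 := by
      apply shC_congr hfix
      have h3 := sp_modEq hP1 hp
      have h4 := (mem_QQ.1 hqq).2.2
      calc d0 * sp p * q ≡ d0 * 1 * 1 [MOD K] := ((Nat.ModEq.refl d0).mul h3).mul h4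
        _ = d0 := by ring
    rw [h2] at h1
    push_cast at h1
    rw [← h1]
    ring
  have htot : (((1 / n) * ∑ q ∈ QQ K e, ∑ p ∈ tup P j, cw P j *
      M.E (fun x => indp r p x * g x * F (x + ((d0 * sp p * q : ℕ) : ℤ))) : ℝ) : ℂ) =
      A + (1 / n : ℂ) * ∑ q ∈ QQ K e, B q + (1 / n : ℂ) * ∑ q ∈ QQ K e, C q := by
    have h1 : ((∑ q ∈ QQ K e, ∑ p ∈ tup P j, cw P j *
      M.E (fun x => indp r p x * g x * F (x + ((d0 * sp p * q : ℕ) : ℤ))) : ℝ) : ℂ) =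
      ∑ q ∈ QQ K e, (A + B q + C q) := by
      rw [Complex.ofReal_sum]
      exact Finset.sum_congr rfl hq
    rw [Complex.ofReal_mul, h1, Finset.sum_add_distrib, Finset.sum_add_distrib, Finset.sum_const,
      nsmul_eq_mul]
    have hn1 : ((QQ K e).card : ℂ) = (n : ℂ) := by rw [hn]; push_cast; rfl
    have hn2 : (n : ℂ) ≠ 0 := by exact_mod_cast hn0.ne'
    rw [hn1]
    push_cast
    field_simp
  rw [htot]
  have hA' : ‖A - inner ℂ (HS.ι M g) (HS.shC M (d0 : ℤ) v1)‖ ≤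
      R * √((1 + 1 / L) ^ j - 1) * ‖v1‖ := by
    have := form_str M r P hP hd hL0 hL j hR hg (HS.shC M (d0 : ℤ) v1)
    rwa [HS.shC_norm] at this
  have hB' : ‖(1 / n : ℂ) * ∑ q ∈ QQ K e, B q‖ ≤ R * √((1 + 1 / L) ^ j) * ‖w2‖ := by
    have h1 : ∀ q ∈ QQ K e, ‖B q‖ ≤ R * √((1 + 1 / L) ^ j) * ‖w2‖ := by
      intro q _
      apply form_mid M r P hP hd hL0 hL j hR hg (fun p => ((d0 * sp p * q : ℕ) : ℤ))
      intro p
      exact Int.natCast_dvd_natCast.2 ((Dvd.intro_left d0 rfl).mul_right q)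
    have h2 := (norm_sum_le _ _).trans (Finset.sum_le_sum h1)
    rw [Finset.sum_const, nsmul_eq_mul, ← hn] at h2
    rw [norm_mul, show ‖(1 / n : ℂ)‖ = 1 / n by
      rw [norm_div, norm_one, Complex.norm_real, Real.norm_of_nonneg hn0.le], one_div,
      inv_mul_le_iff₀ hn0]
    exact h2
  have hC' : ‖(1 / n : ℂ) * ∑ q ∈ QQ K e, C q‖ ≤ ∑ p ∈ tup P j, cw P j * (R * ((1 / n) *
        ‖∑ q ∈ QQ K e, (HS.U M ^ (d0 * sp p * q)) w3‖)) := by
    have h1 : (1 / n : ℂ) * ∑ q ∈ QQ K e, C q = ∑ p ∈ tup P j, (cw P j : ℂ) *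
        inner ℂ (G p) ((1 / n : ℂ) • ∑ q ∈ QQ K e, (HS.U M ^ (d0 * sp p * q)) w3) := by
      rw [hC]
      simp only
      rw [Finset.sum_comm, Finset.mul_sum]
      apply Finset.sum_congr rfl
      intro p _
      rw [inner_smul_right, inner_sum, ← Finset.mul_sum]
      have : ∀ q ∈ QQ K e, inner ℂ (G p) (HS.shC M ((d0 * sp p * q : ℕ) : ℤ) w3) =
          inner ℂ (G p) ((HS.U M ^ (d0 * sp p * q)) w3) := by
        intro q _
        rw [HS.U_pow]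
      rw [Finset.sum_congr rfl this]
      ring
    rw [h1]
    refine (norm_sum_le _ _).trans (Finset.sum_le_sum fun p _ => ?_)
    rw [norm_mul, Complex.norm_real, Real.norm_of_nonneg (cw_nonneg P j)]
    apply mul_le_mul_of_nonneg_left _ (cw_nonneg P j)
    refine (norm_inner_le_norm _ _).trans ?_
    rw [norm_smul, show ‖(1 / n : ℂ)‖ = 1 / n by
      rw [norm_div, norm_one, Complex.norm_real, Real.norm_of_nonneg hn0.le]]
    exact mul_le_mul_of_nonneg_right (hGn p) (by positivity)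
  calc ‖A + (1 / n : ℂ) * ∑ q ∈ QQ K e, B q + (1 / n : ℂ) * ∑ q ∈ QQ K e, C q -
      inner ℂ (HS.ι M g) (HS.shC M (d0 : ℤ) v1)‖ =
      ‖(A - inner ℂ (HS.ι M g) (HS.shC M (d0 : ℤ) v1)) + (1 / n : ℂ) * ∑ q ∈ QQ K e, B q +
        (1 / n : ℂ) * ∑ q ∈ QQ K e, C q‖ := by
        congr 1; ring
    _ ≤ ‖A - inner ℂ (HS.ι M g) (HS.shC M (d0 : ℤ) v1)‖ + ‖(1 / n : ℂ) * ∑ q ∈ QQ K e, B q‖ +
        ‖(1 / n : ℂ) * ∑ q ∈ QQ K e, C q‖ := by
        refine (norm_add_le _ _).trans ?_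
        exact add_le_add_left (norm_add_le _ _) _
    _ ≤ _ := add_le_add (add_le_add hA' hB') hC'

end

end Pool.Agent.MP_a17b09_nt.OM
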