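import Pool.Agent.Lib.MP_a17b09_nt.OM.CTinf

/-!
The colouring theorem for colourings of the integers, from the decoupling and the minor arc
statements: main part.
-/

set_option autoImplicit false

open Filter Topology

namespace Pool.Agent.MP_a17b09_nt.OM

theorem al1 (R δ : ℝ) (hR : 0 < R) : R * (δ / R) * 1 = δ := by field_simp

theorem al2 (R δ : ℝ) (hR : 0 < R) : R * 2 * (δ / (2 * R)) = δ := by field_simp

theorem al3 (t c R δ T : ℝ) (hR : 0 < R) (hT : 0 < T) :
    t * (c * (R * (δ / (R * T)))) = (c * t) * (δ / T) := by field_simp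

theorem al4 (T δ : ℝ) (hT : 0 < T) : T * (δ / T) = δ := by field_simp

theorem al5 (t c R δ T n : ℝ) (hR : 0 < R) (hT : 0 < T) (hn : 0 < n) :
    (1 / n) * (t * (c * (R * ((δ / (R * T)) * n)))) = (c * t) * (δ / T) := by field_simp

theorem ct_inf (hD : StDecouple) (hMi : StMinor) (m : ℕ) (hm : Odd m) (K0 R d0 : ℕ) (hK0 : 0 < K0)
    (hR : 0 < R) (hd0 : 0 < d0) (y0 : ℤ) (c : ZMod m) (χ : ℤ → ZMod m) (r : ℕ → ℤ) (X0 : ℤ) :
    ∃ (y : ℤ) (k : ℕ), X0 ≤ y ∧ 0 < k ∧ Squarefree k ∧
      (∀ p : ℕ, p.Prime → p ∣ k → p ≡ 1 [MOD K0] ∧ (p : ℤ) ∣ y - r p) ∧ (R : ℤ) ∣ y - y0 ∧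
      χ y + χ (y + ((d0 * k : ℕ) : ℤ)) =
        c + 2 * ((ArithmeticFunction.cardFactors k : ℕ) : ZMod m) := by
  classical
  by_contra hno
  push Not at hno
  obtain ⟨M⟩ := exists_mean
  have hm0 : 0 < m := hm.pos
  have : NeZero m := ⟨hm0.ne'⟩
  have hmR : (0 : ℝ) < m := by exact_mod_cast hm0
  have hRR : (0 : ℝ) < R := by exact_mod_cast hR
  set δ : ℝ := 1 / (8 * (m : ℝ) ^ 2) with hδ
  have hδ0 : 0 < δ := by positivity
  -- the structured part
  obtain ⟨K, hK, hK0K, Pj, hPfix, hPid, hPn, hdec⟩ := decomp (HS.U M) K0 hK0 (δ / (2 * R))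
    (by positivity) (fun a : ZMod m => HS.ι M (col χ a))
  choose w2 w3 hdec1 hdec2 hdec3 using hdec
  -- the sets of primes
  obtain ⟨L, hL0, hL⟩ := exists_L m (min ((δ / R) ^ 2) 3) (by positivity)
  obtain ⟨P, hP, hd, hLs⟩ := exists_sets K hK L 0
  have hPp : ∀ i, ∀ p ∈ P i, p.Prime := fun i p hp => (hP i p hp).1
  have hP1 : ∀ i, ∀ p ∈ P i, p ≡ 1 [MOD K] := fun i p hp => (hP i p hp).2.1
  set T : ℝ := ∑ j ∈ Finset.range m, cw P j * ((tup P j).card : ℝ) + 1 with hT
  have hTj : ∀ j ∈ Finset.range m, cw P j * ((tup P j).card : ℝ) ≤ T := by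
    intro j hj
    have := Finset.single_le_sum (f := fun j => cw P j * ((tup P j).card : ℝ))
      (fun i _ => mul_nonneg (cw_nonneg P i) (Nat.cast_nonneg _)) hj
    rw [hT]
    linarith
  have hT0 : 0 < T := by
    have : 0 ≤ ∑ j ∈ Finset.range m, cw P j * ((tup P j).card : ℝ) :=
      Finset.sum_nonneg fun i _ => mul_nonneg (cw_nonneg P i) (Nat.cast_nonneg _)
    rw [hT]; linarith
  -- the minor arcs
  have hev1 : ∀ᶠ e in atTop, ∀ j ∈ Finset.range m, ∀ p ∈ tup P j, ∀ a : ZMod m,
      (1 / ((QQ K e).card : ℝ)) * ‖∑ q ∈ QQ K e, (HS.U M ^ (d0 * sp p * q)) (w3 a)‖ ≤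
        δ / (R * T) := by
    rw [Filter.eventually_all_finset]
    intro j _
    rw [Filter.eventually_all_finset]
    intro p hp
    rw [Filter.eventually_all]
    intro a
    have hsp : 0 < sp p := by
      unfold sp
      exact Finset.prod_pos fun i _ => (hPp _ _ (mem_tup.1 hp i)).pos
    have h1 := hMi (HS M) (HS.U M) (w3 a) (fun t ht z hz => hdec3 a t ht z hz) K hK (d0 * sp p)
      (by positivity)
    exact h1.eventually_le_const (by positivity)
  obtain ⟨c1, hc1, e0, he0, hQlow⟩ := QQ_lower K hK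
  obtain ⟨E1, hE1⟩ := eventually_atTop.1 hev1
  -- alphabets
  have hModpos : 0 < Mod P m := by
    unfold Mod
    exact Finset.prod_pos fun i _ => Finset.prod_pos fun p hp => (hPp i p hp).pos
  set N : ℕ := R * Mod P m with hN
  have hN0 : 0 < N := by positivity
  have : NeZero N := ⟨hN0.ne'⟩
  have hdvdN : ∀ j ∈ Finset.range m, ∀ p ∈ tup P j, ∀ i, (p i : ℤ) ∣ (N : ℤ) := by
    intro j hj p hp i
    apply Int.natCast_dvd_natCast.2
    apply Dvd.dvd.mul_left
    exact dvd_Mod P (lt_trans i.2 (Finset.mem_range.1 hj)) (mem_tup.1 hp i)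
  have hRN : (R : ℤ) ∣ (N : ℤ) := Int.natCast_dvd_natCast.2 (Dvd.intro _ rfl)
  have hle : ∀ j ∈ Finset.range m, ∀ p ∈ tup P j, ∀ i, p i ≤ Mod P m := by
    intro j hj p hp i
    exact Nat.le_of_dvd hModpos (dvd_Mod P (lt_trans i.2 (Finset.mem_range.1 hj)) (mem_tup.1 hp i))
  have hspN : ∀ j ∈ Finset.range m, ∀ p ∈ tup P j, sp p ≤ (Mod P m) ^ m := by
    intro j hj p hp
    unfold sp
    calc ∏ i, p i ≤ ∏ _i : Fin j, Mod P m := Finset.prod_le_prod' fun i _ => hle j hj p hp i
      _ = (Mod P m) ^ j := by rw [Finset.prod_const, Finset.card_univ, Fintype.card_fin]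
      _ ≤ (Mod P m) ^ m := Nat.pow_le_pow_right hModpos (Finset.mem_range.1 hj).le
  -- decoupling
  obtain ⟨e, he, hdecp⟩ := hD M (ZMod m × ZMod N) (phi χ N) K hK (d0 * (Mod P m) ^ m)
    (δ / (R * T)) (by positivity) (max (max E1 e0) (Mod P m))
  have heE1 : E1 ≤ e := by omega
  have hee0 : e0 ≤ e := by omega
  have heM : Mod P m ≤ e := by omega
  have hQpos : 0 < (QQ K e).card := by
    have h1 := hQlow e hee0
    have h2 : 0 < c1 * 2 ^ e / e := by
      have : (0 : ℝ) < e := by
        have : 0 < e := by omega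
        exact_mod_cast this
      positivity
    have h3 : (0 : ℝ) < ((QQ K e).card : ℝ) := lt_of_lt_of_le h2 h1
    exact_mod_cast h3
  have hqbig : ∀ q ∈ QQ K e, Mod P m < q := by
    intro q hq
    have h1 := (mem_QQ.1 hq).1.1
    have h2 := Nat.lt_two_pow_self (n := e)
    omega
  set n : ℝ := ((QQ K e).card : ℝ) with hn
  have hn0 : 0 < n := by rw [hn]; exact_mod_cast hQpos
  -- upper bound for the pair probabilities
  have hub : ∀ j ∈ Finset.range m, ∀ p ∈ tup P j, ∀ a : ZMod m,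
      ∑ q ∈ QQ K e, M.E (fun x => Psi r R y0 a (c + 2 * ((j : ZMod m) + 1) - a) p (phi χ N x)
        (phi χ N (x + ((d0 * sp p * q : ℕ) : ℤ)))) ≤ (δ / (R * T)) * n := by
    intro j hj p hp a
    have h1 := hdecp r (fun _ => d0 * sp p)
      (fun _ => Psi r R y0 a (c + 2 * ((j : ZMod m) + 1) - a) p)
      (fun _ => Nat.mul_le_mul_left _ (hspN j hj p hp)) (fun _ α β => Psi_mem r R y0 _ _ p α β)
    refine le_trans (Finset.sum_le_sum fun q hq => ?_) h1
    have hqp := (mem_QQ.1 hq).2.1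
    have hzero : M.E (fun x => if (q : ℤ) ∣ x - r q then
          (q : ℝ) * Psi r R y0 a (c + 2 * ((j : ZMod m) + 1) - a) p (phi χ N x)
        (phi χ N (x + ((d0 * sp p * q : ℕ) : ℤ))) else 0) = 0 := by
      apply M.null
      · refine ⟨q, fun x => ?_⟩
        have hb := Psi_mem (m := m) (N := N) r R y0 a (c + 2 * ((j : ZMod m) + 1) - a) p (phi χ N x)
          (phi χ N (x + ((d0 * sp p * q : ℕ) : ℤ)))
        beta_reduce
        split_ifs
        · rw [abs_mul, abs_of_nonneg (Nat.cast_nonneg q), abs_of_nonneg hb.1]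
          exact mul_le_of_le_one_right (Nat.cast_nonneg q) hb.2
        · rw [abs_zero]; exact Nat.cast_nonneg q
      · refine ⟨X0, fun x hx => ?_⟩
        split_ifs with hqx
        · rw [Psi_phi χ r R y0 _ _ p (hdvdN j hj p hp) hRN, if_neg, mul_zero]
          rintro ⟨ha, hb, hpx, hRx⟩
          have hpi : ∀ i, (p i).Prime := fun i => hPp _ _ (mem_tup.1 hp i)
          have hqne : ∀ i, q ≠ p i := by
            intro i hqi
            have h2 := hqbig q hq
            have h3 := hle j hj p hp i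
            omega
          have hcop : Nat.Coprime (sp p) q := by
            unfold sp
            apply Nat.Coprime.prod_left
            intro i _
            rw [Nat.coprime_primes (hpi i) hqp]
            exact fun h => hqne i h.symm
          have hsf : Squarefree (sp p * q) := by
            rw [Nat.squarefree_mul hcop]
            refine ⟨squarefree_sp p hpi ?_, hqp.squarefree⟩
            intro i i' hii h
            have h2 : (i : ℕ) ≠ (i' : ℕ) := fun h' => hii (Fin.ext h')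
            have h3 := mem_tup.1 hp i'
            rw [← h] at h3
            exact Finset.disjoint_left.1 (hd _ _ h2) (mem_tup.1 hp i) h3
          have hsp0 : sp p ≠ 0 := by
            unfold sp
            exact Finset.prod_ne_zero_iff.2 fun i _ => (hpi i).ne_zero
          apply hno x (sp p * q) hx (Nat.pos_of_ne_zero (mul_ne_zero hsp0 hqp.ne_zero)) hsf _ hRx
          · have e1 : ((d0 * (sp p * q) : ℕ) : ℤ) = ((d0 * sp p * q : ℕ) : ℤ) := by
              rw [mul_assoc]
            rw [e1, ha, hb, ArithmeticFunction.cardFactors_mul hsp0 hqp.ne_zero, Omega_prod p hpi,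
              ArithmeticFunction.cardFactors_apply_prime hqp]
            push_cast
            ring
          · intro p' hp' hdiv
            rcases (Nat.Prime.dvd_mul hp').1 hdiv with h2 | h2
            · unfold sp at h2
              obtain ⟨i, _, hi⟩ := (hp'.prime.dvd_finsetProd_iff _).1 h2
              have h3 := (Nat.prime_dvd_prime_iff_eq hp' (hpi i)).1 hi
              rw [h3]
              exact ⟨(hP1 _ _ (mem_tup.1 hp i)).of_dvd hK0K, hpx i⟩
            · have h3 := (Nat.prime_dvd_prime_iff_eq hp' hqp).1 h2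
              rw [h3]
              exact ⟨((mem_QQ.1 hq).2.2).of_dvd hK0K, hqx⟩
        · rfl
    rw [hzero, zero_sub, abs_neg]
    exact le_abs_self _
  -- the main terms are small
  have hmain : ∀ j ∈ Finset.range m, ∀ a : ZMod m,
      (inner ℂ (HS.ι M (fun x => wt R y0 x * col χ a x)) (HS.shC M (d0 : ℤ)
        (Pj (HS.ι M (col χ (c + 2 * ((j : ZMod m) + 1) - a)))))).re ≤ 4 * δ := by
    intro j hj a
    set b : ZMod m := c + 2 * ((j : ZMod m) + 1) - a with hb
    have h1 := form_total M r P hPp hd hP1 hL0 hLs j (g := fun x => wt R y0 x * col χ a x)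
      (R := R) hRR.le (wtcol_abs χ a R y0) (F := col χ b) (col_abs χ b) d0 e hQpos
      (Pj (HS.ι M (col χ b))) (w2 b) (w3 b) (hdec1 b) (hPfix _)
    have hjm : j ≤ m := (Finset.mem_range.1 hj).le
    have hLj := hL j hjm
    -- error terms
    have hv : ‖HS.ι M (col χ b)‖ ≤ 1 := HS.norm_ι_le M zero_le_one (col_abs χ b)
    have hv1 : ‖Pj (HS.ι M (col χ b))‖ ≤ 1 := (hPn _).trans hv
    have he1 : (R : ℝ) * √((1 + 1 / L) ^ j - 1) * ‖Pj (HS.ι M (col χ b))‖ ≤ δ := by
      have h2 : √((1 + 1 / L) ^ j - 1) ≤ δ / R := by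
        rw [← Real.sqrt_sq (by positivity : 0 ≤ δ / R)]
        exact Real.sqrt_le_sqrt (hLj.trans (min_le_left _ _))
      calc (R : ℝ) * √((1 + 1 / L) ^ j - 1) * ‖Pj (HS.ι M (col χ b))‖ ≤ R * (δ / R) * 1 := by
            apply mul_le_mul _ hv1 (norm_nonneg _) (by positivity)
            exact mul_le_mul_of_nonneg_left h2 hRR.le
        _ = δ := al1 _ _ hRR
    have he2 : (R : ℝ) * √((1 + 1 / L) ^ j) * ‖w2 b‖ ≤ δ := by
      have h2 : √((1 + 1 / L) ^ j) ≤ 2 := by
        rw [show (2 : ℝ) = √4 by rw [show (4 : ℝ) = 2 ^ 2 by norm_num]; simp]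
        apply Real.sqrt_le_sqrt
        have := hLj.trans (min_le_right _ _)
        linarith
      calc (R : ℝ) * √((1 + 1 / L) ^ j) * ‖w2 b‖ ≤ R * 2 * (δ / (2 * R)) := by
            apply mul_le_mul _ (hdec2 b) (norm_nonneg _) (by positivity)
            exact mul_le_mul_of_nonneg_left h2 hRR.le
        _ = δ := al2 _ _ hRR
    have he3 : ∑ p ∈ tup P j, cw P j * (R * ((1 / n) *
        ‖∑ q ∈ QQ K e, (HS.U M ^ (d0 * sp p * q)) (w3 b)‖)) ≤ δ := by
      calc ∑ p ∈ tup P j, cw P j * (R * ((1 / n) *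
            ‖∑ q ∈ QQ K e, (HS.U M ^ (d0 * sp p * q)) (w3 b)‖)) ≤
            ∑ p ∈ tup P j, cw P j * (R * (δ / (R * T))) := by
              apply Finset.sum_le_sum
              intro p hp
              apply mul_le_mul_of_nonneg_left _ (cw_nonneg P j)
              exact mul_le_mul_of_nonneg_left (hE1 e heE1 j hj p hp b) hRR.le
        _ = (cw P j * ((tup P j).card : ℝ)) * (δ / T) := by
            rw [Finset.sum_const, nsmul_eq_mul]; exact al3 _ _ _ _ _ hRR hT0
        _ ≤ T * (δ / T) := mul_le_mul_of_nonneg_right (hTj j hj) (by positivity)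
        _ = δ := al4 _ _ hT0
    -- the averaged form is small
    have hform : (1 / n) * ∑ q ∈ QQ K e, ∑ p ∈ tup P j, cw P j *
        M.E (fun x => indp r p x * (wt R y0 x * col χ a x) *
          col χ b (x + ((d0 * sp p * q : ℕ) : ℤ))) ≤ δ := by
      have h2 : ∀ p ∈ tup P j, ∀ q ∈ QQ K e,
          M.E (fun x => indp r p x * (wt R y0 x * col χ a x) *
          col χ b (x + ((d0 * sp p * q : ℕ) : ℤ))) =
          R * M.E (fun x => Psi r R y0 a b p (phi χ N x)
            (phi χ N (x + ((d0 * sp p * q : ℕ) : ℤ)))) := by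
        intro p hp q _
        rw [← M.smul]
        · congr 1
          funext x
          exact Psi_form χ r R y0 a b p (hdvdN j hj p hp) hRN _ _
        · exact ⟨1, fun x => by
            have := Psi_mem (m := m) (N := N) r R y0 a b p (phi χ N x)
              (phi χ N (x + ((d0 * sp p * q : ℕ) : ℤ)))
            rw [abs_of_nonneg this.1]; exact this.2⟩
      rw [Finset.sum_comm]
      have h3 : ∑ p ∈ tup P j, ∑ q ∈ QQ K e, cw P j *
          M.E (fun x => indp r p x * (wt R y0 x * col χ a x) *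
          col χ b (x + ((d0 * sp p * q : ℕ) : ℤ))) ≤
          ∑ p ∈ tup P j, cw P j * (R * ((δ / (R * T)) * n)) := by
        apply Finset.sum_le_sum
        intro p hp
        rw [← Finset.mul_sum]
        apply mul_le_mul_of_nonneg_left _ (cw_nonneg P j)
        rw [Finset.sum_congr rfl (h2 p hp), ← Finset.mul_sum]
        exact mul_le_mul_of_nonneg_left (hub j hj p hp a) hRR.le
      calc (1 / n) * ∑ p ∈ tup P j, ∑ q ∈ QQ K e, cw P j *
          M.E (fun x => indp r p x * (wt R y0 x * col χ a x) *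
          col χ b (x + ((d0 * sp p * q : ℕ) : ℤ))) ≤
          (1 / n) * ∑ p ∈ tup P j, cw P j * (R * ((δ / (R * T)) * n)) :=
            mul_le_mul_of_nonneg_left h3 (one_div_nonneg.2 hn0.le)
        _ = (cw P j * ((tup P j).card : ℝ)) * (δ / T) := by
            rw [Finset.sum_const, nsmul_eq_mul]; exact al5 _ _ _ _ _ _ hRR hT0 hn0
        _ ≤ T * (δ / T) := mul_le_mul_of_nonneg_right (hTj j hj) (by positivity)
        _ = δ := al4 _ _ hT0
    have h4 := (Complex.abs_re_le_norm _).trans (h1.trans (add_le_add (add_le_add he1 he2) he3))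
    rw [Complex.sub_re, Complex.ofReal_re] at h4
    have h5 := (abs_le.1 h4).1
    linarith
  -- sum over everything
  have hsum : ∑ a : ZMod m, ∑ j ∈ Finset.range m,
      (inner ℂ (HS.ι M (fun x => wt R y0 x * col χ a x)) (HS.shC M (d0 : ℤ)
        (Pj (HS.ι M (col χ (c + 2 * ((j : ZMod m) + 1) - a)))))).re ≤ 1 / 2 := by
    calc _ ≤ ∑ a : ZMod m, ∑ j ∈ Finset.range m, 4 * δ :=
          Finset.sum_le_sum fun a _ => Finset.sum_le_sum fun j hj => hmain j hj a
      _ = 1 / 2 := by
          rw [Finset.sum_const, Finset.sum_const, Finset.card_univ, ZMod.card, Finset.card_range]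
          simp only [nsmul_eq_mul]
          rw [hδ]
          field_simp
          norm_num
  have hsum2 : ∑ a : ZMod m, ∑ j ∈ Finset.range m,
      (inner ℂ (HS.ι M (fun x => wt R y0 x * col χ a x)) (HS.shC M (d0 : ℤ)
        (Pj (HS.ι M (col χ (c + 2 * ((j : ZMod m) + 1) - a)))))).re = 1 := by
    have h1 : ∀ a : ZMod m, ∑ j ∈ Finset.range m,
      (inner ℂ (HS.ι M (fun x => wt R y0 x * col χ a x)) (HS.shC M (d0 : ℤ)
        (Pj (HS.ι M (col χ (c + 2 * ((j : ZMod m) + 1) - a)))))).re =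
        ∑ b : ZMod m, (inner ℂ (HS.ι M (fun x => wt R y0 x * col χ a x)) (HS.shC M (d0 : ℤ)
        (Pj (HS.ι M (col χ b))))).re := by
      intro a
      rw [← sum_affine m hm (c - a) (fun b => (inner ℂ (HS.ι M (fun x => wt R y0 x * col χ a x))
        (HS.shC M (d0 : ℤ) (Pj (HS.ι M (col χ b))))).re)]
      apply Finset.sum_congr rfl
      intro j _
      rw [show c + 2 * ((j : ZMod m) + 1) - a = c - a + 2 * ((j : ZMod m) + 1) by ring]
    rw [Finset.sum_congr rfl fun a _ => h1 a]
    have hcolb : ∀ a : ZMod m, Bdd (col χ a) := fun a => ⟨1, col_abs χ a⟩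
    have hwb : Bdd (wt R y0) := ⟨R, wt_abs R y0⟩
    have h2 : ∑ b : ZMod m, HS.ι M (col χ b) = HS.ι M (fun _ => 1) := by
      rw [← HS.ι_sum M _ _ fun b _ => hcolb b]
      congr 1
      funext x
      exact sum_col χ x
    have h3 : ∑ a : ZMod m, HS.ι M (fun x => wt R y0 x * col χ a x) = HS.ι M (wt R y0) := by
      rw [← HS.ι_sum M _ _ fun a _ => hwb.mul (hcolb a)]
      congr 1
      funext x
      rw [← Finset.mul_sum, sum_col, mul_one]
    have hone : ∀ k : ℤ, HS.shC M k (HS.ι M (fun _ => 1)) = HS.ι M (fun _ => 1) := fun k =>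
      HS.shC_ι M k (Bdd.const 1)
    have h4 : HS.shC M (d0 : ℤ) (Pj (HS.ι M (fun _ => 1))) = HS.ι M (fun _ => 1) := by
      rw [hPid _ (by rw [HS.U_pow]; exact hone _), hone]
    have h5 : ∑ a : ZMod m, ∑ b : ZMod m,
        inner ℂ (HS.ι M (fun x => wt R y0 x * col χ a x)) (HS.shC M (d0 : ℤ)
        (Pj (HS.ι M (col χ b)))) = inner ℂ (HS.ι M (wt R y0)) (HS.ι M (fun _ => 1)) := by
      rw [← h3, ← h4, ← h2, sum_inner]
      apply Finset.sum_congr rfl
      intro a _
      rw [map_sum, map_sum, inner_sum]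
    have h6 : (∑ a : ZMod m, ∑ b : ZMod m,
        (inner ℂ (HS.ι M (fun x => wt R y0 x * col χ a x)) (HS.shC M (d0 : ℤ)
        (Pj (HS.ι M (col χ b))))).re) = (∑ a : ZMod m, ∑ b : ZMod m,
        inner ℂ (HS.ι M (fun x => wt R y0 x * col χ a x)) (HS.shC M (d0 : ℤ)
        (Pj (HS.ι M (col χ b))))).re := by
      rw [Complex.re_sum]
      apply Finset.sum_congr rfl
      intro a _
      rw [Complex.re_sum]
    rw [h6, h5, HS.inner_ι M hwb (Bdd.const 1), Complex.ofReal_re]
    simp only [mul_one]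
    exact M.res R hR y0
  rw [hsum2] at hsum
  norm_num at hsum

end Pool.Agent.MP_a17b09_nt.OM
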