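import Mathlib

/-!
Shift-invariant means on bounded functions on the integers, and the sets of primes used in the
proof that the number of prime factors of the values of a quadratic polynomial meets every residue
class to every odd modulus.
-/

set_option autoImplicit false

namespace Pool.Agent.MP_a17b09_nt.OM

/-- boundedness of a real function on the integers -/
def Bdd (f : ℤ → ℝ) : Prop := ∃ C : ℝ, ∀ x, |f x| ≤ C

/-- the primes `q ≡ 1 mod K` with `2 ^ e < q ≤ 2 ^ (e + 1)` -/
def QQ (K e : ℕ) : Finset ℕ :=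
  (Finset.Ioc (2 ^ e) (2 ^ (e + 1))).filter (fun q => q.Prime ∧ q ≡ 1 [MOD K])

theorem mem_QQ {K e q : ℕ} : q ∈ QQ K e ↔ (2 ^ e < q ∧ q ≤ 2 ^ (e + 1)) ∧ q.Prime ∧ q ≡ 1 [MOD K] := by
  unfold QQ
  rw [Finset.mem_filter, Finset.mem_Ioc]

/-- A shift-invariant mean on the bounded functions on the integers; it ignores initial segments. -/
structure Mean where
  E : (ℤ → ℝ) → ℝ
  add : ∀ f g : ℤ → ℝ, Bdd f → Bdd g → E (fun x => f x + g x) = E f + E g
  smul : ∀ (c : ℝ) (f : ℤ → ℝ), Bdd f → E (fun x => c * f x) = c * E f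
  nonneg : ∀ f : ℤ → ℝ, Bdd f → (∀ x, 0 ≤ f x) → 0 ≤ E f
  one : E (fun _ => 1) = 1
  shift : ∀ (f : ℤ → ℝ), Bdd f → ∀ n : ℤ, E (fun x => f (x + n)) = E f
  null : ∀ f : ℤ → ℝ, Bdd f → (∃ X : ℤ, ∀ x, X ≤ x → f x = 0) → E f = 0

theorem Bdd.const (c : ℝ) : Bdd (fun _ => c) := ⟨|c|, fun _ => le_rfl⟩

theorem Bdd.add {f g : ℤ → ℝ} (hf : Bdd f) (hg : Bdd g) : Bdd (fun x => f x + g x) := by
  obtain ⟨C, hC⟩ := hf
  obtain ⟨D, hD⟩ := hg
  exact ⟨C + D, fun x => (abs_add_le _ _).trans (add_le_add (hC x) (hD x))⟩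

theorem Bdd.mul {f g : ℤ → ℝ} (hf : Bdd f) (hg : Bdd g) : Bdd (fun x => f x * g x) := by
  obtain ⟨C, hC⟩ := hf
  obtain ⟨D, hD⟩ := hg
  refine ⟨C * D, fun x => ?_⟩
  rw [abs_mul]
  exact mul_le_mul (hC x) (hD x) (abs_nonneg _) ((abs_nonneg _).trans (hC x))

theorem Bdd.smul (c : ℝ) {f : ℤ → ℝ} (hf : Bdd f) : Bdd (fun x => c * f x) := (Bdd.const c).mul hf

theorem Bdd.neg {f : ℤ → ℝ} (hf : Bdd f) : Bdd (fun x => - f x) := by
  obtain ⟨C, hC⟩ := hf
  exact ⟨C, fun x => by rw [abs_neg]; exact hC x⟩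

theorem Bdd.sub {f g : ℤ → ℝ} (hf : Bdd f) (hg : Bdd g) : Bdd (fun x => f x - g x) := by
  simpa [sub_eq_add_neg] using hf.add hg.neg

theorem Bdd.sum {ι : Type*} (s : Finset ι) (f : ι → ℤ → ℝ) (hf : ∀ i ∈ s, Bdd (f i)) :
    Bdd (fun x => ∑ i ∈ s, f i x) := by
  classical
  induction s using Finset.induction with
  | empty => simpa using Bdd.const 0
  | insert a s ha ih =>
    have h1 : (fun x => ∑ i ∈ insert a s, f i x) = fun x => f a x + ∑ i ∈ s, f i x := by
      funext x; rw [Finset.sum_insert ha]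
    rw [h1]
    exact (hf a (Finset.mem_insert_self a s)).add
      (ih fun i hi => hf i (Finset.mem_insert_of_mem hi))

theorem Bdd.prod {ι : Type*} (s : Finset ι) (f : ι → ℤ → ℝ) (hf : ∀ i ∈ s, Bdd (f i)) :
    Bdd (fun x => ∏ i ∈ s, f i x) := by
  classical
  induction s using Finset.induction with
  | empty => simpa using Bdd.const 1
  | insert a s ha ih =>
    have h1 : (fun x => ∏ i ∈ insert a s, f i x) = fun x => f a x * ∏ i ∈ s, f i x := by
      funext x; rw [Finset.prod_insert ha]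
    rw [h1]
    exact (hf a (Finset.mem_insert_self a s)).mul
      (ih fun i hi => hf i (Finset.mem_insert_of_mem hi))

theorem Bdd.comp_add {f : ℤ → ℝ} (hf : Bdd f) (n : ℤ) : Bdd (fun x => f (x + n)) := by
  obtain ⟨C, hC⟩ := hf
  exact ⟨C, fun x => hC _⟩

theorem Bdd.abs {f : ℤ → ℝ} (hf : Bdd f) : Bdd (fun x => |f x|) := by
  obtain ⟨C, hC⟩ := hf
  exact ⟨C, fun x => by rw [abs_abs]; exact hC x⟩

theorem Bdd.of_le {f : ℤ → ℝ} (C : ℝ) (h : ∀ x, |f x| ≤ C) : Bdd f := ⟨C, h⟩

theorem Bdd.ite (p : ℤ → Prop) [DecidablePred p] {f g : ℤ → ℝ} (hf : Bdd f) (hg : Bdd g) :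
    Bdd (fun x => if p x then f x else g x) := by
  obtain ⟨C, hC⟩ := hf
  obtain ⟨D, hD⟩ := hg
  refine ⟨max C D, fun x => ?_⟩
  show |if p x then f x else g x| ≤ max C D
  split_ifs
  · exact (hC x).trans (le_max_left _ _)
  · exact (hD x).trans (le_max_right _ _)

/-- a function that factors through a finite type is bounded -/
theorem Bdd.of_finite {α : Type*} [Finite α] (X : ℤ → α) (h : α → ℝ) : Bdd (fun x => h (X x)) := by
  classical
  have := Fintype.ofFinite α
  refine ⟨∑ a, |h a|, fun x => ?_⟩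
  exact Finset.single_le_sum (f := fun a => |h a|) (fun a _ => abs_nonneg _) (Finset.mem_univ (X x))

namespace Mean

variable (M : Mean)

theorem const (c : ℝ) : M.E (fun _ => c) = c := by
  have h := M.smul c (fun _ => 1) (Bdd.const 1)
  rw [M.one, mul_one] at h
  simpa using h

theorem neg {f : ℤ → ℝ} (hf : Bdd f) : M.E (fun x => - f x) = - M.E f := by
  have h := M.smul (-1) f hf
  rw [show (fun x => - f x) = fun x => (-1 : ℝ) * f x from by funext x; ring, h]
  ring

theorem sub {f g : ℤ → ℝ} (hf : Bdd f) (hg : Bdd g) :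
    M.E (fun x => f x - g x) = M.E f - M.E g := by
  have h := M.add f (fun x => - g x) hf hg.neg
  rw [M.neg hg] at h
  rw [show (fun x => f x - g x) = fun x => f x + - g x from by funext x; ring, h]
  ring

theorem mono {f g : ℤ → ℝ} (hf : Bdd f) (hg : Bdd g) (h : ∀ x, f x ≤ g x) : M.E f ≤ M.E g := by
  have h1 := M.nonneg (fun x => g x - f x) (hg.sub hf) (fun x => sub_nonneg.2 (h x))
  rw [M.sub hg hf] at h1
  linarith

theorem sum {ι : Type*} (s : Finset ι) (f : ι → ℤ → ℝ) (hf : ∀ i ∈ s, Bdd (f i)) :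
    M.E (fun x => ∑ i ∈ s, f i x) = ∑ i ∈ s, M.E (f i) := by
  classical
  induction s using Finset.induction with
  | empty => simpa using M.const 0
  | insert a s ha ih =>
    have h1 : (fun x => ∑ i ∈ insert a s, f i x) = fun x => f a x + ∑ i ∈ s, f i x := by
      funext x; rw [Finset.sum_insert ha]
    rw [h1, M.add _ _ (hf a (Finset.mem_insert_self a s))
      (Bdd.sum s f fun i hi => hf i (Finset.mem_insert_of_mem hi)), Finset.sum_insert ha,
      ih fun i hi => hf i (Finset.mem_insert_of_mem hi)]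

theorem abs_le {f : ℤ → ℝ} (hf : Bdd f) : |M.E f| ≤ M.E (fun x => |f x|) := by
  rw [_root_.abs_le]
  constructor
  · have h := M.mono (hf.abs).neg hf (fun x => neg_abs_le (f x))
    rwa [M.neg hf.abs] at h
  · exact M.mono hf hf.abs (fun x => le_abs_self _)

theorem le_const {f : ℤ → ℝ} {C : ℝ} (hf : Bdd f) (h : ∀ x, f x ≤ C) : M.E f ≤ C := by
  have h1 := M.mono hf (Bdd.const C) h
  rwa [M.const] at h1

/-- the mean of a function supported off a terminal segment, in the form of an inequality -/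
theorem congr_of_ge {f g : ℤ → ℝ} (hf : Bdd f) (hg : Bdd g) (X : ℤ) (h : ∀ x, X ≤ x → f x = g x) :
    M.E f = M.E g := by
  have h1 := M.null (fun x => f x - g x) (hf.sub hg) ⟨X, fun x hx => sub_eq_zero.2 (h x hx)⟩
  rw [M.sub hf hg] at h1
  linarith

/-- the indicator of a residue class -/
theorem bdd_res (q r : ℤ) (c : ℝ) : Bdd (fun x => if q ∣ x - r then c else 0) := by
  refine ⟨|c|, fun x => ?_⟩
  show |if q ∣ x - r then c else 0| ≤ |c|
  split_ifs
  · exact le_rfl
  · rw [abs_zero]; exact abs_nonneg _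

/-- If `g` is periodic modulo `N` and `q` is coprime to `N` then `g` is independent of the
residue modulo `q`. -/
theorem indep (q : ℕ) (hq : 0 < q) (N : ℤ) (hN : IsCoprime (q : ℤ) N) (r : ℤ) {g : ℤ → ℝ}
    (hg : Bdd g) (hper : ∀ x, g (x + N) = g x) :
    M.E (fun x => if (q : ℤ) ∣ x - r then (q : ℝ) * g x else 0) = M.E g := by
  classical
  have hb : Bdd (fun x => if (q : ℤ) ∣ x - r then (q : ℝ) * g x else 0) :=
    Bdd.ite _ (hg.smul q) (Bdd.const 0)
  have hper' : ∀ i : ℕ, ∀ x, g (x + (i : ℤ) * N) = g x := by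
    intro i
    induction i with
    | zero => intro x; simp
    | succ i ih =>
      intro x
      have h1 := ih (x + N)
      rw [hper] at h1
      rw [← h1]
      congr 1
      push_cast
      ring
  have h1 : ∀ i ∈ Finset.range q, M.E (fun x => if (q : ℤ) ∣ x - r then (q : ℝ) * g x else 0) =
      M.E (fun x => if (q : ℤ) ∣ x + (i : ℤ) * N - r then (q : ℝ) * g x else 0) := by
    intro i _
    rw [← M.shift _ hb ((i : ℤ) * N)]
    congr 1
    funext x
    rw [hper']
  have h2 : ∑ i ∈ Finset.range q, M.E (fun x => if (q : ℤ) ∣ x - r then (q : ℝ) * g x else 0) =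
      (q : ℝ) * M.E g := by
    rw [Finset.sum_congr rfl h1, ← M.sum, ← M.smul _ _ hg]
    · congr 1
      funext x
      -- exactly one `i` works
      have hq0 : (q : ℤ) ≠ 0 := by exact_mod_cast hq.ne'
      have hex : ∃ i ∈ Finset.range q, (q : ℤ) ∣ x + (i : ℤ) * N - r := by
        obtain ⟨u, v, huv⟩ := hN
        refine ⟨((v * (r - x)) % q).toNat, ?_, ?_⟩
        · rw [Finset.mem_range]
          have h3 := Int.emod_lt_of_pos (v * (r - x)) (by exact_mod_cast hq : (0 : ℤ) < q)
          have h4 := Int.emod_nonneg (v * (r - x)) hq0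
          omega
        · have h4 := Int.emod_nonneg (v * (r - x)) hq0
          rw [Int.toNat_of_nonneg h4]
          have h5 := Int.emod_add_mul_ediv (v * (r - x)) q
          have h6 : (v * (r - x)) % q = v * (r - x) - q * ((v * (r - x)) / q) := by linarith
          rw [h6]
          refine ⟨-(u * (r - x)) - ((v * (r - x)) / q) * N, ?_⟩
          linear_combination (r - x) * huv
      obtain ⟨i, hi, hdi⟩ := hex
      rw [Finset.sum_eq_single_of_mem i hi]
      · rw [if_pos hdi]
      · intro j hj hji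
        rw [if_neg]
        intro hdj
        apply hji
        have h7 : (q : ℤ) ∣ ((j : ℤ) - i) * N := by
          have := dvd_sub hdj hdi
          have e : x + (j : ℤ) * N - r - (x + (i : ℤ) * N - r) = ((j : ℤ) - i) * N := by ring
          rwa [e] at this
        have h8 : (q : ℤ) ∣ (j : ℤ) - i := hN.dvd_of_dvd_mul_right h7
        have hjr := Finset.mem_range.1 hj
        have hir := Finset.mem_range.1 hi
        have h9 : ((j : ℤ) - i) = 0 := by
          apply Int.eq_zero_of_abs_lt_dvd h8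
          rw [abs_lt]
          constructor <;> omega
        omega
    · intro i _
      exact Bdd.ite _ (hg.smul q) (Bdd.const 0)
  rw [Finset.sum_const, Finset.card_range, nsmul_eq_mul] at h2
  exact mul_left_cancel₀ (by exact_mod_cast hq.ne') h2

/-- the density of a residue class -/
theorem res (q : ℕ) (hq : 0 < q) (r : ℤ) :
    M.E (fun x => if (q : ℤ) ∣ x - r then (q : ℝ) else 0) = 1 := by
  have h := M.indep q hq 1 isCoprime_one_right r (Bdd.const 1) (fun _ => rfl)
  rw [M.one] at h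
  rw [← h]
  congr 1
  funext x
  rw [mul_one]

end Mean

end Pool.Agent.MP_a17b09_nt.OM
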