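import Pool.Agent.Lib.MP_a17b09_nt.OM.ED
import Pool.Agent.Lib.MP_a17b09_nt.OM.Pinsker
import Pool.Agent.Lib.MP_a17b09_nt.OM.Decouple
import Pool.Agent.Lib.MP_a17b09_nt.OM.Minor
import Pool.Agent.Lib.MP_a17b09_nt.OM.Compact
import Pool.Agent.Lib.MP_a17b09_nt.OM.Fin

set_option autoImplicit false

namespace Pool.Agent.MP_a17b09_nt.OM

theorem final_all : StFinal := fin (ct_fin (decouple ed pinsker) minor)

end Pool.Agent.MP_a17b09_nt.OM
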