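import Pool.Agent.Lib.MP_a17b09_nt.OM.Basic

/-!
Existence of a shift-invariant mean on the bounded functions on the integers that ignores initial
segments: the limit of Cesàro averages along a nonprincipal ultrafilter.
-/

set_option autoImplicit false

open Filter Topology

namespace Pool.Agent.MP_a17b09_nt.OM

/-- Cesàro average over `0, …, N` -/
noncomputable def ces (f : ℤ → ℝ) (N : ℕ) : ℝ :=
  (∑ x ∈ Finset.range (N + 1), f (x : ℤ)) / ((N : ℝ) + 1)

theorem ces_bound {f : ℤ → ℝ} {C : ℝ} (h : ∀ x, |f x| ≤ C) (N : ℕ) : |ces f N| ≤ C := by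
  unfold ces
  have hN : (0 : ℝ) < (N : ℝ) + 1 := by positivity
  rw [abs_div, abs_of_pos hN, div_le_iff₀ hN]
  calc |∑ x ∈ Finset.range (N + 1), f (x : ℤ)| ≤ ∑ x ∈ Finset.range (N + 1), |f (x : ℤ)| :=
        Finset.abs_sum_le_sum_abs _ _
    _ ≤ ∑ x ∈ Finset.range (N + 1), C := Finset.sum_le_sum fun x _ => h _
    _ = C * ((N : ℝ) + 1) := by
        rw [Finset.sum_const, Finset.card_range, nsmul_eq_mul]
        push_cast
        ring

/-- the ultrafilter limit of the Cesàro averages -/
noncomputable def EE (f : ℤ → ℝ) : ℝ := limUnder (hyperfilter ℕ : Filter ℕ) (ces f)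

theorem EE_tendsto {f : ℤ → ℝ} (hf : Bdd f) : Tendsto (ces f) (hyperfilter ℕ : Filter ℕ) (𝓝 (EE f)) := by
  obtain ⟨C, hC⟩ := hf
  apply tendsto_nhds_limUnder
  have hK : IsCompact (Set.Icc (-C) C) := isCompact_Icc
  have h1 : (((hyperfilter ℕ).map (ces f) : Ultrafilter ℝ) : Filter ℝ) ≤ 𝓟 (Set.Icc (-C) C) := by
    rw [le_principal_iff]
    have : ∀ N, ces f N ∈ Set.Icc (-C) C := fun N => abs_le.1 (ces_bound hC N)
    rw [Ultrafilter.coe_map, mem_map]
    exact Filter.univ_mem' this
  obtain ⟨x, _, hx⟩ := hK.ultrafilter_le_nhds _ h1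
  exact ⟨x, hx⟩

theorem EE_eq {f : ℤ → ℝ} (hf : Bdd f) {L : ℝ}
    (h : Tendsto (ces f) (hyperfilter ℕ : Filter ℕ) (𝓝 L)) : EE f = L :=
  tendsto_nhds_unique (EE_tendsto hf) h

/-- telescoping: a shift by one does not change the limit -/
theorem EE_shift_one {f : ℤ → ℝ} (hf : Bdd f) : EE (fun x => f (x + 1)) = EE f := by
  obtain ⟨C, hC⟩ := hf
  have hf : Bdd f := ⟨C, hC⟩
  have h1 : Tendsto (fun N : ℕ => ces (fun x => f (x + 1)) N - ces f N) atTop (𝓝 0) := by
    have h2 : ∀ N : ℕ, ces (fun x => f (x + 1)) N - ces f N =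
        (f ((N : ℤ) + 1) - f 0) / ((N : ℝ) + 1) := by
      intro N
      unfold ces
      rw [← sub_div]
      congr 1
      have h3 := Finset.sum_range_sub (fun x : ℕ => f (x : ℤ)) (N + 1)
      rw [← Finset.sum_sub_distrib]
      rw [show (((N + 1 : ℕ) : ℤ)) = (N : ℤ) + 1 from by push_cast; ring] at h3
      rw [show (((0 : ℕ) : ℤ)) = 0 from rfl] at h3
      rw [← h3]
      apply Finset.sum_congr rfl
      intro i _
      push_cast
      rfl
    have h4 : Tendsto (fun N : ℕ => (2 * C) / ((N : ℝ) + 1)) atTop (𝓝 0) := by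
      apply Tendsto.div_atTop tendsto_const_nhds
      exact tendsto_atTop_add_const_right _ _ tendsto_natCast_atTop_atTop
    apply squeeze_zero_norm _ h4
    intro N
    rw [h2, Real.norm_eq_abs, abs_div, abs_of_pos (by positivity : (0 : ℝ) < (N : ℝ) + 1)]
    apply div_le_div_of_nonneg_right _ (by positivity)
    have h5 := hC ((N : ℤ) + 1)
    have h6 := hC 0
    calc |f ((N : ℤ) + 1) - f 0| ≤ |f ((N : ℤ) + 1)| + |f 0| := abs_sub _ _
      _ ≤ 2 * C := by linarith
  have h7 := h1.mono_left (Nat.hyperfilter_le_atTop)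
  apply EE_eq (hf.comp_add 1)
  have h8 := h7.add (EE_tendsto hf)
  simpa using h8

theorem EE_shift {f : ℤ → ℝ} (hf : Bdd f) (n : ℤ) : EE (fun x => f (x + n)) = EE f := by
  have hnat : ∀ (k : ℕ) (g : ℤ → ℝ), Bdd g → EE (fun x => g (x + (k : ℤ))) = EE g := by
    intro k
    induction k with
    | zero => intro g _; simp
    | succ k ih =>
      intro g hg
      have h1 := EE_shift_one (hg.comp_add k)
      rw [← ih g hg, ← h1]
      congr 1
      funext x
      congr 1
      push_cast
      ring
  rcases Int.eq_nat_or_neg n with ⟨k, hk | hk⟩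
  · rw [hk]; exact hnat k f hf
  · rw [hk]
    have h1 := hnat k (fun x => f (x + -(k : ℤ))) (hf.comp_add _)
    rw [← h1]
    congr 1
    funext x
    congr 1
    ring

theorem EE_null {f : ℤ → ℝ} (hf : Bdd f) (h : ∃ X : ℤ, ∀ x, X ≤ x → f x = 0) : EE f = 0 := by
  obtain ⟨C, hC⟩ := hf
  have hf : Bdd f := ⟨C, hC⟩
  obtain ⟨X, hX⟩ := h
  apply EE_eq hf
  apply Tendsto.mono_left _ (Nat.hyperfilter_le_atTop)
  have h4 : Tendsto (fun N : ℕ => ((X.toNat : ℝ) * C) / ((N : ℝ) + 1)) atTop (𝓝 0) := by
    apply Tendsto.div_atTop tendsto_const_nhds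
    exact tendsto_atTop_add_const_right _ _ tendsto_natCast_atTop_atTop
  apply squeeze_zero_norm _ h4
  intro N
  unfold ces
  rw [Real.norm_eq_abs, abs_div, abs_of_pos (by positivity : (0 : ℝ) < (N : ℝ) + 1)]
  apply div_le_div_of_nonneg_right _ (by positivity)
  calc |∑ x ∈ Finset.range (N + 1), f (x : ℤ)| ≤ ∑ x ∈ Finset.range (N + 1), |f (x : ℤ)| :=
        Finset.abs_sum_le_sum_abs _ _
    _ ≤ ∑ x ∈ Finset.range (N + 1), (if x ∈ Finset.range X.toNat then C else 0) := by
        apply Finset.sum_le_sum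
        intro x _
        split_ifs with hx
        · exact hC _
        · rw [Finset.mem_range, not_lt] at hx
          have : X ≤ (x : ℤ) := by
            have := Int.self_le_toNat X
            omega
          rw [hX _ this, abs_zero]
    _ ≤ (X.toNat : ℝ) * C := by
        rw [← Finset.sum_filter, Finset.sum_const, nsmul_eq_mul]
        have hC0 : 0 ≤ C := (abs_nonneg _).trans (hC 0)
        apply mul_le_mul_of_nonneg_right _ hC0
        have : ((Finset.range (N + 1)).filter (fun x => x ∈ Finset.range X.toNat)).card ≤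
            (Finset.range X.toNat).card := by
          apply Finset.card_le_card
          intro x hx
          exact (Finset.mem_filter.1 hx).2
        rw [Finset.card_range] at this
        exact_mod_cast this

/-- existence of means -/
theorem exists_mean : Nonempty Mean := by
  refine ⟨⟨EE, ?_, ?_, ?_, ?_, ?_, ?_⟩⟩
  · intro f g hf hg
    apply EE_eq (hf.add hg)
    have h1 := (EE_tendsto hf).add (EE_tendsto hg)
    refine h1.congr (fun N => ?_)
    unfold ces
    rw [← add_div, ← Finset.sum_add_distrib]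
  · intro c f hf
    apply EE_eq (hf.smul c)
    have h1 := (EE_tendsto hf).const_mul c
    refine h1.congr (fun N => ?_)
    unfold ces
    rw [← Finset.mul_sum, mul_div_assoc]
  · intro f hf h
    refine ge_of_tendsto (EE_tendsto hf) (Filter.Eventually.of_forall fun N => ?_)
    unfold ces
    exact div_nonneg (Finset.sum_nonneg fun x _ => h _) (by positivity)
  · apply EE_eq (Bdd.const 1)
    refine tendsto_const_nhds.congr (fun N => ?_)
    unfold ces
    rw [Finset.sum_const, Finset.card_range, nsmul_eq_mul]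
    push_cast
    rw [mul_one, div_self]
    positivity
  · intro f hf n
    exact EE_shift hf n
  · intro f hf h
    exact EE_null hf h

end Pool.Agent.MP_a17b09_nt.OM
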