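import Pool.Agent.Lib.MP_a17b09_nt.OM.Total
import Pool.Agent.Lib.MP_a17b09_nt.OM.Exists
import Pool.Agent.Lib.MP_a17b09_nt.OM.Stmts

/-!
The colouring theorem for colourings of the integers, from the decoupling and the minor arc
statements.
-/

set_option autoImplicit false

open Filter Topology

namespace Pool.Agent.MP_a17b09_nt.OM

theorem sum_range_zmod (m : ℕ) [NeZero m] (h : ZMod m → ℝ) :
    ∑ j ∈ Finset.range m, h (j : ZMod m) = ∑ z, h z := by
  apply Finset.sum_bij (fun (j : ℕ) _ => (j : ZMod m))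
  · intro j _; exact Finset.mem_univ _
  · intro j hj j' hj' hjj
    rw [ZMod.natCast_eq_natCast_iff'] at hjj
    rwa [Nat.mod_eq_of_lt (Finset.mem_range.1 hj), Nat.mod_eq_of_lt (Finset.mem_range.1 hj')] at hjj
  · intro z _
    exact ⟨z.val, Finset.mem_range.2 (ZMod.val_lt z), ZMod.natCast_zmod_val z⟩
  · intro j _; rfl

theorem sum_affine (m : ℕ) (hm : Odd m) [NeZero m] (t : ZMod m) (f : ZMod m → ℝ) :
    ∑ j ∈ Finset.range m, f (t + 2 * ((j : ZMod m) + 1)) = ∑ z, f z := by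
  rw [sum_range_zmod m (fun z => f (t + 2 * (z + 1)))]
  have h2 : IsUnit ((2 : ℕ) : ZMod m) := by
    rw [ZMod.isUnit_iff_coprime]
    exact Nat.coprime_two_left.2 hm
  have hbij : Function.Bijective (fun z : ZMod m => t + 2 * (z + 1)) := by
    rw [← Finite.injective_iff_bijective]
    intro z z' h
    have h3 : ((2 : ℕ) : ZMod m) * (z + 1) = ((2 : ℕ) : ZMod m) * (z' + 1) := by
      have := add_left_cancel h
      push_cast
      exact this
    exact add_right_cancel (h2.mul_left_cancel h3)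
  exact hbij.sum_comp f

theorem Omega_prod {j : ℕ} (p : Fin j → ℕ) (hp : ∀ i, (p i).Prime) :
    ArithmeticFunction.cardFactors (sp p) = j := by
  classical
  have : ∀ s : Finset (Fin j), ArithmeticFunction.cardFactors (∏ i ∈ s, p i) = s.card := by
    intro s
    induction s using Finset.induction with
    | empty => simp
    | insert a s ha ih =>
      rw [Finset.prod_insert ha, ArithmeticFunction.cardFactors_mul (hp a).ne_zero
        (Finset.prod_ne_zero_iff.2 fun i _ => (hp i).ne_zero), ih, Finset.card_insert_of_notMem ha,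
        ArithmeticFunction.cardFactors_apply_prime (hp a)]
      ring
  have h := this Finset.univ
  rw [Finset.card_univ, Fintype.card_fin] at h
  exact h

theorem squarefree_sp {j : ℕ} (p : Fin j → ℕ) (hp : ∀ i, (p i).Prime) (hinj : ∀ i i', i ≠ i' → p i ≠ p i') :
    Squarefree (sp p) := by
  classical
  have : ∀ s : Finset (Fin j), Squarefree (∏ i ∈ s, p i) := by
    intro s
    induction s using Finset.induction with
    | empty => simp
    | insert a s ha ih =>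
      rw [Finset.prod_insert ha, Nat.squarefree_mul]
      · exact ⟨(hp a).squarefree, ih⟩
      · apply Nat.Coprime.prod_right
        intro i hi
        rw [Nat.coprime_primes (hp a) (hp i)]
        exact hinj a i (by rintro rfl; exact ha hi)
  exact this _

theorem dvd_emod_iff (d : ℤ) (N : ℕ) (h : d ∣ (N : ℤ)) (x t : ℤ) :
    d ∣ x % (N : ℤ) - t ↔ d ∣ x - t := by
  have h1 : x % (N : ℤ) - t = (x - t) - (N : ℤ) * (x / (N : ℤ)) := by
    have := Int.emod_add_mul_ediv x (N : ℤ)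
    linarith
  rw [h1]
  exact dvd_sub_left (h.mul_right _)

theorem exists_L (m : ℕ) (η : ℝ) (hη : 0 < η) : ∃ L : ℝ, 0 < L ∧ ∀ j ≤ m, (1 + 1 / L) ^ j - 1 ≤ η := by
  have h1 : Tendsto (fun n : ℕ => (1 + 1 / ((n : ℝ) + 1)) ^ m) atTop (𝓝 ((1 + 0) ^ m)) := by
    apply Tendsto.pow
    apply Tendsto.const_add
    exact tendsto_one_div_add_atTop_nhds_zero_nat
  rw [add_zero, one_pow] at h1
  have h2 := h1.eventually_lt_const (show (1 : ℝ) < 1 + η by linarith)
  obtain ⟨n, hn⟩ := h2.exists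
  refine ⟨(n : ℝ) + 1, by positivity, fun j hj => ?_⟩
  have h3 : (1 + 1 / ((n : ℝ) + 1)) ^ j ≤ (1 + 1 / ((n : ℝ) + 1)) ^ m := by
    apply pow_le_pow_right₀ _ hj
    have : 0 < 1 / ((n : ℝ) + 1) := by positivity
    linarith
  linarith

/-- the test function for the decoupling -/
noncomputable def Psi {m N j : ℕ} (r : ℕ → ℤ) (R : ℕ) (y0 : ℤ) (a b : ZMod m) (p : Fin j → ℕ)
    (α β : ZMod m × ZMod N) : ℝ :=
  open Classical in
  if α.1 = a ∧ β.1 = b ∧ (∀ i, (p i : ℤ) ∣ ((α.2.val : ℕ) : ℤ) - r (p i)) ∧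
    (R : ℤ) ∣ ((α.2.val : ℕ) : ℤ) - y0 then 1 else 0

theorem Psi_mem {m N j : ℕ} (r : ℕ → ℤ) (R : ℕ) (y0 : ℤ) (a b : ZMod m) (p : Fin j → ℕ)
    (α β : ZMod m × ZMod N) : 0 ≤ Psi r R y0 a b p α β ∧ Psi r R y0 a b p α β ≤ 1 := by
  unfold Psi
  split_ifs <;> norm_num

/-- the colour and the residue -/
def phi {m : ℕ} (χ : ℤ → ZMod m) (N : ℕ) (x : ℤ) : ZMod m × ZMod N := (χ x, (x : ZMod N))

open Classical in
theorem Psi_phi {m N j : ℕ} [NeZero N] (χ : ℤ → ZMod m) (r : ℕ → ℤ) (R : ℕ) (y0 : ℤ) (a b : ZMod m)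
    (p : Fin j → ℕ) (hp : ∀ i, (p i : ℤ) ∣ (N : ℤ)) (hR : (R : ℤ) ∣ (N : ℤ)) (x y : ℤ) :
    Psi r R y0 a b p (phi χ N x) (phi χ N y) =
      if χ x = a ∧ χ y = b ∧ (∀ i, (p i : ℤ) ∣ x - r (p i)) ∧ (R : ℤ) ∣ x - y0 then 1 else 0 := by
  unfold Psi phi
  have h1 : (((x : ZMod N).val : ℕ) : ℤ) = x % (N : ℤ) := ZMod.val_intCast x
  simp only [h1, dvd_emod_iff _ N hR]
  have h2 : (∀ i, (p i : ℤ) ∣ x % (N : ℤ) - r (p i)) ↔ (∀ i, (p i : ℤ) ∣ x - r (p i)) :=
    forall_congr' fun i => dvd_emod_iff _ N (hp i) x _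
  simp only [h2]

theorem indp_eq {j : ℕ} (r : ℕ → ℤ) (p : Fin j → ℕ) (x : ℤ) [Decidable (∀ i, (p i : ℤ) ∣ x - r (p i))] :
    indp r p x = if (∀ i, (p i : ℤ) ∣ x - r (p i)) then 1 else 0 := by
  unfold indp ind
  split_ifs with h
  · exact Finset.prod_eq_one fun i _ => if_pos (h i)
  · push Not at h
    obtain ⟨i, hi⟩ := h
    exact Finset.prod_eq_zero (Finset.mem_univ i) (if_neg hi)

/-- indicator of a colour -/
noncomputable def col {m : ℕ} (χ : ℤ → ZMod m) (a : ZMod m) (x : ℤ) : ℝ := if χ x = a then 1 else 0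

/-- weight of the residue class `y0` modulo `R` -/
noncomputable def wt (R : ℕ) (y0 : ℤ) (x : ℤ) : ℝ := if (R : ℤ) ∣ x - y0 then (R : ℝ) else 0

theorem col_abs {m : ℕ} (χ : ℤ → ZMod m) (a : ZMod m) (x : ℤ) : |col χ a x| ≤ 1 := by
  unfold col; split_ifs <;> norm_num

theorem wt_abs (R : ℕ) (y0 : ℤ) (x : ℤ) : |wt R y0 x| ≤ R := by
  unfold wt; split_ifs <;> simp

theorem wtcol_abs {m : ℕ} (χ : ℤ → ZMod m) (a : ZMod m) (R : ℕ) (y0 : ℤ) (x : ℤ) :
    |wt R y0 x * col χ a x| ≤ R := by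
  rw [abs_mul]
  calc |wt R y0 x| * |col χ a x| ≤ R * 1 :=
        mul_le_mul (wt_abs R y0 x) (col_abs χ a x) (abs_nonneg _) (Nat.cast_nonneg R)
    _ = R := mul_one _

theorem Psi_form {m N j : ℕ} [NeZero N] (χ : ℤ → ZMod m) (r : ℕ → ℤ) (R : ℕ) (y0 : ℤ) (a b : ZMod m)
    (p : Fin j → ℕ) (hp : ∀ i, (p i : ℤ) ∣ (N : ℤ)) (hR : (R : ℤ) ∣ (N : ℤ)) (x y : ℤ) :
    indp r p x * (wt R y0 x * col χ a x) * col χ b y =
      R * Psi r R y0 a b p (phi χ N x) (phi χ N y) := by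
  classical
  rw [Psi_phi χ r R y0 a b p hp hR x y, indp_eq]
  unfold wt col
  by_cases h1 : χ x = a <;> by_cases h2 : χ y = b <;> by_cases h3 : (∀ i, (p i : ℤ) ∣ x - r (p i)) <;>
    by_cases h4 : (R : ℤ) ∣ x - y0 <;> simp [h1, h2, h3, h4]

theorem sum_col {m : ℕ} [NeZero m] (χ : ℤ → ZMod m) (x : ℤ) : ∑ a, col χ a x = 1 := by
  classical
  unfold col
  rw [Finset.sum_ite_eq]
  simp

end Pool.Agent.MP_a17b09_nt.OM
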