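import Pool.Agent.Lib.MP_a17b09_nt.OM.Basic
import Pool.Agent.Lib.QuadThree.PrimesDyadic

/-!
Bounds for the number of primes `q ≡ 1 mod K` in dyadic intervals, and disjoint finite sets of such
primes with a large sum of reciprocals.
-/

set_option autoImplicit false

namespace Pool.Agent.MP_a17b09_nt.OM

/-- lower bound for the number of primes `q ≡ 1 mod K` in `(2^e, 2^(e+1)]` -/
theorem QQ_lower (K : ℕ) (hK : 0 < K) : ∃ c : ℝ, 0 < c ∧ ∃ e0 : ℕ, 1 ≤ e0 ∧ ∀ e : ℕ, e0 ≤ e →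
    c * 2 ^ e / e ≤ ((QQ K e).card : ℝ) := by
  obtain ⟨x0, hx0, h⟩ := Pool.Agent.Lib.QuadThree.primes_dyadic K hK 1 (Nat.coprime_one_left K)
  refine ⟨1 / (2 * K), by positivity, x0, by omega, fun e he => ?_⟩
  have h1 : x0 ≤ 2 ^ e := by
    have := Nat.lt_two_pow_self (n := e)
    omega
  have h2 := h (2 ^ e) h1
  have h3 : (Finset.Ioc (2 ^ e) (2 * 2 ^ e)).filter (fun p => p.Prime ∧ p ≡ 1 [MOD K]) = QQ K e := by
    unfold QQ
    rw [pow_succ, mul_comm 2 (2 ^ e)]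
  rw [h3] at h2
  refine le_trans ?_ h2
  have he0 : 0 < e := by omega
  have hφ : (0 : ℝ) < (Nat.totient K : ℝ) := by exact_mod_cast Nat.totient_pos.2 hK
  have hφK : (Nat.totient K : ℝ) ≤ K := by exact_mod_cast Nat.totient_le K
  have hlog : Real.log ((2 ^ e : ℕ) : ℝ) = e * Real.log 2 := by
    push_cast
    rw [Real.log_pow]
  rw [hlog]
  have hl2 : Real.log 2 ≤ 1 := by
    have := Real.log_two_lt_d9
    linarith
  have hl0 : 0 < Real.log 2 := Real.log_pos (by norm_num)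
  have he' : (0 : ℝ) < e := by exact_mod_cast he0
  have hK' : (0 : ℝ) < K := by exact_mod_cast hK
  push_cast
  rw [div_mul_eq_mul_div, one_mul, div_div]
  apply div_le_div_of_nonneg_left (by positivity) (by positivity)
  calc 2 * (Nat.totient K : ℝ) * (e * Real.log 2) ≤ 2 * (K : ℝ) * (e * 1) := by
        apply mul_le_mul _ _ (by positivity) (by positivity)
        · linarith
        · exact mul_le_mul_of_nonneg_left hl2 he'.le
    _ = 2 * K * e := by ring

/-- upper bound for the product of the primes in `(2^e, 2^(e+1)]` -/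
theorem QQ_logsum (K e : ℕ) : ∑ q ∈ QQ K e, Real.log q ≤ 4 * 2 ^ e := by
  have h1 : ∑ q ∈ QQ K e, Real.log q ≤ Real.log (primorial (2 ^ (e + 1)) : ℕ) := by
    unfold primorial
    push_cast
    rw [Real.log_prod]
    · apply Finset.sum_le_sum_of_subset_of_nonneg
      · intro q hq
        rw [mem_QQ] at hq
        rw [Finset.mem_filter, Finset.mem_range]
        exact ⟨by omega, hq.2.1⟩
      · intro i hi _
        exact Real.log_natCast_nonneg i
    · intro i hi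
      have := (Finset.mem_filter.1 hi).2.pos
      exact_mod_cast this.ne'
  have h2 : Real.log (primorial (2 ^ (e + 1)) : ℕ) ≤ Real.log (((4 : ℕ) ^ (2 ^ (e + 1)) : ℕ) : ℝ) := by
    apply Real.log_le_log
    · exact_mod_cast primorial_pos _
    · exact_mod_cast primorial_le_four_pow _
  refine h1.trans (h2.trans ?_)
  push_cast
  rw [Real.log_pow]
  have h3 : Real.log 4 ≤ 2 := by
    rw [show (4 : ℝ) = 2 ^ 2 by norm_num, Real.log_pow]
    have := Real.log_two_lt_d9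
    push_cast
    linarith
  push_cast
  calc (2 : ℝ) ^ (e + 1) * Real.log 4 ≤ 2 ^ (e + 1) * 2 := by
        apply mul_le_mul_of_nonneg_left h3 (by positivity)
    _ = 4 * 2 ^ e := by ring

/-- sum of the reciprocals -/
noncomputable def Lsum (P : Finset ℕ) : ℝ := ∑ p ∈ P, 1 / (p : ℝ)

theorem Lsum_QQ (K : ℕ) (hK : 0 < K) : ∃ c : ℝ, 0 < c ∧ ∃ e0 : ℕ, 1 ≤ e0 ∧ ∀ e : ℕ, e0 ≤ e →
    c / e ≤ Lsum (QQ K e) := by
  obtain ⟨c, hc, e0, he0, h⟩ := QQ_lower K hK
  refine ⟨c / 2, by positivity, e0, he0, fun e he => ?_⟩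
  have h1 := h e he
  unfold Lsum
  have h2 : ∀ q ∈ QQ K e, (1 : ℝ) / 2 ^ (e + 1) ≤ 1 / (q : ℝ) := by
    intro q hq
    rw [mem_QQ] at hq
    have hq0 : (0 : ℝ) < q := by exact_mod_cast hq.2.1.pos
    apply one_div_le_one_div_of_le hq0
    exact_mod_cast hq.1.2
  have h3 := Finset.sum_le_sum h2
  rw [Finset.sum_const, nsmul_eq_mul] at h3
  refine le_trans ?_ h3
  have he' : (0 : ℝ) < e := by
    have : 0 < e := by omega
    exact_mod_cast this
  calc c / 2 / e = (c * 2 ^ e / e) * (1 / 2 ^ (e + 1)) := by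
        rw [pow_succ]; field_simp
    _ ≤ _ := mul_le_mul_of_nonneg_right h1 (by positivity)

theorem exists_block (K : ℕ) (hK : 0 < K) (L : ℝ) (e1 : ℕ) : ∃ e2 : ℕ, e1 ≤ e2 ∧
    L ≤ Lsum ((Finset.Ico e1 e2).biUnion (QQ K)) := by
  obtain ⟨c, hc, e0, he0, h⟩ := Lsum_QQ K hK
  have hdis : ∀ s : Finset ℕ, Lsum (s.biUnion (QQ K)) = ∑ e ∈ s, Lsum (QQ K e) := by
    intro s
    unfold Lsum
    apply Finset.sum_biUnion
    intro i _ j _ hij
    rw [Function.onFun, Finset.disjoint_left]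
    intro q hq1 hq2
    rw [mem_QQ] at hq1 hq2
    rcases lt_or_gt_of_ne hij with h1 | h1
    · have : 2 ^ (i + 1) ≤ 2 ^ j := Nat.pow_le_pow_right (by norm_num) h1
      omega
    · have : 2 ^ (j + 1) ≤ 2 ^ i := Nat.pow_le_pow_right (by norm_num) h1
      omega
  have hdiv := Real.tendsto_sum_range_one_div_nat_succ_atTop
  rw [Filter.tendsto_atTop_atTop] at hdiv
  set e3 := max e1 e0 with he3
  obtain ⟨n, hn⟩ := hdiv (L / c + ∑ i ∈ Finset.range e3, 1 / ((i : ℝ) + 1))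
  refine ⟨max (n + 1) e3 + 1, by omega, ?_⟩
  set e2 := max (n + 1) e3 with he2
  rw [hdis]
  have h1 := hn e2 (by omega)
  have h2 : ∑ i ∈ Finset.Ico e3 e2, 1 / ((i : ℝ) + 1) =
      ∑ i ∈ Finset.range e2, 1 / ((i : ℝ) + 1) - ∑ i ∈ Finset.range e3, 1 / ((i : ℝ) + 1) := by
    rw [Finset.sum_Ico_eq_sub _ (by omega)]
  have h3 : L / c ≤ ∑ i ∈ Finset.Ico e3 e2, 1 / ((i : ℝ) + 1) := by
    rw [h2]; linarith
  have h4 : ∑ i ∈ Finset.Ico e3 e2, c * (1 / ((i : ℝ) + 1)) ≤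
      ∑ i ∈ Finset.Ico e3 e2, Lsum (QQ K (i + 1)) := by
    apply Finset.sum_le_sum
    intro i hi
    rw [Finset.mem_Ico] at hi
    have := h (i + 1) (by omega)
    push_cast at this
    calc c * (1 / ((i : ℝ) + 1)) = c / ((i : ℝ) + 1) := by ring
      _ ≤ _ := this
  rw [← Finset.mul_sum] at h4
  have h5 : L ≤ c * ∑ i ∈ Finset.Ico e3 e2, 1 / ((i : ℝ) + 1) := by
    rw [div_le_iff₀ hc] at h3
    linarith
  have h6 : ∑ i ∈ Finset.Ico e3 e2, Lsum (QQ K (i + 1)) =
      ∑ i ∈ Finset.Ico (e3 + 1) (e2 + 1), Lsum (QQ K i) := by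
    rw [Finset.sum_Ico_add' (fun i => Lsum (QQ K i)) e3 e2 1]
  refine (h5.trans h4).trans ?_
  rw [h6]
  apply Finset.sum_le_sum_of_subset_of_nonneg
  · intro i hi
    rw [Finset.mem_Ico] at hi ⊢
    omega
  · intro i _ _
    unfold Lsum
    exact Finset.sum_nonneg fun p _ => by positivity

/-- a sequence of pairwise disjoint finite sets of large primes `≡ 1 mod K` with large reciprocal
sums -/
theorem exists_sets (K : ℕ) (hK : 0 < K) (L : ℝ) (B : ℕ) : ∃ P : ℕ → Finset ℕ,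
    (∀ i, ∀ p ∈ P i, p.Prime ∧ p ≡ 1 [MOD K] ∧ B < p) ∧ (∀ i j, i ≠ j → Disjoint (P i) (P j)) ∧
    ∀ i, L ≤ Lsum (P i) := by
  choose f hf1 hf2 using exists_block K hK L
  -- successive starting points
  set g : ℕ → ℕ := fun i => Nat.rec B (fun _ e => f e) i with hg
  have hg0 : g 0 = B := rfl
  have hgs : ∀ i, g (i + 1) = f (g i) := fun i => rfl
  have hmono : Monotone g := monotone_nat_of_le_succ fun i => by rw [hgs]; exact hf1 _
  refine ⟨fun i => (Finset.Ico (g i) (g (i + 1))).biUnion (QQ K), ?_, ?_, ?_⟩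
  · intro i p hp
    rw [Finset.mem_biUnion] at hp
    obtain ⟨e, he, hpe⟩ := hp
    rw [mem_QQ] at hpe
    rw [Finset.mem_Ico] at he
    refine ⟨hpe.2.1, hpe.2.2, ?_⟩
    have h1 : B ≤ g i := by rw [← hg0]; exact hmono (Nat.zero_le i)
    have h2 := Nat.lt_two_pow_self (n := e)
    omega
  · intro i j hij
    rw [Finset.disjoint_left]
    intro p hp1 hp2
    rw [Finset.mem_biUnion] at hp1 hp2
    obtain ⟨e, he, hpe⟩ := hp1
    obtain ⟨e', he', hpe'⟩ := hp2
    rw [mem_QQ] at hpe hpe'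
    rw [Finset.mem_Ico] at he he'
    have hee : e = e' := by
      rcases lt_trichotomy e e' with h1 | h1 | h1
      · have : 2 ^ (e + 1) ≤ 2 ^ e' := Nat.pow_le_pow_right (by norm_num) h1
        omega
      · exact h1
      · have : 2 ^ (e' + 1) ≤ 2 ^ e := Nat.pow_le_pow_right (by norm_num) h1
        omega
    rcases lt_or_gt_of_ne hij with h1 | h1
    · have := hmono (show i + 1 ≤ j from h1)
      omega
    · have := hmono (show j + 1 ≤ i from h1)
      omega
  · intro i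
    exact hf2 (g i)

end Pool.Agent.MP_a17b09_nt.OM
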