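import Pool.Agent.Lib.MP_a17b09_nt.OM.Card

/-!
Turán–Kubilius: products of normalised counts of the primes `p` in given sets with `x ≡ r_p mod p`
are close to `1` in mean square.
-/

set_option autoImplicit false

namespace Pool.Agent.MP_a17b09_nt.OM

/-- indicator of the residue class `r p` modulo `p` -/
noncomputable def ind (r : ℕ → ℤ) (p : ℕ) (x : ℤ) : ℝ := if (p : ℤ) ∣ x - r p then 1 else 0

theorem ind_nonneg (r : ℕ → ℤ) (p : ℕ) (x : ℤ) : 0 ≤ ind r p x := by
  unfold ind; split_ifs <;> norm_num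

theorem ind_le_one (r : ℕ → ℤ) (p : ℕ) (x : ℤ) : ind r p x ≤ 1 := by
  unfold ind; split_ifs <;> norm_num

theorem ind_sq (r : ℕ → ℤ) (p : ℕ) (x : ℤ) : ind r p x * ind r p x = ind r p x := by
  unfold ind; split_ifs <;> norm_num

theorem ind_bdd (r : ℕ → ℤ) (p : ℕ) : Bdd (ind r p) :=
  ⟨1, fun x => by rw [abs_of_nonneg (ind_nonneg r p x)]; exact ind_le_one r p x⟩

theorem ind_per (r : ℕ → ℤ) (p : ℕ) (N : ℤ) (h : (p : ℤ) ∣ N) (x : ℤ) :
    ind r p (x + N) = ind r p x := by
  unfold ind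
  have : (p : ℤ) ∣ x + N - r p ↔ (p : ℤ) ∣ x - r p := by
    rw [show x + N - r p = (x - r p) + N by ring]
    exact dvd_add_left h
  simp only [this]

/-- normalised count -/
noncomputable def nn (r : ℕ → ℤ) (P : Finset ℕ) (x : ℤ) : ℝ := (1 / Lsum P) * ∑ p ∈ P, ind r p x

/-- product of normalised counts -/
noncomputable def NN (r : ℕ → ℤ) (P : ℕ → Finset ℕ) (j : ℕ) (x : ℤ) : ℝ :=
  ∏ i ∈ Finset.range j, nn r (P i) x

theorem nn_bdd (r : ℕ → ℤ) (P : Finset ℕ) : Bdd (nn r P) :=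
  (Bdd.sum P (fun p => ind r p) fun p _ => ind_bdd r p).smul _

theorem NN_bdd (r : ℕ → ℤ) (P : ℕ → Finset ℕ) (j : ℕ) : Bdd (NN r P j) :=
  Bdd.prod (Finset.range j) (fun i => nn r (P i)) fun i _ => nn_bdd r (P i)

/-- the product of the primes in the first `j` sets -/
def Mod (P : ℕ → Finset ℕ) (j : ℕ) : ℕ := ∏ i ∈ Finset.range j, ∏ p ∈ P i, p

theorem nn_per (r : ℕ → ℤ) (P : Finset ℕ) (N : ℤ) (h : ∀ p ∈ P, (p : ℤ) ∣ N) (x : ℤ) :
    nn r P (x + N) = nn r P x := by
  unfold nn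
  congr 1
  exact Finset.sum_congr rfl fun p hp => ind_per r p N (h p hp) x

theorem dvd_Mod (P : ℕ → Finset ℕ) {i j : ℕ} (hij : i < j) {p : ℕ} (hp : p ∈ P i) : p ∣ Mod P j := by
  unfold Mod
  exact (Finset.dvd_prod_of_mem (fun p => p) hp).trans
    (Finset.dvd_prod_of_mem (fun i => ∏ p ∈ P i, p) (Finset.mem_range.2 hij))

theorem NN_per (r : ℕ → ℤ) (P : ℕ → Finset ℕ) (j : ℕ) (N : ℤ) (hN : (Mod P j : ℤ) ∣ N) (x : ℤ) :
    NN r P j (x + N) = NN r P j x := by
  unfold NN
  apply Finset.prod_congr rfl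
  intro i hi
  apply nn_per
  intro p hp
  exact (Int.natCast_dvd_natCast.2 (dvd_Mod P (Finset.mem_range.1 hi) hp)).trans hN

section

variable (M : Mean) (r : ℕ → ℤ) (P : ℕ → Finset ℕ)
variable (hP : ∀ i, ∀ p ∈ P i, p.Prime) (hd : ∀ i j, i ≠ j → Disjoint (P i) (P j))

include hP hd in
theorem coprime_Mod {j : ℕ} {p : ℕ} (hp : p ∈ P j) : Nat.Coprime p (Mod P j) := by
  unfold Mod
  apply Nat.Coprime.prod_right
  intro i hi
  apply Nat.Coprime.prod_right
  intro q hq
  rw [Nat.coprime_primes (hP j p hp) (hP i q hq)]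
  rintro rfl
  have := Finset.mem_range.1 hi
  exact Finset.disjoint_left.1 (hd i j (by omega)) hq hp

/-- expectation of an indicator times a function with coprime period -/
theorem E_ind {p : ℕ} (hp : p.Prime) {N : ℕ} (hN : Nat.Coprime p N) {g : ℤ → ℝ} (hg : Bdd g)
    (hper : ∀ x, g (x + N) = g x) : M.E (fun x => ind r p x * g x) = (1 / (p : ℝ)) * M.E g := by
  have h1 := M.indep p hp.pos N (Nat.isCoprime_iff_coprime.2 hN) (r p) hg hper
  have hp0 : (p : ℝ) ≠ 0 := by exact_mod_cast hp.ne_zero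
  rw [← h1, ← M.smul]
  · congr 1
    funext x
    unfold ind
    split_ifs
    · field_simp
    · ring
  · exact Bdd.ite _ (hg.smul _) (Bdd.const 0)

include hP hd in
theorem E_NN_step {j : ℕ} (hL : 0 < Lsum (P j)) {g : ℤ → ℝ} (hg : Bdd g)
    (hper : ∀ x, g (x + (Mod P j : ℕ)) = g x) : M.E (fun x => nn r (P j) x * g x) = M.E g := by
  have h1 : (fun x => nn r (P j) x * g x) =
      fun x => (1 / Lsum (P j)) * ∑ p ∈ P j, ind r p x * g x := by
    funext x
    unfold nn
    rw [mul_assoc, Finset.sum_mul]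
  rw [h1, M.smul, M.sum]
  · rw [Finset.sum_congr rfl fun p hp => E_ind M r (hP j p hp) (coprime_Mod P hP hd hp) hg hper,
      ← Finset.sum_mul]
    unfold Lsum at hL ⊢
    field_simp
  · exact fun p _ => (ind_bdd r p).mul hg
  · exact Bdd.sum (P j) (fun p x => ind r p x * g x) fun p _ => (ind_bdd r p).mul hg

include hP hd in
theorem E_NN (hL : ∀ i, 0 < Lsum (P i)) (j : ℕ) : M.E (NN r P j) = 1 := by
  induction j with
  | zero =>
    have : NN r P 0 = fun _ => 1 := by funext x; simp [NN]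
    rw [this]; exact M.one
  | succ j ih =>
    have h1 : NN r P (j + 1) = fun x => nn r (P j) x * NN r P j x := by
      funext x; unfold NN; rw [Finset.prod_range_succ, mul_comm]
    rw [h1, E_NN_step M r P hP hd (hL j) (NN_bdd r P j) (fun x => NN_per r P j _ dvd_rfl x), ih]

include hP hd in
theorem E_NN_step_sq {j : ℕ} {L : ℝ} (hL0 : 0 < L) (hL : L ≤ Lsum (P j)) {g : ℤ → ℝ} (hg : Bdd g)
    (hg0 : ∀ x, 0 ≤ g x) (hper : ∀ x, g (x + (Mod P j : ℕ)) = g x) :
    M.E (fun x => nn r (P j) x ^ 2 * g x) ≤ (1 + 1 / L) * M.E g := by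
  have hLs : 0 < Lsum (P j) := lt_of_lt_of_le hL0 hL
  have hE0 : 0 ≤ M.E g := M.nonneg g hg hg0
  have h1 : (fun x => nn r (P j) x ^ 2 * g x) =
      fun x => (1 / Lsum (P j)) ^ 2 * ∑ p ∈ P j, ∑ p' ∈ P j, ind r p x * (ind r p' x * g x) := by
    funext x
    unfold nn
    rw [mul_pow, mul_assoc, sq (∑ p ∈ P j, ind r p x), Finset.sum_mul_sum, Finset.sum_mul]
    congr 1
    apply Finset.sum_congr rfl
    intro p _
    rw [Finset.sum_mul]
    apply Finset.sum_congr rfl
    intro p' _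
    ring
  have hb : ∀ p p', Bdd (fun x => ind r p x * (ind r p' x * g x)) := fun p p' =>
    (ind_bdd r p).mul ((ind_bdd r p').mul hg)
  rw [h1, M.smul _ _ (Bdd.sum _ _ fun p _ => Bdd.sum _ _ fun p' _ => hb p p'),
    M.sum _ _ (fun p _ => Bdd.sum _ _ fun p' _ => hb p p')]
  have h2 : ∀ p ∈ P j, M.E (fun x => ∑ p' ∈ P j, ind r p x * (ind r p' x * g x)) ≤
      (1 / (p : ℝ)) * M.E g + ∑ p' ∈ P j, (1 / (p : ℝ)) * ((1 / (p' : ℝ)) * M.E g) := by
    intro p hp
    rw [M.sum _ _ fun p' _ => hb p p', ← Finset.add_sum_erase _ _ hp]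
    apply add_le_add
    · have e1 : (fun x => ind r p x * (ind r p x * g x)) = fun x => ind r p x * g x := by
        funext x
        rw [← mul_assoc, ind_sq]
      rw [e1, E_ind M r (hP j p hp) (coprime_Mod P hP hd hp) hg hper]
    · refine le_trans ?_ (Finset.sum_le_sum_of_subset_of_nonneg (Finset.erase_subset p (P j)) ?_)
      · apply Finset.sum_le_sum
        intro p' hp'
        rw [Finset.mem_erase] at hp'
        have hc : Nat.Coprime p (p' * Mod P j) :=
          Nat.Coprime.mul_right ((Nat.coprime_primes (hP j p hp) (hP j p' hp'.2)).2 (Ne.symm hp'.1))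
            (coprime_Mod P hP hd hp)
        rw [E_ind M r (hP j p hp) hc ((ind_bdd r p').mul hg), E_ind M r (hP j p' hp'.2)
          (coprime_Mod P hP hd hp'.2) hg hper]
        intro x
        have hper' : ∀ i : ℕ, ∀ y, g (y + ((i * Mod P j : ℕ) : ℤ)) = g y := by
          intro i
          induction i with
          | zero => intro y; simp
          | succ i ih =>
            intro y
            have := hper (y + ((i * Mod P j : ℕ) : ℤ))
            rw [ih] at this
            rw [← this]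
            congr 1
            push_cast
            ring
        rw [hper' p', ind_per r p' _ (by push_cast; exact Dvd.intro _ rfl)]
      · intro p' _ _
        positivity
  refine (mul_le_mul_of_nonneg_left (Finset.sum_le_sum h2) (by positivity)).trans ?_
  rw [Finset.sum_add_distrib, ← Finset.sum_mul]
  have h3 : ∑ p ∈ P j, ∑ p' ∈ P j, (1 / (p : ℝ)) * ((1 / (p' : ℝ)) * M.E g) =
      Lsum (P j) * Lsum (P j) * M.E g := by
    unfold Lsum
    rw [Finset.sum_mul_sum, Finset.sum_mul]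
    apply Finset.sum_congr rfl
    intro p _
    rw [Finset.sum_mul]
    apply Finset.sum_congr rfl
    intro p' _
    ring
  rw [h3]
  have h4 : ∑ p ∈ P j, 1 / (p : ℝ) = Lsum (P j) := rfl
  rw [h4]
  have h5 : (1 / Lsum (P j)) ^ 2 * (Lsum (P j) * M.E g + Lsum (P j) * Lsum (P j) * M.E g) =
      (1 + 1 / Lsum (P j)) * M.E g := by
    field_simp
    ring
  rw [h5]
  apply mul_le_mul_of_nonneg_right _ hE0
  have := one_div_le_one_div_of_le hL0 hL
  linarith

include hP hd in
theorem E_NN_sq {L : ℝ} (hL0 : 0 < L) (hL : ∀ i, L ≤ Lsum (P i)) (j : ℕ) :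
    M.E (fun x => NN r P j x ^ 2) ≤ (1 + 1 / L) ^ j := by
  induction j with
  | zero =>
    have : (fun x => NN r P 0 x ^ 2) = fun _ => 1 := by funext x; simp [NN]
    rw [this, M.one]; simp
  | succ j ih =>
    have h1 : (fun x => NN r P (j + 1) x ^ 2) = fun x => nn r (P j) x ^ 2 * (NN r P j x ^ 2) := by
      funext x; unfold NN; rw [Finset.prod_range_succ]; ring
    have hb : Bdd (fun x => NN r P j x ^ 2) := by
      have := (NN_bdd r P j).mul (NN_bdd r P j)
      simpa [sq] using this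
    rw [h1]
    refine (E_NN_step_sq M r P hP hd hL0 (hL j) hb (fun x => sq_nonneg _) (fun x => ?_)).trans ?_
    · show NN r P j (x + (Mod P j : ℕ)) ^ 2 = NN r P j x ^ 2
      rw [NN_per r P j _ dvd_rfl x]
    · rw [pow_succ, mul_comm ((1 + 1 / L) ^ j)]
      exact mul_le_mul_of_nonneg_left ih (by positivity)

include hP hd in
theorem E_NN_sub_one_sq {L : ℝ} (hL0 : 0 < L) (hL : ∀ i, L ≤ Lsum (P i)) (j : ℕ) :
    M.E (fun x => (NN r P j x - 1) ^ 2) ≤ (1 + 1 / L) ^ j - 1 := by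
  have h1 := E_NN_sq M r P hP hd hL0 hL j
  have h2 := E_NN M r P hP hd (fun i => lt_of_lt_of_le hL0 (hL i)) j
  have hb : Bdd (fun x => NN r P j x ^ 2) := by
    have := (NN_bdd r P j).mul (NN_bdd r P j)
    simpa [sq] using this
  have h3 : (fun x => (NN r P j x - 1) ^ 2) = fun x => NN r P j x ^ 2 + (1 - 2 * NN r P j x) := by
    funext x; ring
  rw [h3, M.add _ _ hb ((Bdd.const 1).sub ((NN_bdd r P j).smul 2)),
    M.sub (Bdd.const 1) ((NN_bdd r P j).smul 2), M.one, M.smul _ _ (NN_bdd r P j), h2]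
  linarith

end

end Pool.Agent.MP_a17b09_nt.OM
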